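import Pool.Agent.Helper10.SP.GoalsA
import Pool.Agent.Helper8.Abund.FDerivHolo

/-! # Coordinates of `ℂᵇ × ℂ`, primitives along the fibre -/

open Complex Metric Set Filter Topology MeasureTheory
open scoped ContDiff ComplexConjugate ComplexOrder Manifold Matrix

namespace Pool.Agent.Helper35.SP

open Pool.Agent.Helper95.Lin Pool.Agent.Helper16.Abund Pool.Agent.Helper92.Orb
open Pool.Agent.Helper10.SP

variable {b : ℕ}

theorem base_pt (z : Cn b) (w : ℂ) : base (pt z w) = z := by
  ext i
  simp [base, pt]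

theorem lc_pt (z : Cn b) (w : ℂ) : lc (pt z w) = w := by
  simp [lc, pt]

theorem pt_eta (x : Cn (b + 1)) : pt (base x) (lc x) = x := by
  funext j
  refine Fin.addCases (fun i => ?_) (fun i => ?_) j
  · simp [base, pt]
  · have : i = 0 := Subsingleton.elim _ _
    subst this
    simp [lc, pt]

/-- The projection to the base as a continuous linear map. -/
noncomputable def baseL (b : ℕ) : Cn (b + 1) →L[ℂ] Cn b :=
  ContinuousLinearMap.pi fun i => ContinuousLinearMap.proj (Fin.castAdd 1 i)

/-- The last coordinate as a continuous linear map. -/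
noncomputable def lcL (b : ℕ) : Cn (b + 1) →L[ℂ] ℂ := ContinuousLinearMap.proj (Fin.natAdd b 0)

/-- The inclusion of the base. -/
noncomputable def inc (b : ℕ) : Cn b →L[ℂ] Cn (b + 1) :=
  ContinuousLinearMap.pi fun j => Fin.addCases (fun i => ContinuousLinearMap.proj i) (fun _ => 0) j

theorem baseL_apply (x : Cn (b + 1)) : baseL b x = base x := by
  ext i
  simp [baseL, base]

theorem lcL_apply (x : Cn (b + 1)) : lcL b x = lc x := by
  simp [lcL, lc]

theorem inc_apply (z : Cn b) : inc b z = pt z 0 := by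
  funext j
  refine Fin.addCases (fun i => ?_) (fun i => ?_) j
  · simp [inc, pt]
  · simp [inc, pt]

theorem pt_eq (z : Cn b) (w : ℂ) : pt z w = inc b z + w • ew b := by
  rw [inc_apply]
  funext j
  refine Fin.addCases (fun i => ?_) (fun i => ?_) j
  · have h : Fin.castAdd 1 i ≠ Fin.natAdd b 0 := by
      intro h
      have h' := congrArg Fin.val h
      simp at h'
      omega
    simp [pt, ew, h]
  · have : i = 0 := Subsingleton.elim _ _
    subst this
    simp [pt, ew]

theorem base_ew : base (ew b) = 0 := by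
  ext i
  have h : Fin.castAdd 1 i ≠ Fin.natAdd b 0 := by
    intro h
    have h' := congrArg Fin.val h
    simp at h'
    omega
  simp [base, ew, h]

theorem lc_ew : lc (ew b) = 1 := by
  simp [lc, ew]

theorem ew_ne : ew b ≠ 0 := by
  intro h
  have := lc_ew (b := b)
  rw [h] at this
  simp [lc] at this

theorem isOpen_prodS {U : Set (Cn b)} {Δ : Set ℂ} (hU : IsOpen U) (hΔ : IsOpen Δ) :
    IsOpen (prodS U Δ) := by
  have h1 : Continuous fun x : Cn (b + 1) => base x := by
    have := (baseL b).continuous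
    simpa [funext fun x => (baseL_apply (b := b) x)] using this
  have h2 : Continuous fun x : Cn (b + 1) => lc x := by
    have := (lcL b).continuous
    simpa [funext fun x => (lcL_apply (b := b) x)] using this
  exact (hU.preimage h1).inter (hΔ.preimage h2)

theorem prodS_subset_ball {r : ℝ} (hr : 0 < r) :
    prodS (ball (0 : Cn b) r) (ball 0 r) ⊆ ball 0 r := by
  rintro x ⟨h1, h2⟩
  rw [mem_ball_zero_iff] at *
  rw [pi_norm_lt_iff hr]
  intro j
  refine Fin.addCases (fun i => ?_) (fun i => ?_) j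
  · exact lt_of_le_of_lt (norm_le_pi_norm (base x) i) h1
  · have : i = 0 := Subsingleton.elim _ _
    subst this
    exact h2

/-- The contraction of the fibre. -/
noncomputable def St (b : ℕ) (s : ℝ) : Cn (b + 1) →L[ℂ] Cn (b + 1) :=
  ContinuousLinearMap.id ℂ _ + ((s : ℂ) - 1) • (lcL b).smulRight (ew b)

theorem St_apply (s : ℝ) (x : Cn (b + 1)) : St b s x = pt (base x) ((s : ℂ) * lc x) := by
  have h : x = inc b (base x) + lc x • ew b := by
    rw [← pt_eq, pt_eta]
  rw [pt_eq]
  simp only [St, add_apply, ContinuousLinearMap.id_apply,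
    smul_apply, ContinuousLinearMap.smulRight_apply, lcL_apply]
  nth_rewrite 1 [h]
  module

theorem St_one (x : Cn (b + 1)) : St b 1 x = x := by
  rw [St_apply]
  simp [pt_eta]

theorem St_zero (x : Cn (b + 1)) : St b 0 x = pt (base x) 0 := by
  rw [St_apply]
  simp

theorem St_ew (s : ℝ) : St b s (ew b) = (s : ℂ) • ew b := by
  rw [St_apply, pt_eq, base_ew, lc_ew]
  simp

theorem St_mem {r : ℝ} {x : Cn (b + 1)} (hx : x ∈ prodS (ball (0 : Cn b) r) (ball 0 r))
    {s : ℝ} (hs : s ∈ Icc (0 : ℝ) 1) : St b s x ∈ prodS (ball (0 : Cn b) r) (ball 0 r) := by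
  rw [St_apply]
  refine ⟨by rw [base_pt]; exact hx.1, ?_⟩
  rw [lc_pt, mem_ball_zero_iff, norm_mul]
  have h1 : ‖(s : ℂ)‖ ≤ 1 := by
    rw [Complex.norm_real, Real.norm_eq_abs, abs_of_nonneg hs.1]
    exact hs.2
  have h2 := hx.2
  rw [mem_ball_zero_iff] at h2
  calc ‖(s : ℂ)‖ * ‖lc x‖ ≤ 1 * ‖lc x‖ := by gcongr
    _ < r := by rw [one_mul]; exact h2

theorem St_hasDerivAt (s : ℝ) (x : Cn (b + 1)) :
    HasDerivAt (fun s : ℝ => St b s x) (lc x • ew b) s := by
  have h : (fun s : ℝ => St b s x) = fun s : ℝ => x + ((s : ℂ) - 1) • (lc x • ew b) := by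
    funext s
    simp [St, lcL_apply]
  rw [h]
  have h1 : HasDerivAt (fun s : ℝ => ((s : ℂ) - 1)) 1 s :=
    (Complex.ofRealCLM.hasDerivAt (x := s)).sub_const 1
  have h2 := (h1.smul_const (lc x • ew b)).const_add x
  simpa using h2

theorem St_continuous : Continuous fun p : Cn (b + 1) × ℝ => St b p.2 p.1 := by
  have h : (fun p : Cn (b + 1) × ℝ => St b p.2 p.1) =
      fun p => p.1 + ((p.2 : ℂ) - 1) • (lcL b p.1 • ew b) := by
    funext p
    simp [St]
  rw [h]
  fun_prop

theorem St_cont' : Continuous fun s : ℝ => St b s := by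
  unfold St
  fun_prop

/-- Differentiation under the integral sign on a compact interval. -/
theorem par_int {E : Type*} [NormedAddCommGroup E] [NormedSpace ℂ E] [ProperSpace E] {D : Set E}
    (hD : IsOpen D) (F : E → ℝ → ℂ) (F' : E → ℝ → (E →L[ℂ] ℂ))
    (hF : ContinuousOn (fun p : E × ℝ => F p.1 p.2) (D ×ˢ Icc (0 : ℝ) 1))
    (hF' : ContinuousOn (fun p : E × ℝ => F' p.1 p.2) (D ×ˢ Icc (0 : ℝ) 1))
    (hd : ∀ x ∈ D, ∀ s ∈ Icc (0 : ℝ) 1, HasFDerivAt (fun y => F y s) (F' x s) x) :
    ∀ x ∈ D, IntervalIntegrable (F' x) volume 0 1 ∧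
      HasFDerivAt (fun y => ∫ s in (0 : ℝ)..1, F y s) (∫ s in (0 : ℝ)..1, F' x s) x := by
  intro x hx
  obtain ⟨ε, hε, hεD⟩ := Metric.isOpen_iff.1 hD x hx
  have hcb : closedBall x (ε / 2) ⊆ D := (closedBall_subset_ball (by linarith)).trans hεD
  have hK : IsCompact (closedBall x (ε / 2) ×ˢ Icc (0 : ℝ) 1) :=
    (isCompact_closedBall x (ε / 2)).prod isCompact_Icc
  obtain ⟨C, hC⟩ := hK.exists_bound_of_continuousOn
    (hF'.mono (prod_mono hcb (subset_refl _)))
  have hs : closedBall x (ε / 2) ∈ 𝓝 x := closedBall_mem_nhds x (by linarith)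
  have huIoc : Set.uIoc (0 : ℝ) 1 = Ioc 0 1 := uIoc_of_le zero_le_one
  have huIcc : uIcc (0 : ℝ) 1 = Icc 0 1 := uIcc_of_le zero_le_one
  have hc : ∀ y : E, ContinuousOn (fun s : ℝ => ((y, s) : E × ℝ)) (Icc (0 : ℝ) 1) := fun y =>
    (Continuous.prodMk continuous_const continuous_id).continuousOn
  have hi1 : ∀ y ∈ D, IntervalIntegrable (F y) volume 0 1 := by
    intro y hy
    apply ContinuousOn.intervalIntegrable
    rw [huIcc]
    exact hF.comp (hc y) (fun s hs => ⟨hy, hs⟩)
  have hi2 : IntervalIntegrable (F' x) volume 0 1 := by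
    apply ContinuousOn.intervalIntegrable
    rw [huIcc]
    exact hF'.comp (hc x) (fun s hs => ⟨hx, hs⟩)
  refine ⟨hi2, ?_⟩
  refine intervalIntegral.hasFDerivAt_integral_of_dominated_of_fderiv_le (μ := volume)
    (F := F) (F' := F') (x₀ := x) (s := closedBall x (ε / 2)) (bound := fun _ => C) hs ?_
    (hi1 x hx) ?_ ?_ ?_ ?_
  · filter_upwards [hs] with y hy
    have := (hi1 y (hcb hy)).aestronglyMeasurable
    rw [huIoc]
    exact this
  · have := hi2.aestronglyMeasurable
    rw [huIoc]
    exact this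
  · refine Filter.Eventually.of_forall fun s hs y hy => ?_
    rw [huIoc] at hs
    exact hC (y, s) ⟨hy, ⟨hs.1.le, hs.2⟩⟩
  · exact intervalIntegrable_const
  · refine Filter.Eventually.of_forall fun s hs y hy => ?_
    rw [huIoc] at hs
    exact hd y (hcb hy) s ⟨hs.1.le, hs.2⟩

/-- Primitives along the fibre. -/
theorem prim {r : ℝ} (g : Cn (b + 1) → ℂ)
    (hg : DifferentiableOn ℂ g (prodS (ball 0 r) (ball 0 r))) :
    ∃ G : Cn (b + 1) → ℂ, DifferentiableOn ℂ G (prodS (ball 0 r) (ball 0 r)) ∧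
      (∀ x, lc x = 0 → G x = 0) ∧
      ∀ x ∈ prodS (ball (0 : Cn b) r) (ball 0 r), fderiv ℂ G x (ew b) = g x := by
  set D := prodS (ball (0 : Cn b) r) (ball 0 r) with hDdef
  have hD : IsOpen D := isOpen_prodS isOpen_ball isOpen_ball
  have hg' : DifferentiableOn ℂ (fderiv ℂ g) D :=
    Pool.Agent.Helper8.Abund.differentiableOn_fderiv hD hg
  have hcont : ContinuousOn (fun p : Cn (b + 1) × ℝ => g (St b p.2 p.1))
      (D ×ˢ Icc (0 : ℝ) 1) :=
    ContinuousOn.comp (t := D) hg.continuousOn St_continuous.continuousOn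
      (fun p hp => St_mem hp.1 hp.2)
  have hcont' : ContinuousOn (fun p : Cn (b + 1) × ℝ => (fderiv ℂ g (St b p.2 p.1)).comp (St b p.2))
      (D ×ˢ Icc (0 : ℝ) 1) := by
    have h1 : ContinuousOn (fun p : Cn (b + 1) × ℝ => fderiv ℂ g (St b p.2 p.1))
        (D ×ˢ Icc (0 : ℝ) 1) :=
      ContinuousOn.comp (t := D) hg'.continuousOn St_continuous.continuousOn
        (fun p hp => St_mem hp.1 hp.2)
    exact h1.clm_comp (St_cont'.comp continuous_snd).continuousOn
  have hgd : ∀ y ∈ D, ∀ s ∈ Icc (0 : ℝ) 1, HasFDerivAt (fun y => g (St b s y))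
      ((fderiv ℂ g (St b s y)).comp (St b s)) y := by
    intro y hy s hs
    have hmem := St_mem hy hs
    have h1 : HasFDerivAt g (fderiv ℂ g (St b s y)) (St b s y) :=
      ((hg _ hmem).differentiableAt (hD.mem_nhds hmem)).hasFDerivAt
    exact h1.comp y (St b s).hasFDerivAt
  have key := par_int hD (fun y s => g (St b s y))
    (fun y s => (fderiv ℂ g (St b s y)).comp (St b s)) hcont hcont' hgd
  obtain ⟨P, hPdef⟩ : ∃ P : Cn (b + 1) → ℂ, P = fun x => ∫ s in (0 : ℝ)..1, g (St b s x) :=
    ⟨_, rfl⟩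
  rw [← hPdef] at key
  refine ⟨fun x => lcL b x * P x, ?_, ?_, ?_⟩
  · intro x hx
    exact (((lcL b).differentiableAt).mul (key x hx).2.differentiableAt).differentiableWithinAt
  · intro x hx
    simp [lcL_apply, hx]
  · intro x hx
    obtain ⟨hint, hder⟩ := key x hx
    have h1 := (lcL b).hasFDerivAt.mul hder
    have h1' := h1.fderiv
    rw [show (fun x => lcL b x * P x) = (⇑(lcL b)) * P from rfl, h1']
    have hcl : lcL b (ew b) = 1 := by rw [lcL_apply, lc_ew]
    have h2 : (∫ s in (0 : ℝ)..1, (fderiv ℂ g (St b s x)).comp (St b s)) (ew b) =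
        ∫ s in (0 : ℝ)..1, (s : ℂ) * fderiv ℂ g (St b s x) (ew b) := by
      rw [ContinuousLinearMap.intervalIntegral_apply hint]
      refine intervalIntegral.integral_congr fun s _ => ?_
      simp [St_ew]
    simp only [add_apply, smul_apply, smul_eq_mul, hcl,
      mul_one, h2, lcL_apply]
    have h3 : ∀ s ∈ Icc (0 : ℝ) 1, HasDerivAt (fun s : ℝ => (s : ℂ) * g (St b s x))
        (lc x * ((s : ℂ) * fderiv ℂ g (St b s x) (ew b)) + g (St b s x)) s := by
      intro s hs
      have hmem := St_mem hx hs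
      have k1 : HasFDerivAt g (fderiv ℂ g (St b s x)) (St b s x) :=
        ((hg _ hmem).differentiableAt (hD.mem_nhds hmem)).hasFDerivAt
      have k2 : HasDerivAt (fun s : ℝ => g (St b s x)) (fderiv ℂ g (St b s x) (lc x • ew b)) s := by
        exact (k1.restrictScalars ℝ).comp_hasDerivAt s (St_hasDerivAt s x)
      have k3 : HasDerivAt (fun s : ℝ => (s : ℂ)) 1 s := Complex.ofRealCLM.hasDerivAt (x := s)
      have k4 := k3.mul k2
      refine k4.congr_deriv ?_
      simp only [map_smul, smul_eq_mul]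
      ring
    have huIcc : uIcc (0 : ℝ) 1 = Icc 0 1 := uIcc_of_le zero_le_one
    have hI1 : IntervalIntegrable (fun s : ℝ => g (St b s x)) volume 0 1 := by
      apply ContinuousOn.intervalIntegrable
      rw [huIcc]
      refine ContinuousOn.comp (t := D) hg.continuousOn ?_ (fun s hs => St_mem hx hs)
      exact (St_continuous.comp (Continuous.prodMk continuous_const continuous_id)).continuousOn
    have hI2 : IntervalIntegrable (fun s : ℝ => (s : ℂ) * fderiv ℂ g (St b s x) (ew b))
        volume 0 1 := by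
      apply ContinuousOn.intervalIntegrable
      rw [huIcc]
      have hc : ContinuousOn (fun s : ℝ => fderiv ℂ g (St b s x)) (Icc (0 : ℝ) 1) := by
        refine ContinuousOn.comp (t := D) hg'.continuousOn ?_ (fun s hs => St_mem hx hs)
        exact (St_continuous.comp (Continuous.prodMk continuous_const continuous_id)).continuousOn
      exact (Complex.continuous_ofReal.continuousOn).mul (hc.clm_apply continuousOn_const)
    have h4 := intervalIntegral.integral_eq_sub_of_hasDerivAt (a := (0 : ℝ)) (b := 1)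
      (f := fun s : ℝ => (s : ℂ) * g (St b s x))
      (f' := fun s => lc x * ((s : ℂ) * fderiv ℂ g (St b s x) (ew b)) + g (St b s x))
      (fun s hs => h3 s (by rwa [huIcc] at hs)) ((hI2.const_mul _).add hI1)
    rw [intervalIntegral.integral_add (hI2.const_mul _) hI1,
      intervalIntegral.integral_const_mul] at h4
    rw [hPdef]
    show lc x * (∫ s in (0 : ℝ)..1, (s : ℂ) * fderiv ℂ g (St b s x) (ew b)) +
      (∫ s in (0 : ℝ)..1, g (St b s x)) = g x
    rw [h4]
    simp [St_one]

end Pool.Agent.Helper35.SP
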