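import Pool.Agent.Helper10.SP.GoalsC
import Pool.Agent.Helper35.SP.Basic

/-! # The pseudogroup axioms -/

open Complex Metric Set Filter Topology MeasureTheory
open scoped ContDiff ComplexConjugate ComplexOrder Manifold Matrix

namespace Pool.Agent.Helper35.SP

open Pool.Agent.Helper95.Lin Pool.Agent.Helper16.Abund Pool.Agent.Helper92.Orb
open Pool.Agent.Helper10.SP

universe u v

variable {b : ℕ}

/-- Determinant of a block triangular map. -/
theorem det_block (A : Cn b →L[ℂ] Cn b) (m : Cn (b + 1) →L[ℂ] ℂ) :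
    (((inc b).comp A).comp (baseL b) + m.smulRight (ew b)).det = A.det * m (ew b) := by
  have hv : ∀ v : Cn (b + 1), (((inc b).comp A).comp (baseL b) + m.smulRight (ew b)) v =
      pt (A (base v)) (m v) := by
    intro v
    rw [pt_eq]
    simp [baseL_apply]
  rw [ContinuousLinearMap.det, ← LinearMap.det_toMatrix',
    ← Matrix.det_submatrix_equiv_self (finSumFinEquiv (m := b) (n := 1))]
  have hblock : (LinearMap.toMatrix' (((((inc b).comp A).comp (baseL b) +
      m.smulRight (ew b)) : Cn (b + 1) →L[ℂ] Cn (b + 1)) :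
        Cn (b + 1) →ₗ[ℂ] Cn (b + 1))).submatrix finSumFinEquiv finSumFinEquiv =
      Matrix.fromBlocks (LinearMap.toMatrix' (A : Cn b →ₗ[ℂ] Cn b)) 0
        (Matrix.of fun _ j => m (Pi.single (Fin.castAdd 1 j) 1)) (Matrix.of fun _ _ => m (ew b)) := by
    ext i j
    rcases i with i | i <;> rcases j with j | j
    · simp only [Matrix.submatrix_apply, LinearMap.toMatrix'_apply, ContinuousLinearMap.coe_coe,
        hv, Matrix.fromBlocks_apply₁₁, finSumFinEquiv_apply_left]
      have h1 : base (Pi.single (Fin.castAdd 1 j) (1 : ℂ) : Cn (b + 1)) = Pi.single j 1 := by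
        ext k
        by_cases hk : k = j
        · subst hk
          simp [base]
        · have : Fin.castAdd 1 k ≠ Fin.castAdd 1 j := fun h => hk (Fin.castAdd_injective _ _ h)
          simp [base, this, hk]
      rw [h1]
      simp [pt]
    · simp only [Matrix.submatrix_apply, LinearMap.toMatrix'_apply, ContinuousLinearMap.coe_coe,
        hv, Matrix.fromBlocks_apply₁₂, finSumFinEquiv_apply_left, finSumFinEquiv_apply_right]
      have hj : j = 0 := Subsingleton.elim _ _
      subst hj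
      have h1 : base (Pi.single (Fin.natAdd b 0) (1 : ℂ) : Cn (b + 1)) = 0 := base_ew
      rw [h1, map_zero]
      simp [pt]
    · simp only [Matrix.submatrix_apply, LinearMap.toMatrix'_apply, ContinuousLinearMap.coe_coe,
        hv, Matrix.fromBlocks_apply₂₁, finSumFinEquiv_apply_left, finSumFinEquiv_apply_right]
      simp [pt]
    · simp only [Matrix.submatrix_apply, LinearMap.toMatrix'_apply, ContinuousLinearMap.coe_coe,
        hv, Matrix.fromBlocks_apply₂₂, finSumFinEquiv_apply_right]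
      have hj : j = 0 := Subsingleton.elim _ _
      subst hj
      simp [pt, ew]
  rw [hblock, Matrix.det_fromBlocks_zero₁₂, LinearMap.det_toMatrix']
  simp

/-- The map of `ℂᵇ⁺¹` attached to `t`. -/
noncomputable def TM (t : Tri b) (x : Cn (b + 1)) : Cn (b + 1) :=
  pt (t.g (base x)) (t.a (base x) * lc x + t.β (base x))

theorem TM_pt (t : Tri b) (z : Cn b) (w : ℂ) : TM t (pt z w) = pt (t.g z) (t.a z * w + t.β z) := by
  rw [TM, base_pt, lc_pt]

theorem isOpen_tubeS {U : Set (Cn b)} (hU : IsOpen U) : IsOpen (tubeS U) := by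
  have h1 : Continuous fun x : Cn (b + 1) => base x := by
    have := (baseL b).continuous
    simpa [funext fun x => (baseL_apply (b := b) x)] using this
  exact hU.preimage h1

theorem TM_deriv {U : Set (Cn b)} (hU : IsOpen U) {t : Tri b} (ht : t.HolOn U) {x : Cn (b + 1)}
    (hx : x ∈ tubeS U) : HasFDerivAt (TM t) (((inc b).comp (fderiv ℂ t.g (base x))).comp (baseL b) +
      (lc x • (fderiv ℂ t.a (base x)).comp (baseL b) + t.a (base x) • lcL b +
        (fderiv ℂ t.β (base x)).comp (baseL b)).smulRight (ew b)) x := by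
  have hxU : base x ∈ U := hx
  have hb : HasFDerivAt (fun x : Cn (b + 1) => base x) (baseL b) x := by
    have := (baseL b).hasFDerivAt (x := x)
    simpa [funext fun x => (baseL_apply (b := b) x)] using this
  have hl : HasFDerivAt (fun x : Cn (b + 1) => lc x) (lcL b) x := by
    have := (lcL b).hasFDerivAt (x := x)
    simpa [funext fun x => (lcL_apply (b := b) x)] using this
  have hg : HasFDerivAt t.g (fderiv ℂ t.g (base x)) (base x) :=
    ((ht.1 _ hxU).differentiableAt (hU.mem_nhds hxU)).hasFDerivAt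
  have ha : HasFDerivAt t.a (fderiv ℂ t.a (base x)) (base x) :=
    ((ht.2.1 _ hxU).differentiableAt (hU.mem_nhds hxU)).hasFDerivAt
  have hβ : HasFDerivAt t.β (fderiv ℂ t.β (base x)) (base x) :=
    ((ht.2.2 _ hxU).differentiableAt (hU.mem_nhds hxU)).hasFDerivAt
  have hT : TM t = fun x => inc b (t.g (base x)) + (t.a (base x) * lc x + t.β (base x)) • ew b := by
    funext x
    rw [TM, pt_eq]
  rw [hT]
  have h1 : HasFDerivAt (fun x : Cn (b + 1) => inc b (t.g (base x)))
      (((inc b).comp (fderiv ℂ t.g (base x))).comp (baseL b)) x :=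
    ((inc b).hasFDerivAt.comp (base x) hg).comp x hb
  have h2 : HasFDerivAt (fun x : Cn (b + 1) => t.a (base x))
      ((fderiv ℂ t.a (base x)).comp (baseL b)) x := ha.comp x hb
  have h3 : HasFDerivAt (fun x : Cn (b + 1) => t.β (base x))
      ((fderiv ℂ t.β (base x)).comp (baseL b)) x := hβ.comp x hb
  have h4 := h1.add (((h2.mul hl).add h3).smul_const (ew b))
  refine h4.congr_fderiv ?_
  congr 2
  abel

theorem TM_det {U : Set (Cn b)} (hU : IsOpen U) {t : Tri b} (ht : t.HolOn U) {x : Cn (b + 1)}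
    (hx : x ∈ tubeS U) : (fderiv ℂ (TM t) x).det = (fderiv ℂ t.g (base x)).det * t.a (base x) := by
  rw [(TM_deriv hU ht hx).fderiv, det_block]
  congr 1
  simp only [add_apply, smul_apply, ContinuousLinearMap.comp_apply, baseL_apply, base_ew, map_zero,
    lcL_apply, lc_ew]
  simp

/-- The identity theorem on a ball. -/
theorem idt {n : ℕ} {F : Type*} [NormedAddCommGroup F] [NormedSpace ℂ F] [CompleteSpace F]
    {z₀ : Cn n} {r : ℝ} {f f' : Cn n → F} (hf : DifferentiableOn ℂ f (ball z₀ r))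
    (hf' : DifferentiableOn ℂ f' (ball z₀ r)) {z : Cn n} (hz : z ∈ ball z₀ r)
    (heq : f =ᶠ[𝓝 z] f') : EqOn f f' (ball z₀ r) := by
  intro y hy
  obtain ⟨l, hl⟩ : ∃ l : ℂ → Cn n, l = fun ζ => z + ζ • (y - z) := ⟨_, rfl⟩
  have hlc : Continuous l := by
    rw [hl]
    fun_prop
  have hld : Differentiable ℂ l := by
    rw [hl]
    fun_prop
  have hS : IsOpen (l ⁻¹' ball z₀ r) := isOpen_ball.preimage hlc
  have hconv : Convex ℝ (l ⁻¹' ball z₀ r) := by
    intro ζ hζ ζ' hζ' s s' hs hs' hss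
    have h1 : l (s • ζ + s' • ζ') = s • l ζ + s' • l ζ' := by
      simp only [hl]
      have h2 : z = s • z + s' • z := by
        rw [← add_smul, hss, one_smul]
      nth_rewrite 1 [h2]
      simp only [add_smul, smul_add, smul_assoc]
      abel
    rw [mem_preimage, h1]
    exact convex_ball z₀ r hζ hζ' hs hs' hss
  have h0 : (0 : ℂ) ∈ l ⁻¹' ball z₀ r := by
    rw [mem_preimage, hl]
    simpa using hz
  have h1 : (1 : ℂ) ∈ l ⁻¹' ball z₀ r := by
    rw [mem_preimage, hl]
    simpa using hy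
  have a1 : AnalyticOnNhd ℂ (f ∘ l) (l ⁻¹' ball z₀ r) :=
    (hf.comp hld.differentiableOn (mapsTo_preimage _ _)).analyticOnNhd hS
  have a2 : AnalyticOnNhd ℂ (f' ∘ l) (l ⁻¹' ball z₀ r) :=
    (hf'.comp hld.differentiableOn (mapsTo_preimage _ _)).analyticOnNhd hS
  have hl0 : l 0 = z := by simp [hl]
  have hev : (f ∘ l) =ᶠ[𝓝 0] (f' ∘ l) := by
    have : Tendsto l (𝓝 0) (𝓝 z) := by
      rw [← hl0]
      exact hlc.tendsto 0
    exact this.eventually heq
  have h2 := a1.eqOn_of_preconnected_of_eventuallyEq a2 hconv.isPreconnected h0 hev h1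
  simpa [hl] using h2

theorem pt_inj {z z' : Cn b} {w w' : ℂ} (h : pt z w = pt z' w') : z = z' ∧ w = w' := by
  refine ⟨?_, ?_⟩
  · rw [← base_pt z w, h, base_pt]
  · rw [← lc_pt z w, h, lc_pt]

theorem TM_cont {U : Set (Cn b)} (hU : IsOpen U) {t : Tri b} (ht : t.HolOn U) {x : Cn (b + 1)}
    (hx : x ∈ tubeS U) : ContinuousAt (TM t) x := (TM_deriv hU ht hx).continuousAt

/-- PAX. -/
theorem pax (hPARB : S_PARB.{u, v}) : S_PAX.{u, v} := by
  intro b N G M _ _ _ _ _ _ h v hData c R E Φ hL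
  obtain ⟨hP1, hP2, hP3, -, -⟩ := hPARB hData
  have hD : IsOpen (Bd c R) := isOpen_iUnion fun i => isOpen_ball
  have hTM : ∀ (γ : G) U t, PMapG (Bd c R) (RelE (G := G) c R E) γ U t → ∀ x ∈ tubeS U,
      TM t x ∈ tubeS (Bd c R) ∧ x ∈ tubeS (Bd c R) ∧ γ • E x = E (TM t x) := by
    intro γ U t ht x hx
    have h1 := ht.2.2.2.2 (base x) hx (lc x)
    rw [pt_eta] at h1
    exact ⟨h1.2.1, h1.1, h1.2.2⟩
  -- local description by a biholomorphic map
  have hloc : ∀ (γ : G) (x x' : Cn (b + 1)), x ∈ tubeS (Bd c R) → x' ∈ tubeS (Bd c R) →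
      γ • E x = E x' → ∃ τ : Cn (b + 1) → Cn (b + 1), (fderiv ℂ τ x).det ≠ 0 ∧
        ∀ U t, PMapG (Bd c R) (RelE (G := G) c R E) γ U t → x ∈ tubeS U → TM t x = x' →
          TM t =ᶠ[𝓝 x] τ := by
    intro γ x x' hx hx' hE
    obtain ⟨τ, U₁, W, hU₁, hW, hxU₁, hx'W, hU₁V, hWV, hτd, hτi, hτm, hτx, hτdet, hiff⟩ :=
      hP3 _ _ E E hL.par hL.par γ x hx x' hx' hE
    refine ⟨τ, hτdet x hxU₁, ?_⟩
    intro U t ht hxU hTx
    have hc : ContinuousAt (TM t) x := TM_cont ht.1 ht.2.2.1 hxU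
    have e1 : ∀ᶠ y in 𝓝 x, TM t y ∈ W := by
      apply hc
      rw [hTx]
      exact hW.mem_nhds hx'W
    have e2 : ∀ᶠ y in 𝓝 x, y ∈ tubeS U := (isOpen_tubeS ht.1).mem_nhds hxU
    have e3 : ∀ᶠ y in 𝓝 x, y ∈ U₁ := hU₁.mem_nhds hxU₁
    filter_upwards [e1, e2, e3] with y h1 h2 h3
    exact (hiff y h3 (TM t y) h1).1 (hTM γ U t ht y h2).2.2
  have hpot : ∀ γ U t, PMapG (Bd c R) (RelE (G := G) c R E) γ U t → ∀ z ∈ U, PotR Φ Φ t z := by
    intro γ U t ht z hz
    have hdet : ∀ x ∈ tubeS U, (fderiv ℂ (TM t) x).det ≠ 0 := by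
      intro x hx
      obtain ⟨h1, h2, h3⟩ := hTM γ U t ht x hx
      obtain ⟨τ, hτ, hτe⟩ := hloc γ x _ h2 h1 h3
      rw [(hτe U t ht hx rfl).fderiv_eq]
      exact hτ
    have hTd : DifferentiableOn ℂ (TM t) (tubeS U) := fun x hx =>
      (TM_deriv ht.1 ht.2.2.1 hx).differentiableAt.differentiableWithinAt
    have h1 := hP1 (tubeS (Bd c R)) (tubeS U) E (TM t) hL.par (isOpen_tubeS ht.1) hTd
      (fun x hx => (hTM γ U t ht x hx).1) hdet
    have h2 := hP2 γ (tubeS (Bd c R)) E hL.par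
    have hx : pt z 0 ∈ tubeS U := by
      change base (pt z 0) ∈ U
      rw [base_pt]
      exact hz
    have hxD : pt z 0 ∈ tubeS (Bd c R) := (hTM γ U t ht _ hx).2.1
    have hlp : lpot (b + 1) v (E ∘ TM t) (pt z 0) = lpot (b + 1) v (fun x => γ • E x) (pt z 0) := by
      have he : (E ∘ TM t) =ᶠ[𝓝 (pt z 0)] (fun x => γ • E x) := by
        filter_upwards [(isOpen_tubeS ht.1).mem_nhds hx] with y hy
        exact (hTM γ U t ht y hy).2.2.symm
      unfold lpot jac
      rw [he.mfderiv_eq, he.eq_of_nhds]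
    have h3 := (h1.2 _ hx).2
    rw [hlp, (h2.2 _ hxD), hL.pot _ hxD, hL.pot _ (hTM γ U t ht _ hx).1, TM_pt, base_pt, base_pt,
      TM_det ht.1 ht.2.2.1 hx, base_pt] at h3
    have hd := hdet _ hx
    rw [TM_det ht.1 ht.2.2.1 hx, base_pt] at hd
    have hd1 := left_ne_zero_of_mul hd
    have hd2 := right_ne_zero_of_mul hd
    refine ⟨hd2, hd1, ?_⟩
    rw [h3, norm_mul, mul_pow, Real.log_mul (by positivity) (by positivity), add_assoc]
  refine ⟨hpot, ?_, ?_, ?_, ?_⟩
  · -- one
    intro U hU hUD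
    refine ⟨hU, hUD, ⟨differentiableOn_id, differentiableOn_const _, differentiableOn_const _⟩,
      fun z hz => ⟨hUD hz, one_ne_zero⟩, fun z hz w => ?_⟩
    have hmem : pt z w ∈ tubeS (Bd c R) := by
      change base (pt z w) ∈ Bd c R
      rw [base_pt]
      exact hUD hz
    have h1 : pt (Tri.one.g z) (Tri.one.a z * w + Tri.one.β z) = pt z w := by
      simp [Tri.one]
    rw [h1]
    exact ⟨hmem, hmem, one_smul _ _⟩
  · -- comp
    intro γ γ' U U' U'' t s ht hs hU'' hsub hmaps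
    refine ⟨hU'', hsub.trans hs.2.1, ⟨?_, ?_, ?_⟩, ?_, ?_⟩
    · exact ht.2.2.1.1.comp (hs.2.2.1.1.mono hsub) hmaps
    · exact (ht.2.2.1.2.1.comp (hs.2.2.1.1.mono hsub) hmaps).mul (hs.2.2.1.2.1.mono hsub)
    · exact ((ht.2.2.1.2.1.comp (hs.2.2.1.1.mono hsub) hmaps).mul
        (hs.2.2.1.2.2.mono hsub)).add (ht.2.2.1.2.2.comp (hs.2.2.1.1.mono hsub) hmaps)
    · intro z hz
      have h1 := hs.2.2.2.1 z (hsub hz)
      have h2 := ht.2.2.2.1 _ (hmaps hz)
      exact ⟨h2.1, mul_ne_zero h2.2 h1.2⟩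
    · intro z hz w
      obtain ⟨h1, -, h2⟩ := hs.2.2.2.2 z (hsub hz) w
      obtain ⟨-, h3, h4⟩ := ht.2.2.2.2 _ (hmaps hz) (s.a z * w + s.β z)
      have h5 : pt ((t.comp s).g z) ((t.comp s).a z * w + (t.comp s).β z) =
          pt (t.g (s.g z)) (t.a (s.g z) * (s.a z * w + s.β z) + t.β (s.g z)) := by
        simp only [Tri.comp]
        congr 1
        ring
      rw [h5]
      refine ⟨h1, h3, ?_⟩
      rw [mul_smul, h2, h4]
  · -- inv
    intro γ U t ht z hz
    have hstr : ∀ y ∈ U, HasStrictFDerivAt t.g (fderiv ℂ t.g y) y := by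
      intro y hy
      refine hasStrictFDerivAt_of_hasFDerivAt_of_continuousAt (f' := fderiv ℂ t.g) ?_ ?_
      · filter_upwards [ht.1.mem_nhds hy] with x hx
        exact ((ht.2.2.1.1 x hx).differentiableAt (ht.1.mem_nhds hx)).hasFDerivAt
      · exact ((Pool.Agent.Helper8.Abund.differentiableOn_fderiv ht.1
          ht.2.2.1.1).continuousOn).continuousAt (ht.1.mem_nhds hy)
    have hdet : ∀ y ∈ U, (fderiv ℂ t.g y).det ≠ 0 := fun y hy => (hpot γ U t ht y hy).2.1
    have hs0 : HasStrictFDerivAt t.g (((fderiv ℂ t.g z).toContinuousLinearEquivOfDetNeZero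
        (hdet z hz) : Cn b ≃L[ℂ] Cn b) : Cn b →L[ℂ] Cn b) z := by
      rw [ContinuousLinearMap.coe_toContinuousLinearEquivOfDetNeZero]
      exact hstr z hz
    set e := hs0.toOpenPartialHomeomorph t.g with he
    have heF : (e : Cn b → Cn b) = t.g := by
      rw [he, hs0.toOpenPartialHomeomorph_coe]
    have hzs : z ∈ e.source := hs0.mem_toOpenPartialHomeomorph_source
    have hgz : t.g z ∈ e.target := by
      have := e.map_source hzs
      rwa [heF] at this
    have hsz : e.symm (t.g z) = z := by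
      have := e.left_inv hzs
      rwa [heF] at this
    have hU' : IsOpen (e.target ∩ e.symm ⁻¹' U) := e.isOpen_inter_preimage_symm ht.1
    have hright : ∀ y ∈ e.target ∩ e.symm ⁻¹' U, t.g (e.symm y) = y := by
      intro y hy
      have := e.right_inv hy.1
      rwa [heF] at this
    have hsd : DifferentiableOn ℂ e.symm (e.target ∩ e.symm ⁻¹' U) := by
      intro y hy
      have h1 : HasFDerivAt e (((fderiv ℂ t.g (e.symm y)).toContinuousLinearEquivOfDetNeZero
          (hdet _ hy.2) : Cn b ≃L[ℂ] Cn b) : Cn b →L[ℂ] Cn b) (e.symm y) := by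
        rw [ContinuousLinearMap.coe_toContinuousLinearEquivOfDetNeZero, heF]
        exact (hstr _ hy.2).hasFDerivAt
      exact (e.hasFDerivAt_symm hy.1 h1).differentiableAt.differentiableWithinAt
    refine ⟨⟨e.symm, fun y => 1 / t.a (e.symm y), fun y => -(t.β (e.symm y) / t.a (e.symm y))⟩,
      e.target ∩ e.symm ⁻¹' U, e.source ∩ U, ⟨hU', ?_, ⟨hsd, ?_, ?_⟩, ?_, ?_⟩, ⟨hgz, ?_⟩,
      e.open_source.inter ht.1, ⟨hzs, hz⟩, inter_subset_right, ?_, ?_⟩
    · intro y hy
      rw [← hright y hy]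
      exact (ht.2.2.2.1 _ hy.2).1
    · have ha : DifferentiableOn ℂ (fun y => t.a (e.symm y)) (e.target ∩ e.symm ⁻¹' U) :=
        ht.2.2.1.2.1.comp hsd fun y hy => hy.2
      have hne : ∀ y ∈ e.target ∩ e.symm ⁻¹' U, t.a (e.symm y) ≠ 0 :=
        fun y hy => (ht.2.2.2.1 _ hy.2).2
      intro y hy
      have h1 := ((ha y hy).inv (hne y hy))
      refine h1.congr (fun y' hy' => ?_) ?_
      · simp
      · simp
    · have ha : DifferentiableOn ℂ (fun y => t.a (e.symm y)) (e.target ∩ e.symm ⁻¹' U) :=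
        ht.2.2.1.2.1.comp hsd fun y hy => hy.2
      have hβ : DifferentiableOn ℂ (fun y => t.β (e.symm y)) (e.target ∩ e.symm ⁻¹' U) :=
        ht.2.2.1.2.2.comp hsd fun y hy => hy.2
      have hne : ∀ y ∈ e.target ∩ e.symm ⁻¹' U, t.a (e.symm y) ≠ 0 :=
        fun y hy => (ht.2.2.2.1 _ hy.2).2
      intro y hy
      have h1 := ((hβ y hy).mul ((ha y hy).inv (hne y hy))).neg
      refine h1.congr (fun y' hy' => ?_) ?_
      · simp [div_eq_mul_inv]
      · simp [div_eq_mul_inv]
    · intro y hy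
      exact ⟨ht.2.1 hy.2, one_div_ne_zero (ht.2.2.2.1 _ hy.2).2⟩
    · intro y hy w
      have ha := (ht.2.2.2.1 _ hy.2).2
      obtain ⟨h1, h2, h3⟩ := ht.2.2.2.2 (e.symm y) hy.2
        (1 / t.a (e.symm y) * w + -(t.β (e.symm y) / t.a (e.symm y)))
      have h4 : t.a (e.symm y) * (1 / t.a (e.symm y) * w + -(t.β (e.symm y) / t.a (e.symm y))) +
          t.β (e.symm y) = w := by
        field_simp
        ring
      rw [h4, hright y hy] at h2 h3
      refine ⟨h2, h1, ?_⟩
      rw [← h3, inv_smul_smul]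
    · rw [mem_preimage, hsz]
      exact hz
    · intro y hy
      have h1 := e.map_source hy.1
      have h2 := e.left_inv hy.1
      rw [heF] at h1 h2
      refine ⟨h1, ?_⟩
      rw [mem_preimage, h2]
      exact hy.2
    · intro y hy
      have h2 := e.left_inv hy.1
      rw [heF] at h2
      have ha := (ht.2.2.2.1 _ hy.2).2
      refine ⟨?_, ?_, ?_⟩
      · simp only [Tri.comp, Tri.one]
        rw [h2]
        rfl
      · simp only [Tri.comp, Tri.one]
        rw [h2]
        field_simp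
      · simp only [Tri.comp, Tri.one]
        rw [h2]
        field_simp
        ring
  · -- uniqueness
    intro γ z₀ r t s ht hs z hz w hg hw
    have hx : pt z w ∈ tubeS (ball z₀ r) := by
      change base (pt z w) ∈ ball z₀ r
      rw [base_pt]
      exact hz
    obtain ⟨h1, h2, h3⟩ := hTM γ _ t ht _ hx
    obtain ⟨τ, -, hτ⟩ := hloc γ (pt z w) _ h2 h1 h3
    have hts : TM s (pt z w) = TM t (pt z w) := by
      rw [TM_pt, TM_pt, hg, hw]
    have heq : TM t =ᶠ[𝓝 (pt z w)] TM s := (hτ _ t ht hx rfl).trans (hτ _ s hs hx hts).symm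
    have hptc : Continuous fun p : Cn b × ℂ => pt p.1 p.2 := by
      have : (fun p : Cn b × ℂ => pt p.1 p.2) = fun p => inc b p.1 + p.2 • ew b := by
        funext p
        rw [pt_eq]
      rw [this]
      fun_prop
    have hev : ∀ᶠ p : Cn b × ℂ in 𝓝 (z, w), TM t (pt p.1 p.2) = TM s (pt p.1 p.2) :=
      (hptc.tendsto (z, w)).eventually heq
    rw [nhds_prod_eq] at hev
    obtain ⟨A, hA, B, hB, hAB⟩ := Filter.mem_prod_iff.1 hev
    have hwB : w ∈ B := mem_of_mem_nhds hB
    obtain ⟨w', hw', hne⟩ : ∃ w' ∈ B, w' ≠ w := by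
      have := (mem_closure_iff_nhds.1 (by
        have h := NormedField.nhdsNE_neBot w
        exact mem_closure_iff_nhdsWithin_neBot.2 h : w ∈ closure {w}ᶜ)) B hB
      obtain ⟨w', h1, h2⟩ := this
      exact ⟨w', h1, h2⟩
    have hkey : ∀ᶠ y in 𝓝 z, t.g y = s.g y ∧ t.a y = s.a y ∧ t.β y = s.β y := by
      filter_upwards [hA] with y hy
      have e1 : TM t (pt y w) = TM s (pt y w) := hAB (mk_mem_prod hy hwB)
      have e2 : TM t (pt y w') = TM s (pt y w') := hAB (mk_mem_prod hy hw')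
      rw [TM_pt, TM_pt] at e1 e2
      obtain ⟨f1, f2⟩ := pt_inj e1
      obtain ⟨-, f3⟩ := pt_inj e2
      have f4 : (t.a y - s.a y) * (w' - w) = 0 := by linear_combination f3 - f2
      have f5 : t.a y = s.a y := by
        rcases mul_eq_zero.1 f4 with h | h
        · exact sub_eq_zero.1 h
        · exact absurd (sub_eq_zero.1 h) hne
      refine ⟨f1, f5, ?_⟩
      rw [f5] at f2
      exact add_left_cancel f2
    intro y hy
    exact ⟨idt ht.2.2.1.1 hs.2.2.1.1 hz (hkey.mono fun _ h => h.1) hy,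
      idt ht.2.2.1.2.1 hs.2.2.1.2.1 hz (hkey.mono fun _ h => h.2.1) hy,
      idt ht.2.2.1.2.2 hs.2.2.1.2.2 hz (hkey.mono fun _ h => h.2.2) hy⟩

end Pool.Agent.Helper35.SP
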