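import Pool.Agent.Helper10.SP.GoalsT
import Pool.Agent.Helper83.SP.DER
import Pool.Agent.Helper95.Lin.Basics

/-! # The operator `∂̄^* ∂̄` on automorphic functions -/

open Complex Metric Set Filter Topology MeasureTheory
open scoped ContDiff ComplexConjugate ComplexOrder Manifold Matrix

namespace Pool.Agent.Helper35.SP

open Pool.Agent.Helper95.Lin Pool.Agent.Helper16.Abund Pool.Agent.Helper92.Orb
open Pool.Agent.Helper10.SP Pool.Agent.Helper83.SP

universe u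

variable {n : ℕ}

theorem sm_conj {U : Set (Cn n)} {f : Cn n → ℂ} (hf : ContDiffOn ℝ ∞ f U) :
    ContDiffOn ℝ ∞ (fun y => conj (f y)) U := Complex.conjCLE.contDiff.comp_contDiffOn hf

theorem sm_real {U : Set (Cn n)} {f : Cn n → ℝ} (hf : ContDiffOn ℝ ∞ f U) :
    ContDiffOn ℝ ∞ (fun y => (f y : ℂ)) U := Complex.ofRealCLM.contDiff.comp_contDiffOn hf

/-- The Jacobian determinant is holomorphic. -/
theorem det_holo {U : Set (Cn n)} (hU : IsOpen U) {τ : Cn n → Cn n}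
    (hτ : DifferentiableOn ℂ τ U) : DifferentiableOn ℂ (fun y => (fderiv ℂ τ y).det) U := by
  have h1 : ∀ y, (fderiv ℂ τ y).det = ∑ σ : Equiv.Perm (Fin n), Equiv.Perm.sign σ •
      ∏ i, fderiv ℂ τ y (Pi.single i 1) (σ i) := by
    intro y
    rw [ContinuousLinearMap.det, ← LinearMap.det_toMatrix', Matrix.det_apply]
    rfl
  have h2 : DifferentiableOn ℂ (fderiv ℂ τ) U := holo_fderiv hU hτ
  have h3 : ∀ i j, DifferentiableOn ℂ (fun y => fderiv ℂ τ y (Pi.single i 1) j) U := by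
    intro i j y hy
    have h4 := ((h2 y hy).clm_apply (differentiableWithinAt_const (Pi.single i (1 : ℂ))))
    exact (differentiableWithinAt_pi.1 h4) j
  have h5 : (fun y => (fderiv ℂ τ y).det) = fun y => ∑ σ : Equiv.Perm (Fin n),
      Equiv.Perm.sign σ • ∏ i, fderiv ℂ τ y (Pi.single i 1) (σ i) := funext h1
  rw [h5]
  refine DifferentiableOn.fun_sum fun σ _ => ?_
  refine DifferentiableOn.const_smul ?_ _
  intro y hy
  exact (HasFDerivWithinAt.finsetProd (u := Finset.univ)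
    (g := fun (i : Fin n) (y : Cn n) => fderiv ℂ τ y (Pi.single i 1) (σ i))
    fun i _ => (h3 i (σ i) y hy).hasFDerivWithinAt).differentiableWithinAt

theorem fd_holo {U : Set (Cn n)} (hU : IsOpen U) {τ : Cn n → Cn n}
    (hτ : DifferentiableOn ℂ τ U) (i j : Fin n) :
    DifferentiableOn ℂ (fun y => fderiv ℂ τ y (Pi.single i 1) j) U := by
  intro y hy
  have h2 : DifferentiableOn ℂ (fderiv ℂ τ) U := holo_fderiv hU hτ
  have h4 := ((h2 y hy).clm_apply (differentiableWithinAt_const (Pi.single i (1 : ℂ))))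
  exact (differentiableWithinAt_pi.1 h4) j

section box

variable {T : Set (Cn n)} {G : Type u} [Group G] {R : G → Cn n → Cn n → Prop}
  {H : Cn n → Matrix (Fin n) (Fin n) ℂ}

theorem vfld_smooth (hWIRT : S_WIRT) (hDETI : S_DETI.{u}) (hK : KEt T R H) {h : Cn n → ℂ}
    (hh : ContDiffOn ℝ ∞ h T) (k : Fin n) : ContDiffOn ℝ ∞ (fun y => vfld H h y k) T := by
  obtain ⟨-, -, d3, -⟩ := hDETI T R H hK
  unfold vfld
  exact ContDiffOn.sum fun j _ => (d3 j k).mul ((hWIRT T hK.et.isOpen h h hh hh).1 j).2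

/-- The operator in terms of the trace. -/
theorem box_eq (hWIRT : S_WIRT) (hDETI : S_DETI.{u}) (hK : KEt T R H) {W : Cn n → ℝ}
    (hW : ContDiffOn ℝ ∞ W T) {h : Cn n → ℂ} (hh : ContDiffOn ℝ ∞ h T)
    {x : Cn n} (hx : x ∈ T) :
    boxO H W h x = -((W x : ℂ)⁻¹ * (((H x).det.re : ℂ) * ∑ j, ∑ k, (H x)⁻¹ j k *
      cd k (fun y => ((W y / (H y).det.re : ℝ) : ℂ) * cdb j h y) x)) := by
  have hT := hK.et.isOpen
  obtain ⟨d1, d2, d3, d4, d5, d6⟩ := hDETI T R H hK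
  have hω : ContDiffOn ℝ ∞ (fun y => ((W y / (H y).det.re : ℝ) : ℂ)) T :=
    sm_real (hW.div d2 fun y hy => (d1 y hy).2.1.ne')
  have hcb : ∀ j, ContDiffOn ℝ ∞ (cdb j h) T := fun j => ((hWIRT T hT h h hh hh).1 j).2
  have hρK : ∀ j k, ContDiffOn ℝ ∞ (fun y => ((H y).det.re : ℂ) * (H y)⁻¹ j k) T :=
    fun j k => (sm_real d2).mul (d3 j k)
  have hg : ∀ j, ContDiffOn ℝ ∞ (fun y => ((W y / (H y).det.re : ℝ) : ℂ) * cdb j h y) T :=
    fun j => hω.mul (hcb j)
  have h1 : ∀ k, cd k (fun y => (W y : ℂ) * vfld H h y k) x =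
      ∑ j, ((((H x).det.re : ℂ) * (H x)⁻¹ j k) *
        cd k (fun y => ((W y / (H y).det.re : ℝ) : ℂ) * cdb j h y) x +
        (((W x / (H x).det.re : ℝ) : ℂ) * cdb j h x) *
        cd k (fun y => ((H y).det.re : ℂ) * (H y)⁻¹ j k) x) := by
    intro k
    have h2 : ∀ y ∈ T, (W y : ℂ) * vfld H h y k = ∑ j, (((H y).det.re : ℂ) * (H y)⁻¹ j k) *
        (((W y / (H y).det.re : ℝ) : ℂ) * cdb j h y) := by
      intro y hy
      have h3 : (((H y).det.re : ℝ) : ℂ) ≠ 0 := by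
        exact_mod_cast (d1 y hy).2.1.ne'
      unfold vfld
      rw [Finset.mul_sum]
      refine Finset.sum_congr rfl fun j _ => ?_
      push_cast
      field_simp
    rw [(cd_congr hT h2 k hx).1]
    exact (cd_sum_mul hWIRT hT _ _ (fun j => hρK j k) hg k hx).1
  unfold boxO
  rw [Finset.sum_congr rfl fun k _ => h1 k]
  simp only [Finset.sum_add_distrib]
  have h4 : ∑ k, ∑ j, (((W x / (H x).det.re : ℝ) : ℂ) * cdb j h x) *
        cd k (fun y => ((H y).det.re : ℂ) * (H y)⁻¹ j k) x = 0 := by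
    rw [Finset.sum_comm]
    refine Finset.sum_eq_zero fun j _ => ?_
    rw [← Finset.mul_sum, d6 x hx j, mul_zero]
  rw [h4, add_zero]
  congr 2
  rw [Finset.sum_comm, Finset.mul_sum]
  refine Finset.sum_congr rfl fun j _ => ?_
  rw [Finset.mul_sum]
  refine Finset.sum_congr rfl fun k _ => ?_
  ring

theorem arr_mem (hK : KEt T R H) {U : Set (Cn n)} {τ : Cn n → Cn n} (hτ : Arr R U τ) {x : Cn n}
    (hx : x ∈ U) : x ∈ T ∧ τ x ∈ T := by
  obtain ⟨-, -, γ, hγ⟩ := hτ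
  exact hK.et.mem γ x _ (hγ x hx)

theorem arr_det (hDETI : S_DETI.{u}) (hK : KEt T R H) {U : Set (Cn n)} {τ : Cn n → Cn n}
    (hτ : Arr R U τ) {x : Cn n} (hx : x ∈ U) : (fderiv ℂ τ x).det ≠ 0 := by
  intro h0
  obtain ⟨d1, d2, d3, d4, d5, d6⟩ := hDETI T R H hK
  have h1 := (d5 U τ hτ x hx).1
  rw [h0, norm_zero] at h1
  have h2 := (d1 x (arr_mem hK hτ hx).1).2.1
  rw [h1] at h2
  simp at h2

/-- The factor `ω = W / det H`. -/
theorem om_nat (hDETI : S_DETI.{u}) (hK : KEt T R H) {m : ℕ} {W : Cn n → ℝ} (hW : Wt T R m W)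
    {U : Set (Cn n)} {τ : Cn n → Cn n} (hτ : Arr R U τ) {x : Cn n} (hx : x ∈ U) :
    ((W x / (H x).det.re : ℝ) : ℂ) * (fderiv ℂ τ x).det ^ m =
      conj ((fderiv ℂ τ x).det⁻¹ ^ m) * ((W (τ x) / (H (τ x)).det.re : ℝ) : ℂ) := by
  obtain ⟨d1, d2, d3, d4, d5, d6⟩ := hDETI T R H hK
  have hJ := arr_det hDETI hK hτ hx
  have h1 := (d5 U τ hτ x hx).1
  have h2 := hW.inv U τ hτ x hx
  have hmem := arr_mem hK hτ hx
  have hp1 := (d1 x hmem.1).2.1
  have hp2 := (d1 _ hmem.2).2.1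
  set J := (fderiv ℂ τ x).det with hJdef
  have hN : 0 < ‖J‖ := norm_pos_iff.2 hJ
  have h3 : W x / (H x).det.re * ‖J‖ ^ (2 * m) = W (τ x) / (H (τ x)).det.re := by
    rw [div_mul_eq_mul_div, ← h2, h1]
    field_simp
  have h4 : ((‖J‖ ^ (2 * m) : ℝ) : ℂ) = J ^ m * conj J ^ m := by
    rw [← mul_pow, Complex.mul_conj, Complex.normSq_eq_norm_sq]
    push_cast
    rw [pow_mul]
  have h5 : conj J ≠ 0 := (map_ne_zero _).2 hJ
  rw [← h3]
  push_cast at h4 ⊢
  rw [h4, map_pow, map_inv₀]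
  have h6 : ((conj J)⁻¹) ^ m * conj J ^ m = 1 := by
    rw [← mul_pow, inv_mul_cancel₀ h5, one_pow]
  linear_combination (-(W x : ℂ) / ((H x).det.re : ℂ) * J ^ m) * h6

theorem cdb_nat (hWIRT : S_WIRT) (hWCH : S_WCH) (hK : KEt T R H) {m : ℕ} {h : Cn n → ℂ}
    (hh : Sec T R m h) {U : Set (Cn n)} {τ : Cn n → Cn n} (hτ : Arr R U τ) {x : Cn n}
    (hx : x ∈ U) (j : Fin n) :
    cdb j h x = (fderiv ℂ τ x).det ^ m *
      ∑ p, conj (fderiv ℂ τ x (Pi.single j 1) p) * cdb p h (τ x) := by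
  have hU := hτ.1
  have hT := hK.et.isOpen
  have hm : MapsTo τ U T := fun y hy => (arr_mem hK hτ hy).2
  have hJ : DifferentiableOn ℂ (fun y => (fderiv ℂ τ y).det ^ m) U := (det_holo hU hτ.2.1).pow m
  have hJs := holo_contDiffOn_real hU hJ
  have hτs := holo_contDiffOn_real hU hτ.2.1
  have hhs : ContDiffOn ℝ ∞ (h ∘ τ) U := hh.1.comp hτs hm
  have h1 : ∀ y ∈ U, h y = (fderiv ℂ τ y).det ^ m * (h ∘ τ) y := fun y hy => by
    rw [hh.2 U τ hτ y hy, mul_comm]
    rfl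
  rw [(cd_congr hU h1 j hx).2, ((hWIRT U hU _ _ hJs hhs).2.2.1 j x hx).2,
    ((hWIRT U hU _ _ hJs hJs).2.2.2.2.2.2 hJ j x hx), mul_zero, add_zero,
    ((hWCH.1 T U hT hU τ hτ.2.1 hm).1 h hh.1 j x hx).2]

/-- Naturality of the vector field. -/
theorem vfld_nat (hWIRT : S_WIRT) (hWCH : S_WCH) (hDETI : S_DETI.{u}) (hK : KEt T R H) {m : ℕ}
    {h : Cn n → ℂ} (hh : Sec T R m h) {U : Set (Cn n)} {τ : Cn n → Cn n} (hτ : Arr R U τ)
    {x : Cn n} (hx : x ∈ U) :
    fderiv ℂ τ x (vfld H h x) = (fderiv ℂ τ x).det ^ m • vfld H h (τ x) := by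
  obtain ⟨d1, d2, d3, d4, d5, d6⟩ := hDETI T R H hK
  have h1 : vfld H h x = ∑ k, vfld H h x k • (Pi.single k (1 : ℂ) : Cn n) := by
    ext i
    simp [Finset.sum_apply, Pi.single_apply]
  funext l
  rw [h1, map_sum, Finset.sum_apply]
  simp only [map_smul, Pi.smul_apply, smul_eq_mul]
  unfold vfld
  have h2 : ∀ j, cdb j h x = _ := fun j => cdb_nat hWIRT hWCH hK hh hτ hx j
  have h3 : ∀ p, (H (τ x))⁻¹ p l = _ := fun p => (d5 U τ hτ x hx).2 p l
  simp only [h2, h3, Finset.sum_mul, Finset.mul_sum]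
  rw [Finset.sum_comm]
  conv_rhs =>
    rw [Finset.sum_comm]
    enter [2, y]
    rw [Finset.sum_comm]
  refine Finset.sum_congr rfl fun j _ => ?_
  refine Finset.sum_congr rfl fun k _ => ?_
  refine Finset.sum_congr rfl fun p _ => ?_
  ring

/-- Naturality of the operator. -/
theorem box_nat (hWIRT : S_WIRT) (hWCH : S_WCH) (hDETI : S_DETI.{u}) (hK : KEt T R H) {m : ℕ}
    {W : Cn n → ℝ} (hW : Wt T R m W) {h : Cn n → ℂ} (hh : Sec T R m h) {U : Set (Cn n)}
    {τ : Cn n → Cn n} (hτ : Arr R U τ) {x : Cn n} (hx : x ∈ U) :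
    boxO H W h x = boxO H W h (τ x) * (fderiv ℂ τ x).det ^ m := by
  obtain ⟨d1, d2, d3, d4, d5, d6⟩ := hDETI T R H hK
  have hT := hK.et.isOpen
  have hU := hτ.1
  have hmem := arr_mem hK hτ hx
  have hm : MapsTo τ U T := fun y hy => (arr_mem hK hτ hy).2
  have hω : ContDiffOn ℝ ∞ (fun y => ((W y / (H y).det.re : ℝ) : ℂ)) T :=
    sm_real (hW.smooth.div d2 fun y hy => (d1 y hy).2.1.ne')
  have hcb : ∀ j, ContDiffOn ℝ ∞ (cdb j h) T := fun j => ((hWIRT T hT h h hh.1 hh.1).1 j).2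
  have hF : ∀ j, ContDiffOn ℝ ∞ (fun y => ((W y / (H y).det.re : ℝ) : ℂ) * cdb j h y) T :=
    fun j => hω.mul (hcb j)
  have hτs := holo_contDiffOn_real hU hτ.2.1
  have hJ0 : ∀ y ∈ U, (fderiv ℂ τ y).det ≠ 0 := fun y hy => arr_det hDETI hK hτ hy
  -- the antiholomorphic factors
  have ha : ∀ j p, DifferentiableOn ℂ (fun y => (fderiv ℂ τ y).det⁻¹ ^ m *
      fderiv ℂ τ y (Pi.single j 1) p) U := by
    intro j p
    refine DifferentiableOn.mul ?_ (fd_holo hU hτ.2.1 j p)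
    refine DifferentiableOn.pow ?_ m
    intro y hy
    exact (det_holo hU hτ.2.1 y hy).inv (hJ0 y hy)
  have has : ∀ j p, ContDiffOn ℝ ∞ (fun y => conj ((fderiv ℂ τ y).det⁻¹ ^ m *
      fderiv ℂ τ y (Pi.single j 1) p)) U := fun j p => sm_conj (holo_contDiffOn_real hU (ha j p))
  have key : ∀ j k, cd k (fun y => ((W y / (H y).det.re : ℝ) : ℂ) * cdb j h y) x =
      ∑ p, conj ((fderiv ℂ τ x).det⁻¹ ^ m * fderiv ℂ τ x (Pi.single j 1) p) *
        ∑ q, fderiv ℂ τ x (Pi.single k 1) q *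
          cd q (fun y => ((W y / (H y).det.re : ℝ) : ℂ) * cdb p h y) (τ x) := by
    intro j k
    have h1 : ∀ y ∈ U, ((W y / (H y).det.re : ℝ) : ℂ) * cdb j h y =
        ∑ p, conj ((fderiv ℂ τ y).det⁻¹ ^ m * fderiv ℂ τ y (Pi.single j 1) p) *
          ((fun y => ((W y / (H y).det.re : ℝ) : ℂ) * cdb p h y) ∘ τ) y := by
      intro y hy
      rw [cdb_nat hWIRT hWCH hK hh hτ hy j, ← mul_assoc, om_nat hDETI hK hW hτ hy, Finset.mul_sum]
      refine Finset.sum_congr rfl fun p _ => ?_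
      simp only [map_mul, Function.comp_apply]
      ring
    rw [(cd_congr hU h1 k hx).1]
    have h2 := (cd_sum_mul hWIRT hU (fun p y => conj ((fderiv ℂ τ y).det⁻¹ ^ m *
      fderiv ℂ τ y (Pi.single j 1) p)) (fun p => (fun y => ((W y / (H y).det.re : ℝ) : ℂ) *
        cdb p h y) ∘ τ) (has j) (fun p => (hF p).comp hτs hm) k hx).1
    rw [h2]
    refine Finset.sum_congr rfl fun p _ => ?_
    have h3 : cd k (fun y => conj ((fderiv ℂ τ y).det⁻¹ ^ m *
        fderiv ℂ τ y (Pi.single j 1) p)) x = 0 := by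
      have h4 := holo_contDiffOn_real hU (ha j p)
      rw [((hWIRT U hU _ _ h4 h4).2.2.2.1 k x hx).1,
        (hWIRT U hU _ _ h4 h4).2.2.2.2.2.2 (ha j p) k x hx, map_zero]
    rw [h3, mul_zero, add_zero,
      ((hWCH.1 T U hT hU τ hτ.2.1 hm).1 _ (hF p) k x hx).1]
  rw [box_eq hWIRT hDETI hK hW.smooth hh.1 hmem.1, box_eq hWIRT hDETI hK hW.smooth hh.1 hmem.2]
  have h3 : ∀ p q, (H (τ x))⁻¹ p q = _ := fun p q => (d5 U τ hτ x hx).2 p q
  have hsum : ∑ j, ∑ k, (H x)⁻¹ j k *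
      cd k (fun y => ((W y / (H y).det.re : ℝ) : ℂ) * cdb j h y) x =
      conj ((fderiv ℂ τ x).det⁻¹ ^ m) * ∑ p, ∑ q, (H (τ x))⁻¹ p q *
        cd q (fun y => ((W y / (H y).det.re : ℝ) : ℂ) * cdb p h y) (τ x) := by
    simp only [key, h3, Finset.sum_mul, Finset.mul_sum, map_mul]
    -- ∑ j, ∑ k, ∑ p, ∑ q = ∑ p, ∑ q, ∑ j, ∑ k
    have e1 : ∀ F : Fin n → Fin n → Fin n → Fin n → ℂ, ∑ j, ∑ k, ∑ p, ∑ q, F j k p q =
        ∑ p, ∑ q, ∑ j, ∑ k, F j k p q := by
      intro F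
      calc ∑ j, ∑ k, ∑ p, ∑ q, F j k p q = ∑ j, ∑ p, ∑ k, ∑ q, F j k p q :=
            Finset.sum_congr rfl fun j _ => Finset.sum_comm
        _ = ∑ p, ∑ j, ∑ k, ∑ q, F j k p q := Finset.sum_comm
        _ = ∑ p, ∑ j, ∑ q, ∑ k, F j k p q := Finset.sum_congr rfl fun p _ =>
            Finset.sum_congr rfl fun j _ => Finset.sum_comm
        _ = ∑ p, ∑ q, ∑ j, ∑ k, F j k p q := Finset.sum_congr rfl fun p _ => Finset.sum_comm
    rw [e1]
    refine Finset.sum_congr rfl fun p _ => ?_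
    refine Finset.sum_congr rfl fun q _ => ?_
    refine Finset.sum_congr rfl fun j _ => ?_
    refine Finset.sum_congr rfl fun k _ => ?_
    ring
  rw [hsum]
  have hom := om_nat hDETI hK hW hτ hx
  have hp1 := (d1 x hmem.1).2.1
  have hp2 := (d1 _ hmem.2).2.1
  have hw1 := hW.pos x hmem.1
  have hw2 := hW.pos _ hmem.2
  have hwc1 : (W x : ℂ) ≠ 0 := by exact_mod_cast hw1.ne'
  have hwc2 : (W (τ x) : ℂ) ≠ 0 := by exact_mod_cast hw2.ne'
  have hpc1 : (((H x).det.re : ℝ) : ℂ) ≠ 0 := by exact_mod_cast hp1.ne'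
  have hpc2 : (((H (τ x)).det.re : ℝ) : ℂ) ≠ 0 := by exact_mod_cast hp2.ne'
  have h4 : (W x : ℂ)⁻¹ * ((H x).det.re : ℂ) * conj ((fderiv ℂ τ x).det⁻¹ ^ m) =
      (W (τ x) : ℂ)⁻¹ * ((H (τ x)).det.re : ℂ) * (fderiv ℂ τ x).det ^ m := by
    push_cast at hom
    field_simp at hom ⊢
    linear_combination -hom
  linear_combination (-(∑ p, ∑ q, (H (τ x))⁻¹ p q *
        cd q (fun y => ((W y / (H y).det.re : ℝ) : ℂ) * cdb p h y) (τ x))) * h4

theorem box_smooth (hWIRT : S_WIRT) (hDETI : S_DETI.{u}) (hK : KEt T R H) {m : ℕ} {W : Cn n → ℝ}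
    (hW : Wt T R m W) {h : Cn n → ℂ} (hh : ContDiffOn ℝ ∞ h T) :
    ContDiffOn ℝ ∞ (boxO H W h) T := by
  have hT := hK.et.isOpen
  have hWs := sm_real hW.smooth
  unfold boxO
  refine ContDiffOn.neg (ContDiffOn.mul (hWs.inv fun y hy => ?_) (ContDiffOn.sum fun k _ => ?_))
  · exact_mod_cast (hW.pos y hy).ne'
  · have h1 := hWs.mul (vfld_smooth hWIRT hDETI hK hh k)
    exact ((hWIRT T hT _ _ h1 h1).1 k).1

theorem dbp_eq (H : Cn n → Matrix (Fin n) (Fin n) ℂ) (s t : Cn n → ℂ) (x : Cn n) :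
    dbp H s t x = ∑ k, vfld H s x k * conj (cdb k t x) := by
  unfold dbp vfld
  rw [Finset.sum_comm]
  refine Finset.sum_congr rfl fun k _ => ?_
  rw [Finset.sum_mul]

theorem dbp_conj (hDETI : S_DETI.{u}) (hK : KEt T R H) (s t : Cn n → ℂ) {x : Cn n} (hx : x ∈ T) :
    conj (dbp H t s x) = dbp H s t x := by
  obtain ⟨d1, -⟩ := hDETI T R H hK
  have hH := (d1 x hx).2.2.1.1
  unfold dbp
  rw [map_sum, Finset.sum_comm]
  refine Finset.sum_congr rfl fun k _ => ?_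
  rw [map_sum]
  refine Finset.sum_congr rfl fun j _ => ?_
  have h1 : conj ((H x)⁻¹ k j) = (H x)⁻¹ j k := by
    have := hH.apply j k
    rw [← this]
    rfl
  rw [map_mul, map_mul, h1, Complex.conj_conj]
  ring

/-- Integrability against a test function. -/
theorem int_test {κ : Cn n → ℝ} (hT : IsOpen T) (hκ : TestF T κ) {F : Cn n → ℂ}
    (hF : ContinuousOn F T) : IntegrableOn (fun x => (κ x : ℂ) * F x) T := by
  obtain ⟨h1, h2, h3⟩ := hκ
  have h4 : IntegrableOn (fun x => (κ x : ℂ) * F x) (tsupport κ) := by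
    refine ContinuousOn.integrableOn_compact h2 ?_
    refine ContinuousOn.mul ?_ (hF.mono h3)
    exact (Complex.continuous_ofReal.comp h1.continuous).continuousOn
  refine h4.of_forall_sdiff_eq_zero hT.measurableSet ?_
  intro x hx
  have : κ x = 0 := image_eq_zero_of_notMem_tsupport hx.2
  simp [this]

theorem boxip (hWIRT : S_WIRT) (hWCH : S_WCH) (hDETI : S_DETI.{u}) (hDIVC : S_DIVC.{u})
    (hK : KEt T R H) {κ : Cn n → ℝ} (hκ : IsPUE T R κ) {m : ℕ} {W : Cn n → ℝ} (hW : Wt T R m W)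
    {s t : Cn n → ℂ} (hs : Sec T R m s) (ht : Sec T R m t) :
    ipE T κ W (boxO H W s) t = dipE T κ W H s t := by
  have hT := hK.et.isOpen
  have hWs := sm_real hW.smooth
  have hv : ∀ k, ContDiffOn ℝ ∞ (fun y => vfld H s y k) T := vfld_smooth hWIRT hDETI hK hs.1
  have hct := sm_conj ht.1
  have hY : ContDiffOn ℝ ∞ (fun y => fun k => conj (t y) * ((W y : ℂ) * vfld H s y k)) T :=
    contDiffOn_pi.2 fun k => hct.mul (hWs.mul (hv k))
  have hdiv := hDIVC T R H hK κ hκ (fun y => fun k => conj (t y) * ((W y : ℂ) * vfld H s y k)) hY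
    (by
      intro U τ hτ x hx
      have e1 : (fun k => conj (t x) * ((W x : ℂ) * vfld H s x k)) =
          (conj (t x) * (W x : ℂ)) • vfld H s x := by
        funext k
        simp only [Pi.smul_apply, smul_eq_mul]
        ring
      rw [e1, map_smul, vfld_nat hWIRT hWCH hDETI hK hs hτ hx]
      funext k
      simp only [Pi.smul_apply, smul_eq_mul]
      have h2 := hW.inv U τ hτ x hx
      have h4 : (((‖(fderiv ℂ τ x).det‖ ^ (2 * m) : ℝ)) : ℂ) =
          (fderiv ℂ τ x).det ^ m * conj (fderiv ℂ τ x).det ^ m := by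
        rw [← mul_pow, Complex.mul_conj, Complex.normSq_eq_norm_sq]
        push_cast
        rw [pow_mul]
      have h5 : ((W (τ x) : ℝ) : ℂ) * ((‖(fderiv ℂ τ x).det‖ ^ 2 : ℝ) : ℂ) =
          (W x : ℂ) * ((fderiv ℂ τ x).det ^ m * conj (fderiv ℂ τ x).det ^ m) := by
        rw [← h4]
        exact_mod_cast h2
      have h6 : conj (t x) = conj (t (τ x)) * conj (fderiv ℂ τ x).det ^ m := by
        rw [ht.2 U τ hτ x hx, map_mul, map_pow]
      rw [h6]
      linear_combination (-(conj (t (τ x)) * vfld H s (τ x) k)) * h5)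
  have hpt : ∀ x ∈ T, ∑ k, cd k (fun y => conj (t y) * ((W y : ℂ) * vfld H s y k)) x =
      (W x : ℂ) * dbp H s t x - (W x : ℂ) * (boxO H W s x * conj (t x)) := by
    intro x hx
    have h1 : ∀ k, cd k (fun y => conj (t y) * ((W y : ℂ) * vfld H s y k)) x =
        conj (t x) * cd k (fun y => (W y : ℂ) * vfld H s y k) x +
        ((W x : ℂ) * vfld H s x k) * conj (cdb k t x) := by
      intro k
      rw [((hWIRT T hT _ _ hct (hWs.mul (hv k))).2.2.1 k x hx).1,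
        ((hWIRT T hT t t ht.1 ht.1).2.2.2.1 k x hx).1]
    rw [Finset.sum_congr rfl fun k _ => h1 k, Finset.sum_add_distrib, ← Finset.mul_sum, dbp_eq]
    have hw : (W x : ℂ) ≠ 0 := by exact_mod_cast (hW.pos x hx).ne'
    have h2 : (W x : ℂ) * boxO H W s x = -∑ k, cd k (fun y => (W y : ℂ) * vfld H s y k) x := by
      unfold boxO
      field_simp
    have h3 : ∑ k, (W x : ℂ) * vfld H s x k * conj (cdb k t x) =
        (W x : ℂ) * ∑ k, vfld H s x k * conj (cdb k t x) := by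
      rw [Finset.mul_sum]
      exact Finset.sum_congr rfl fun k _ => by ring
    rw [h3]
    linear_combination (conj (t x)) * h2
  have hbs := box_smooth hWIRT hDETI hK hW hs.1
  have i1 : IntegrableOn (fun x => (κ x : ℂ) * ((W x : ℂ) * dbp H s t x)) T := by
    refine int_test hT hκ.test (hWs.continuousOn.mul ?_)
    have : dbp H s t = fun x => ∑ k, vfld H s x k * conj (cdb k t x) :=
      funext fun x => dbp_eq H s t x
    rw [this]
    exact continuousOn_finsetSum _ fun k _ => (hv k).continuousOn.mul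
      (sm_conj ((hWIRT T hT t t ht.1 ht.1).1 k).2).continuousOn
  have i2 : IntegrableOn (fun x => (κ x : ℂ) * ((W x : ℂ) * (boxO H W s x * conj (t x)))) T :=
    int_test hT hκ.test (hWs.continuousOn.mul (hbs.continuousOn.mul hct.continuousOn))
  have h1 : ∫ x in T, (κ x : ℂ) * ∑ k, cd k (fun y => conj (t y) * ((W y : ℂ) * vfld H s y k)) x =
      (∫ x in T, (κ x : ℂ) * ((W x : ℂ) * dbp H s t x)) -
        ∫ x in T, (κ x : ℂ) * ((W x : ℂ) * (boxO H W s x * conj (t x))) := by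
    rw [← integral_sub i1 i2]
    refine setIntegral_congr_fun hT.measurableSet fun x hx => ?_
    simp only [hpt x hx]
    ring
  rw [h1] at hdiv
  have h2 : ipE T κ W (boxO H W s) t =
      ∫ x in T, (κ x : ℂ) * ((W x : ℂ) * (boxO H W s x * conj (t x))) := by
    unfold ipE
    congr 1
    funext x
    push_cast
    ring
  have h3 : dipE T κ W H s t = ∫ x in T, (κ x : ℂ) * ((W x : ℂ) * dbp H s t x) := by
    unfold dipE
    congr 1
    funext x
    push_cast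
    ring
  rw [h2, h3]
  exact (sub_eq_zero.1 hdiv).symm

/-- BOX. -/
theorem box (hWIRT : S_WIRT) (hWCH : S_WCH) (hDETI : S_DETI.{u}) (hDIVC : S_DIVC.{u}) :
    S_BOX.{u} := by
  intro n T G _ R H hK κ hκ m W hW s t hs ht
  have hT := hK.et.isOpen
  refine ⟨⟨box_smooth hWIRT hDETI hK hW hs.1, fun U τ hτ x hx =>
    box_nat hWIRT hWCH hDETI hK hW hs hτ hx⟩, boxip hWIRT hWCH hDETI hDIVC hK hκ hW hs ht, ?_⟩
  have h1 := boxip hWIRT hWCH hDETI hDIVC hK hκ hW ht hs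
  have h2 : ipE T κ W s (boxO H W t) = conj (ipE T κ W (boxO H W t) s) := by
    unfold ipE
    rw [← integral_conj]
    refine setIntegral_congr_fun hT.measurableSet fun x hx => ?_
    simp only [map_mul, Complex.conj_ofReal, Complex.conj_conj]
    ring
  have h3 : dipE T κ W H s t = conj (dipE T κ W H t s) := by
    unfold dipE
    rw [← integral_conj]
    refine setIntegral_congr_fun hT.measurableSet fun x hx => ?_
    simp only [map_mul, Complex.conj_ofReal, dbp_conj hDETI hK s t hx]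
  rw [h2, h1, h3]

end box

end Pool.Agent.Helper35.SP
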