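import Pool.Agent.Helper10.SP.GoalsK
import Pool.Agent.Helper8.SP.AMAX
import Pool.Agent.Helper86.SP.ACB
import Pool.Agent.Helper59.SP.WCH
import Pool.Agent.Helper95.Lin.Basics

/-! # The singular weights -/

open Complex Metric Set Filter Topology MeasureTheory
open scoped ContDiff ComplexConjugate ComplexOrder Manifold Matrix

namespace Pool.Agent.Helper35.SP

open Pool.Agent.Helper95.Lin Pool.Agent.Helper16.Abund Pool.Agent.Helper92.Orb
open Pool.Agent.Helper10.SP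

section calculus

variable {n : ℕ}

open Pool.Agent.Helper86.SP in
theorem hess_mul {W : Set (Cn n)} (hW : IsOpen W) {f g : Cn n → ℝ} (hf : ContDiffOn ℝ ∞ f W)
    (hg : ContDiffOn ℝ ∞ g W) {x : Cn n} (hx : x ∈ W) (u v : Cn n) :
    hess (fun y => f y * g y) x u v = f x * hess g x u v + g x * hess f x u v +
      (fderiv ℝ f x u * fderiv ℝ g x v + fderiv ℝ f x v * fderiv ℝ g x u) := by
  unfold hess
  have h1 : (fun y => fderiv ℝ (fun y => f y * g y) y v) =ᶠ[𝓝 x]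
      fun y => f y * fderiv ℝ g y v + g y * fderiv ℝ f y v := by
    filter_upwards [hW.mem_nhds hx] with y hy
    rw [fderiv_fun_mul (diff_at hW hf hy) (diff_at hW hg hy)]
    rfl
  have d1 := (diff_at hW hf hx).hasFDerivAt
  have d2 := (diff_at hW hg hx).hasFDerivAt
  have d3 := (diff2_at hW hf hx v).hasFDerivAt
  have d4 := (diff2_at hW hg hx v).hasFDerivAt
  have h4 := ((d1.mul d4).add (d2.mul d3)).fderiv
  have h5 : fderiv ℝ (fun y => f y * fderiv ℝ g y v + g y * fderiv ℝ f y v) x u = _ :=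
    congrArg (fun L : Cn n →L[ℝ] ℝ => L u) h4
  rw [h1.fderiv_eq, h5]
  simp only [add_apply, smul_apply, smul_eq_mul]
  ring

theorem lev_mul {W : Set (Cn n)} (hW : IsOpen W) {f g : Cn n → ℝ} (hf : ContDiffOn ℝ ∞ f W)
    (hg : ContDiffOn ℝ ∞ g W) {x : Cn n} (hx : x ∈ W) (e : Cn n) :
    lev (fun y => f y * g y) x e = f x * lev g x e + g x * lev f x e +
      2 * (fderiv ℝ f x e * fderiv ℝ g x e + fderiv ℝ f x (I • e) * fderiv ℝ g x (I • e)) := by
  unfold lev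
  rw [hess_mul hW hf hg hx, hess_mul hW hf hg hx]
  ring

theorem lev_const' (a : ℝ) (x e : Cn n) : lev (fun _ => a) x e = 0 := by
  unfold lev hess
  simp

theorem lev_sum {ι : Type*} (s : Finset ι) {W : Set (Cn n)} (hW : IsOpen W) {f : ι → Cn n → ℝ}
    (hf : ∀ i ∈ s, ContDiffOn ℝ ∞ (f i) W) {x : Cn n} (hx : x ∈ W) (e : Cn n) :
    lev (fun y => ∑ i ∈ s, f i y) x e = ∑ i ∈ s, lev (f i) x e := by
  classical
  induction s using Finset.induction_on with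
  | empty => simpa using lev_const' 0 x e
  | insert a s ha ih =>
    simp only [Finset.sum_insert ha]
    rw [Pool.Agent.Helper86.SP.lev_add hW (hf a (Finset.mem_insert_self a s))
      (ContDiffOn.sum fun j hj => hf j (Finset.mem_insert_of_mem hj)) hx,
      ih fun i hi => hf i (Finset.mem_insert_of_mem hi)]

/-- Real and imaginary parts of the coordinates. -/
noncomputable def cre (j : Fin n) : Cn n →L[ℝ] ℝ := Complex.reCLM.comp (ContinuousLinearMap.proj j)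

/-- Real and imaginary parts of the coordinates. -/
noncomputable def cim (j : Fin n) : Cn n →L[ℝ] ℝ := Complex.imCLM.comp (ContinuousLinearMap.proj j)

/-- The real scalar product. -/
noncomputable def bl (w : Cn n) : Cn n →L[ℝ] ℝ := ∑ j, (cre j w • cre j + cim j w • cim j)

theorem bl_apply (w v : Cn n) : bl w v = ∑ j, ((w j).re * (v j).re + (w j).im * (v j).im) := by
  simp only [bl, FunLike.coe_sum, Finset.sum_apply, add_apply, smul_apply,
    smul_eq_mul]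
  rfl

theorem bl_self (w : Cn n) : bl w w = ∑ j, ‖w j‖ ^ 2 := by
  rw [bl_apply]
  refine Finset.sum_congr rfl fun j _ => ?_
  rw [Complex.sq_norm, Complex.normSq_apply]

theorem bl_I (w : Cn n) : bl (I • w) (I • w) = bl w w := by
  rw [bl_self, bl_self]
  simp

theorem bl_re (w v : Cn n) : bl w v = (∑ j, conj (w j) * v j).re := by
  rw [bl_apply, Complex.re_sum]
  refine Finset.sum_congr rfl fun j _ => ?_
  simp

theorem bl_im (w v : Cn n) : bl w (I • v) = -(∑ j, conj (w j) * v j).im := by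
  rw [bl_apply, Complex.im_sum, ← Finset.sum_neg_distrib]
  refine Finset.sum_congr rfl fun j _ => ?_
  simp
  ring

theorem bl_cs (w v : Cn n) : bl w v ^ 2 + bl w (I • v) ^ 2 ≤ bl w w * bl v v := by
  rw [bl_re w v, bl_im, neg_sq]
  have h1 : (∑ j, conj (w j) * v j).re ^ 2 + (∑ j, conj (w j) * v j).im ^ 2 =
      ‖∑ j, conj (w j) * v j‖ ^ 2 := by
    rw [Complex.sq_norm, Complex.normSq_apply]
    ring
  rw [h1, bl_self, bl_self]
  calc ‖∑ j, conj (w j) * v j‖ ^ 2 ≤ (∑ j, ‖w j‖ * ‖v j‖) ^ 2 := by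
        gcongr
        refine (norm_sum_le _ _).trans (Finset.sum_le_sum fun j _ => ?_)
        rw [norm_mul, RCLike.norm_conj]
    _ ≤ (∑ j, ‖w j‖ ^ 2) * ∑ j, ‖v j‖ ^ 2 := Finset.sum_mul_sq_le_sq_mul_sq _ _ _

theorem bl_nonneg (w : Cn n) : 0 ≤ bl w w := by
  rw [bl_self]
  positivity

theorem norm_sq_le_bl (w : Cn n) : ‖w‖ ^ 2 ≤ bl w w := by
  rw [bl_self]
  have h1 : ‖w‖ ≤ Real.sqrt (∑ j, ‖w j‖ ^ 2) := by
    refine (pi_norm_le_iff_of_nonneg (Real.sqrt_nonneg _)).2 fun j => ?_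
    refine Real.le_sqrt_of_sq_le ?_
    exact Finset.single_le_sum (f := fun j => ‖w j‖ ^ 2) (fun j _ => by positivity)
      (Finset.mem_univ j)
  calc ‖w‖ ^ 2 ≤ Real.sqrt (∑ j, ‖w j‖ ^ 2) ^ 2 := by gcongr
    _ = ∑ j, ‖w j‖ ^ 2 := Real.sq_sqrt (by positivity)

theorem bl_le (w : Cn n) : bl w w ≤ n * ‖w‖ ^ 2 := by
  rw [bl_self]
  calc ∑ j, ‖w j‖ ^ 2 ≤ ∑ _j : Fin n, ‖w‖ ^ 2 := by
        refine Finset.sum_le_sum fun j _ => ?_
        gcongr
        exact norm_le_pi_norm w j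
    _ = n * ‖w‖ ^ 2 := by simp

theorem bl_abs (w v : Cn n) : |bl w v| ≤ n * (‖w‖ * ‖v‖) := by
  rw [bl_re]
  refine (Complex.abs_re_le_norm _).trans ?_
  calc ‖∑ j, conj (w j) * v j‖ ≤ ∑ j : Fin n, ‖w‖ * ‖v‖ := by
        refine (norm_sum_le _ _).trans (Finset.sum_le_sum fun j _ => ?_)
        rw [norm_mul, RCLike.norm_conj]
        gcongr
        · exact norm_le_pi_norm w j
        · exact norm_le_pi_norm v j
    _ = n * (‖w‖ * ‖v‖) := by simp

theorem bl_hasFDerivAt (z₀ y v : Cn n) : HasFDerivAt (fun y => bl (y - z₀) v) (bl v) y := by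
  have h1 : (fun y => bl (y - z₀) v) = fun y => bl v (y - z₀) := by
    funext y
    rw [bl_apply, bl_apply]
    refine Finset.sum_congr rfl fun j _ => by ring
  rw [h1]
  exact ((bl v).hasFDerivAt (x := y - z₀)).comp y ((hasFDerivAt_id y).sub_const z₀)

theorem bl_sq_hasFDerivAt (z₀ y : Cn n) :
    HasFDerivAt (fun y => bl (y - z₀) (y - z₀)) ((2 : ℝ) • bl (y - z₀)) y := by
  have h1 : (fun y => bl (y - z₀) (y - z₀)) = fun y =>
      ∑ j, (cre j (y - z₀) * cre j (y - z₀) + cim j (y - z₀) * cim j (y - z₀)) := by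
    funext y
    rw [bl_apply]
    rfl
  have hre : ∀ j, HasFDerivAt (fun y => cre j (y - z₀)) (cre j) y := by
    intro j
    have h3 := ((cre j).hasFDerivAt (x := y - z₀)).comp y ((hasFDerivAt_id y).sub_const z₀)
    rw [ContinuousLinearMap.comp_id] at h3
    exact h3
  have him : ∀ j, HasFDerivAt (fun y => cim j (y - z₀)) (cim j) y := by
    intro j
    have h3 := ((cim j).hasFDerivAt (x := y - z₀)).comp y ((hasFDerivAt_id y).sub_const z₀)
    rw [ContinuousLinearMap.comp_id] at h3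
    exact h3
  have h2 : HasFDerivAt (fun y => ∑ j, (cre j (y - z₀) * cre j (y - z₀) +
      cim j (y - z₀) * cim j (y - z₀))) (∑ j, ((cre j (y - z₀) • cre j + cre j (y - z₀) • cre j) +
        (cim j (y - z₀) • cim j + cim j (y - z₀) • cim j))) y :=
    HasFDerivAt.fun_sum fun j _ => ((hre j).mul (hre j)).add ((him j).mul (him j))
  rw [h1]
  refine h2.congr_fderiv ?_
  rw [bl, Finset.smul_sum]
  refine Finset.sum_congr rfl fun j _ => ?_
  module

/-- The function `log (|y - z₀|² + ε²)`. -/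
noncomputable def Lg (z₀ : Cn n) (ε : ℝ) (y : Cn n) : ℝ :=
  Real.log (bl (y - z₀) (y - z₀) + ε ^ 2)

variable {z₀ : Cn n} {ε : ℝ}

theorem Lg_pos (hε : 0 < ε) (y : Cn n) : 0 < bl (y - z₀) (y - z₀) + ε ^ 2 := by
  have := bl_nonneg (y - z₀)
  positivity

theorem Lg_deriv (hε : 0 < ε) (y : Cn n) : HasFDerivAt (Lg z₀ ε)
    ((bl (y - z₀) (y - z₀) + ε ^ 2)⁻¹ • ((2 : ℝ) • bl (y - z₀))) y :=
  ((bl_sq_hasFDerivAt z₀ y).add_const (ε ^ 2)).log (Lg_pos hε y).ne'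

theorem Lg_smooth (hε : 0 < ε) : ContDiff ℝ ∞ (Lg z₀ ε) := by
  unfold Lg
  have h1 : (fun y => bl (y - z₀) (y - z₀)) = fun y =>
      ∑ j, (cre j (y - z₀) * cre j (y - z₀) + cim j (y - z₀) * cim j (y - z₀)) := by
    funext y
    rw [bl_apply]
    rfl
  have h2 : ContDiff ℝ ∞ (fun y : Cn n => bl (y - z₀) (y - z₀)) := by
    rw [h1]
    have hs : ContDiff ℝ ∞ fun y : Cn n => y - z₀ := contDiff_id.sub contDiff_const
    exact ContDiff.sum fun j _ => (((cre j).contDiff.comp hs).mul ((cre j).contDiff.comp hs)).add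
      (((cim j).contDiff.comp hs).mul ((cim j).contDiff.comp hs))
  exact (h2.add contDiff_const).log fun y => (Lg_pos hε y).ne'

theorem Lg_lev (hε : 0 < ε) (y e : Cn n) : 0 ≤ lev (Lg z₀ ε) y e := by
  have hh : ∀ u v : Cn n, hess (Lg z₀ ε) y u v =
      2 * bl v u / (bl (y - z₀) (y - z₀) + ε ^ 2) -
      4 * (bl (y - z₀) u * bl (y - z₀) v) / (bl (y - z₀) (y - z₀) + ε ^ 2) ^ 2 := by
    intro u v
    unfold hess
    have h1 : (fun y => fderiv ℝ (Lg z₀ ε) y v) = fun y =>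
        (bl (y - z₀) (y - z₀) + ε ^ 2)⁻¹ * (2 * bl (y - z₀) v) := by
      funext y
      rw [(Lg_deriv hε y).fderiv]
      rfl
    have hne := (Lg_pos (z₀ := z₀) hε y).ne'
    have h2 : HasFDerivAt (fun y => (bl (y - z₀) (y - z₀) + ε ^ 2)⁻¹)
        (-((bl (y - z₀) (y - z₀) + ε ^ 2) ^ 2)⁻¹ • ((2 : ℝ) • bl (y - z₀))) y :=
      (hasDerivAt_inv hne).comp_hasFDerivAt y ((bl_sq_hasFDerivAt z₀ y).add_const (ε ^ 2))
    have h3 := h2.mul ((bl_hasFDerivAt z₀ y v).const_mul 2)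
    rw [h1]
    have h4 := h3.fderiv
    have h5 : fderiv ℝ (fun y => (bl (y - z₀) (y - z₀) + ε ^ 2)⁻¹ * (2 * bl (y - z₀) v)) y u = _ :=
      congrArg (fun L : Cn n →L[ℝ] ℝ => L u) h4
    rw [h5]
    simp only [add_apply, smul_apply, smul_eq_mul]
    field_simp
    ring
  unfold lev
  rw [hh, hh, bl_I]
  have hpos := Lg_pos (z₀ := z₀) hε y
  have hcs := bl_cs (y - z₀) e
  have hee := bl_nonneg e
  have hww := bl_nonneg (y - z₀)
  set f := bl (y - z₀) (y - z₀) + ε ^ 2 with hf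
  have h6 : 2 * bl e e / f - 4 * (bl (y - z₀) e * bl (y - z₀) e) / f ^ 2 +
      (2 * bl e e / f - 4 * (bl (y - z₀) (I • e) * bl (y - z₀) (I • e)) / f ^ 2) =
      4 * (f * bl e e - (bl (y - z₀) e ^ 2 + bl (y - z₀) (I • e) ^ 2)) / f ^ 2 := by
    field_simp
    ring
  rw [h6]
  have h7 : bl (y - z₀) e ^ 2 + bl (y - z₀) (I • e) ^ 2 ≤ f * bl e e := by
    refine hcs.trans ?_
    refine mul_le_mul_of_nonneg_right ?_ hee
    rw [hf]
    have : 0 ≤ ε ^ 2 := by positivity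
    linarith
  have h8 : 0 ≤ f * bl e e - (bl (y - z₀) e ^ 2 + bl (y - z₀) (I • e) ^ 2) := by linarith
  positivity

theorem lev_smul {f : Cn n → ℝ} (hf : ContDiff ℝ ∞ f) (a : ℝ) (x e : Cn n) :
    lev (fun y => a * f y) x e = a * lev f x e := by
  have h1 := lev_mul (f := fun _ => a) (g := f) isOpen_univ contDiffOn_const hf.contDiffOn
    (mem_univ x) e
  rw [h1, lev_const']
  simp

theorem hess_bdd {χ : Cn n → ℝ} (hχ : ContDiff ℝ ∞ χ) {K : Set (Cn n)} (hK : IsCompact K) :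
    ∃ B : ℝ, 0 ≤ B ∧ ∀ y ∈ K, ∀ u, |fderiv ℝ χ y u| ≤ B * ‖u‖ ∧ |lev χ y u| ≤ B * ‖u‖ ^ 2 := by
  have c1 : ContDiff ℝ ∞ (fderiv ℝ χ) := hχ.fderiv_right (by norm_num)
  have c2 : ContDiff ℝ ∞ (fderiv ℝ (fderiv ℝ χ)) := c1.fderiv_right (by norm_num)
  obtain ⟨B₁, hB₁⟩ := hK.exists_bound_of_continuousOn c1.continuous.continuousOn
  obtain ⟨B₂, hB₂⟩ := hK.exists_bound_of_continuousOn (E := Cn n →L[ℝ] Cn n →L[ℝ] ℝ)
    c2.continuous.continuousOn
  have hh : ∀ y ∈ K, ∀ u, |hess χ y u u| ≤ B₂ * ‖u‖ ^ 2 := by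
    intro y hy u
    have h1 : DifferentiableAt ℝ (fderiv ℝ χ) y := (c1.differentiable (by norm_num)) y
    have h2 : hess χ y u u = fderiv ℝ (fderiv ℝ χ) y u u := by
      unfold hess
      have h3 := h1.hasFDerivAt.clm_apply (hasFDerivAt_const u y)
      rw [h3.fderiv]
      simp
    rw [h2, ← Real.norm_eq_abs]
    calc ‖fderiv ℝ (fderiv ℝ χ) y u u‖ ≤ ‖fderiv ℝ (fderiv ℝ χ) y u‖ * ‖u‖ :=
          ContinuousLinearMap.le_opNorm _ _
      _ ≤ (‖fderiv ℝ (fderiv ℝ χ) y‖ * ‖u‖) * ‖u‖ := by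
          gcongr
          exact ContinuousLinearMap.le_opNorm _ _
      _ ≤ (B₂ * ‖u‖) * ‖u‖ := by
          gcongr
          exact hB₂ y hy
      _ = B₂ * ‖u‖ ^ 2 := by ring
  refine ⟨|B₁| + 2 * |B₂|, by positivity, fun y hy u => ⟨?_, ?_⟩⟩
  · rw [← Real.norm_eq_abs]
    calc ‖fderiv ℝ χ y u‖ ≤ ‖fderiv ℝ χ y‖ * ‖u‖ := ContinuousLinearMap.le_opNorm _ _
      _ ≤ (|B₁| + 2 * |B₂|) * ‖u‖ := by
          gcongr
          have := hB₁ y hy
          have h2 := le_abs_self B₁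
          have h3 := abs_nonneg B₂
          linarith
  · unfold lev
    have h1 := hh y hy u
    have h2 := hh y hy (I • u)
    have h3 : ‖I • u‖ = ‖u‖ := by rw [norm_smul, Complex.norm_I, one_mul]
    rw [h3] at h2
    have h4 := abs_add_le (hess χ y u u) (hess χ y (I • u) (I • u))
    have h5 : B₂ * ‖u‖ ^ 2 ≤ |B₂| * ‖u‖ ^ 2 := by
      gcongr
      exact le_abs_self B₂
    have h6 : 0 ≤ |B₁| * ‖u‖ ^ 2 := by positivity
    nlinarith

/-- Bounds for the logarithm. -/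
theorem Lg_le (hε : 0 < ε) (hε' : ε ≤ 1 / 2) {r₀ : ℝ} (hsm : n * r₀ ^ 2 ≤ 1 / 2) {y : Cn n}
    (hy : y ∈ closedBall z₀ r₀) : Lg z₀ ε y ≤ 0 := by
  refine Real.log_nonpos (Lg_pos hε y).le ?_
  have h1 := bl_le (y - z₀)
  have h2 : ‖y - z₀‖ ≤ r₀ := by rwa [mem_closedBall, dist_eq_norm] at hy
  have h3 : (n : ℝ) * ‖y - z₀‖ ^ 2 ≤ n * r₀ ^ 2 := by gcongr
  have h4 : ε ^ 2 ≤ (1 / 2) ^ 2 := by gcongr
  norm_num at h4
  linarith

theorem le_Lg {r : ℝ} (hr : 0 < r) {y : Cn n} (hy : r ≤ ‖y - z₀‖) :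
    Real.log (r ^ 2) ≤ Lg z₀ ε y := by
  refine Real.log_le_log (by positivity) ?_
  have h1 := norm_sq_le_bl (y - z₀)
  have h2 : r ^ 2 ≤ ‖y - z₀‖ ^ 2 := by gcongr
  have h3 : 0 ≤ ε ^ 2 := by positivity
  linarith

theorem core_lev (hLMF : S_LMF) {W : Set (Cn n)} (hW : IsOpen W) {Φ : Cn n → ℝ}
    (hΦ : ContDiffOn ℝ ∞ Φ W) (hpos : ∀ z ∈ W, ∀ e, e ≠ 0 → 0 < lev Φ z e) {χ : Cn n → ℝ}
    (hχ : ContDiff ℝ ∞ χ) {r₀ r₁ : ℝ} (h1 : 0 < r₁) (h0 : 0 ≤ r₀) (hsub : closedBall z₀ r₀ ⊆ W)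
    (hsm : n * r₀ ^ 2 ≤ 1 / 2) (range : ∀ z, 0 ≤ χ z ∧ χ z ≤ 1)
    (supp : ∀ z, z ∉ closedBall z₀ r₀ → χ z = 0) (one : ∀ z ∈ ball z₀ r₁, χ z = 1) {a : ℝ}
    (ha : 0 ≤ a) : ∃ K₃ : ℝ, 0 ≤ K₃ ∧ ∀ ε, 0 < ε → ε ≤ 1 / 2 → ∀ y ∈ W, ∀ v,
      -(K₃ * lev Φ y v) ≤ lev (fun y => χ y * (a * Lg z₀ ε y)) y v := by
  obtain ⟨c₀, _, hc₀, -, hcc⟩ := Pool.Agent.Helper86.SP.lev_bd hLMF hW
    (isCompact_closedBall z₀ r₀) hsub hΦ hpos
  obtain ⟨B, hB, hBB⟩ := hess_bdd hχ (isCompact_closedBall z₀ r₀)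
  have hΦ0 : ∀ y ∈ W, ∀ v, 0 ≤ lev Φ y v := by
    intro y hy v
    by_cases hv : v = 0
    · subst hv
      unfold lev hess
      simp
    · exact (hpos y hy v hv).le
  set K₀ : ℝ := a * |Real.log (r₁ ^ 2)| * B + 4 * (B * (a * ((r₁ ^ 2)⁻¹ * (2 * (n * r₀)))))
    with hK₀
  have hK₀0 : 0 ≤ K₀ := by positivity
  refine ⟨K₀ / c₀, by positivity, fun ε hε hε' y hy v => ?_⟩
  have hL0 := Lg_smooth (z₀ := z₀) hε
  have hL : ContDiff ℝ ∞ fun y => a * Lg z₀ ε y := contDiff_const.mul hL0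
  have hlL : ∀ y v, 0 ≤ lev (fun y => a * Lg z₀ ε y) y v := by
    intro y v
    rw [lev_smul hL0]
    exact mul_nonneg ha (Lg_lev hε y v)
  have hn : -(K₀ / c₀ * lev Φ y v) ≤ 0 := by
    have := hΦ0 y hy v
    have h3 : 0 ≤ K₀ / c₀ * lev Φ y v := by positivity
    linarith
  by_cases hyb : y ∈ closedBall z₀ r₀
  swap
  · have he : (fun y => χ y * (a * Lg z₀ ε y)) =ᶠ[𝓝 y] fun _ => 0 := by
      filter_upwards [isClosed_closedBall.isOpen_compl.mem_nhds hyb] with x hx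
      rw [supp x hx, zero_mul]
    rw [Pool.Agent.Helper86.SP.lev_congr he, lev_const']
    exact hn
  by_cases hy1 : y ∈ ball z₀ r₁
  · have he : (fun y => χ y * (a * Lg z₀ ε y)) =ᶠ[𝓝 y] fun y => a * Lg z₀ ε y := by
      filter_upwards [isOpen_ball.mem_nhds hy1] with x hx
      rw [one x hx, one_mul]
    rw [Pool.Agent.Helper86.SP.lev_congr he]
    exact hn.trans (hlL y v)
  have hy2 : r₁ ≤ ‖y - z₀‖ := by
    rw [mem_ball, dist_eq_norm, not_lt] at hy1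
    exact hy1
  have hy3 : ‖y - z₀‖ ≤ r₀ := by rwa [mem_closedBall, dist_eq_norm] at hyb
  rw [lev_mul isOpen_univ hχ.contDiffOn hL.contDiffOn (mem_univ y) v]
  have e1 : 0 ≤ χ y * lev (fun y => a * Lg z₀ ε y) y v := mul_nonneg (range y).1 (hlL y v)
  have e2 : |a * Lg z₀ ε y * lev χ y v| ≤ a * |Real.log (r₁ ^ 2)| * (B * ‖v‖ ^ 2) := by
    rw [abs_mul, abs_mul, abs_of_nonneg ha]
    have h3 : |Lg z₀ ε y| ≤ |Real.log (r₁ ^ 2)| := by
      have h4 := Lg_le hε hε' hsm hyb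
      have h5 := le_Lg (ε := ε) h1 hy2
      rw [abs_of_nonpos h4, abs_of_nonpos (h5.trans h4)]
      linarith
    have h6 := (hBB y hyb v).2
    gcongr
  have e3 : ∀ u, |fderiv ℝ (fun y => a * Lg z₀ ε y) y u| ≤
      a * ((r₁ ^ 2)⁻¹ * (2 * (n * r₀))) * ‖u‖ := by
    intro u
    have h3 := ((Lg_deriv (z₀ := z₀) hε y).const_mul a).fderiv
    have h4 : fderiv ℝ (fun y => a * Lg z₀ ε y) y u = _ :=
      congrArg (fun L : Cn n →L[ℝ] ℝ => L u) h3
    rw [h4]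
    simp only [smul_apply, smul_eq_mul]
    rw [abs_mul, abs_mul, abs_mul, abs_of_nonneg ha]
    have h5 : |(bl (y - z₀) (y - z₀) + ε ^ 2)⁻¹| ≤ (r₁ ^ 2)⁻¹ := by
      rw [abs_of_pos (inv_pos.2 (Lg_pos hε y))]
      refine inv_anti₀ (by positivity) ?_
      have h6 := norm_sq_le_bl (y - z₀)
      have h7 : r₁ ^ 2 ≤ ‖y - z₀‖ ^ 2 := by gcongr
      have h8 : 0 ≤ ε ^ 2 := by positivity
      linarith
    have h9 : |bl (y - z₀) u| ≤ n * (r₀ * ‖u‖) := (bl_abs _ _).trans (by gcongr)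
    calc a * (|(bl (y - z₀) (y - z₀) + ε ^ 2)⁻¹| * (|(2 : ℝ)| * |bl (y - z₀) u|))
        ≤ a * ((r₁ ^ 2)⁻¹ * (|(2 : ℝ)| * (n * (r₀ * ‖u‖)))) := by gcongr
      _ = a * ((r₁ ^ 2)⁻¹ * (2 * (n * r₀))) * ‖u‖ := by
          rw [abs_of_pos (by norm_num : (0 : ℝ) < 2)]
          ring
  have e4 : ∀ u, |fderiv ℝ χ y u * fderiv ℝ (fun y => a * Lg z₀ ε y) y u| ≤
      B * (a * ((r₁ ^ 2)⁻¹ * (2 * (n * r₀)))) * ‖u‖ ^ 2 := by
    intro u
    rw [abs_mul]
    calc |fderiv ℝ χ y u| * |fderiv ℝ (fun y => a * Lg z₀ ε y) y u|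
        ≤ (B * ‖u‖) * (a * ((r₁ ^ 2)⁻¹ * (2 * (n * r₀))) * ‖u‖) :=
          mul_le_mul (hBB y hyb u).1 (e3 u) (abs_nonneg _) (by positivity)
      _ = _ := by ring
  have e5 := e4 v
  have e6 := e4 (I • v)
  have h3 : ‖I • v‖ = ‖v‖ := by rw [norm_smul, Complex.norm_I, one_mul]
  rw [h3] at e6
  have e7 := neg_abs_le (a * Lg z₀ ε y * lev χ y v)
  have e8 := neg_abs_le (fderiv ℝ χ y v * fderiv ℝ (fun y => a * Lg z₀ ε y) y v)
  have e9 := neg_abs_le (fderiv ℝ χ y (I • v) * fderiv ℝ (fun y => a * Lg z₀ ε y) y (I • v))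
  have hc := (hcc y hyb v).1
  have f1 : K₀ * ‖v‖ ^ 2 ≤ K₀ / c₀ * lev Φ y v := by
    calc K₀ * ‖v‖ ^ 2 = K₀ / c₀ * (c₀ * ‖v‖ ^ 2) := by field_simp
      _ ≤ K₀ / c₀ * lev Φ y v := by gcongr
  have f2 : K₀ * ‖v‖ ^ 2 = a * |Real.log (r₁ ^ 2)| * (B * ‖v‖ ^ 2) +
      4 * (B * (a * ((r₁ ^ 2)⁻¹ * (2 * (n * r₀)))) * ‖v‖ ^ 2) := by
    rw [hK₀]
    ring
  linarith

end calculus

theorem eta (hLMF : S_LMF) (hBSUM : S_BSUM) : S_ETA := by
  intro b N c R P Φ C hF n s hG i z₀ r₀ r₁ χ hχ r₂ hr₂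
  classical
  have wch := Pool.Agent.Helper59.SP.wch
  have hC := hF.Cge
  have hR : 16 ≤ R := by have := hF.Rge; linarith
  have hb : (0 : ℝ) < b := by exact_mod_cast hF.posb
  have hBdR : ∀ r, r ≤ R → Bd c r ⊆ Bd c R := fun r hr =>
    iUnion_mono fun j => ball_subset_ball hr
  have hbR : ∀ j r, r ≤ R → ball (c j) r ⊆ Bd c R := fun j r hr =>
    (ball_subset_ball hr).trans (subset_iUnion (fun j => ball (c j) R) j)
  have hopR : IsOpen (Bd c R) := isOpen_iUnion fun j => isOpen_ball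
  have hop2 : IsOpen (Bd c 2) := isOpen_iUnion fun j => isOpen_ball
  -- the class of the identity
  have hone : Big c P i Tri.one := by
    refine ⟨hF.one _ isOpen_ball (hbR i 4 (by linarith)), c i, mem_ball_self (by norm_num), ?_⟩
    exact mem_iUnion.2 ⟨i, mem_ball_self (by norm_num)⟩
  obtain ⟨k₀, hk₀⟩ := hG.cov i _ hone
  have hz4 : z₀ ∈ ball (c i) 4 := ball_subset_ball (by norm_num) hχ.mem
  have hk₁ : (s i k₀).g z₀ = z₀ := (hk₀ z₀ hz4).symm
  set T : Finset (Fin (n i)) := Finset.univ.filter fun k => (s i k).g z₀ = z₀ with hT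
  have hTpos : 0 < T.card := Finset.card_pos.2 ⟨k₀, by simp [hT, hk₁]⟩
  have hh : (0 : ℝ) < T.card := by exact_mod_cast hTpos
  set a : ℝ := b / T.card with ha
  have ha0 : 0 ≤ a := by positivity
  have hTa : (T.card : ℝ) * a = b := by
    rw [ha]
    field_simp
  set F : ℝ → Cn b → ℝ := fun ε y => χ y * (a * Lg z₀ ε y) with hFdef
  have hFs : ∀ ε, 0 < ε → ContDiff ℝ ∞ (F ε) := fun ε hε =>
    hχ.smooth.mul (contDiff_const.mul (Lg_smooth hε))
  have hr1 := hχ.pos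
  have hr0 : 0 < r₀ := hr1.trans hχ.lt
  have hsubR : closedBall z₀ r₀ ⊆ Bd c R := hχ.sub.trans (hbR i 2 (by linarith))
  obtain ⟨K₃, hK₃, hcore⟩ := core_lev hLMF hopR hF.smooth hF.pos hχ.smooth hr1 hr0.le hsubR
    hχ.small hχ.range hχ.supp hχ.one ha0
  have hF0 : ∀ ε, 0 < ε → ε ≤ 1 / 2 → ∀ y, F ε y ≤ 0 := by
    intro ε hε hε' y
    by_cases hy : y ∈ closedBall z₀ r₀
    · exact mul_nonpos_of_nonneg_of_nonpos (hχ.range y).1
        (mul_nonpos_of_nonneg_of_nonpos ha0 (Lg_le hε hε' hχ.small hy))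
    · simp only [hFdef]
      rw [hχ.supp y hy, zero_mul]
  have hΦ0 : ∀ y ∈ Bd c R, ∀ v, 0 ≤ lev Φ y v := by
    intro y hy v
    by_cases hv : v = 0
    · subst hv
      unfold lev hess
      simp
    · exact (hF.pos y hy v hv).le
  set η : ℝ → Cn b → ℝ := fun ε z => (bsum c n s 0 (fun y => ((F ε y : ℝ) : ℂ)) z).re with hη
  have hηe : ∀ ε, ∀ j, ∀ z ∈ ball (c j) 2, η ε z = ∑ k, F ε ((s j k).g z) := by
    intro ε j z hz
    simp only [hη, bsum, pow_zero, mul_one]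
    rw [Finset.sum_eq_single j]
    · rw [indicator_of_mem hz, ← Complex.ofReal_sum, Complex.ofReal_re]
    · intro l _ hl
      refine indicator_of_notMem (fun h => ?_) _
      have h1 := hF.sep l j hl
      have h2 : ‖c l - c j‖ ≤ ‖z - c l‖ + ‖z - c j‖ := by
        have : c l - c j = (z - c j) - (z - c l) := by abel
        rw [this, add_comm]
        exact norm_sub_le _ _
      rw [mem_ball, dist_eq_norm] at h hz
      linarith
    · intro h
      exact absurd (Finset.mem_univ j) h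
  have hJM : JM c P 0 := ⟨fun _ _ _ _ _ _ _ _ => by simp, fun _ _ _ _ _ _ => by simp⟩
  have hbs : ∀ ε, 0 < ε → ContDiffOn ℝ ∞ (bsum c n s 0 (fun y => ((F ε y : ℝ) : ℂ))) (Bd c 2) ∧
      ∀ U t, PB c P U t → ∀ z ∈ U, bsum c n s 0 (fun y => ((F ε y : ℝ) : ℂ)) z =
        bsum c n s 0 (fun y => ((F ε y : ℝ) : ℂ)) (t.g z) * Jt t z ^ 0 := by
    intro ε hε
    refine hBSUM c R P Φ C hF n s hG 0 hJM _ (closedBall z₀ r₀)
      (Complex.ofRealCLM.contDiff.comp (hFs ε hε)) (isCompact_closedBall _ _)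
      (hχ.sub.trans (subset_iUnion (fun j => ball (c j) 2) i)) fun z hz => ?_
    simp only [hFdef]
    rw [hχ.supp z hz, zero_mul, Complex.ofReal_zero]
  set n' : ℝ := ∑ j, (n j : ℝ) with hn'
  have hn0 : 0 ≤ n' := Finset.sum_nonneg fun j _ => Nat.cast_nonneg _
  have hnj : ∀ j, (n j : ℝ) ≤ n' := fun j =>
    Finset.single_le_sum (f := fun j => (n j : ℝ)) (fun j _ => Nat.cast_nonneg _)
      (Finset.mem_univ j)
  set L₂ : ℝ := a * |Real.log (r₂ ^ 2)| with hL₂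
  have hL₂0 : 0 ≤ L₂ := by positivity
  set K : ℝ := 1 + n' * (K₃ + L₂) + b * C ^ 2 with hK
  have hK1 : 1 ≤ K := by
    have : 0 ≤ n' * (K₃ + L₂) := by positivity
    have : 0 ≤ b * C ^ 2 := by positivity
    rw [hK]
    linarith
  have hK2 : n' * K₃ ≤ K := by
    have h1 : n' * K₃ ≤ n' * (K₃ + L₂) := by
      gcongr
      linarith
    have : 0 ≤ b * C ^ 2 := by positivity
    rw [hK]
    linarith
  have hK3 : n' * L₂ ≤ K := by
    have h1 : n' * L₂ ≤ n' * (K₃ + L₂) := by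
      gcongr
      linarith
    have : 0 ≤ b * C ^ 2 := by positivity
    rw [hK]
    linarith
  have hK4 : b * C ^ 2 ≤ K := by
    have : 0 ≤ n' * (K₃ + L₂) := by positivity
    rw [hK]
    linarith
  have hC0 : 0 < C := by linarith
  have hsub3 : ball z₀ (min (r₁ / C) r₀) ⊆ ball (c i) 2 :=
    ((ball_subset_ball (min_le_right _ _)).trans ball_subset_closedBall).trans hχ.sub
  refine ⟨η, K, min (r₁ / C) r₀, by linarith, lt_min (by positivity) hr0, hsub3, ?_⟩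
  intro ε hε hε'
  have hhol : ∀ j k, DifferentiableOn ℂ (s j k).g (ball (c j) 4) := fun j k =>
    (hF.holo _ _ (hG.big j k).1).2.2.1
  have hmaps : ∀ j k, MapsTo (s j k).g (ball (c j) 4) (Bd c R) := fun j k z hz =>
    ((hF.holo _ _ (hG.big j k).1).2.2.2.2.2 z hz).1
  refine ⟨?_, ?_, ?_, ?_, ?_, ?_⟩
  · exact Complex.reCLM.contDiff.comp_contDiffOn (hbs ε hε).1
  · intro U t ht z hz
    have h1 := (hbs ε hε).2 U t ht z hz
    rw [pow_zero, mul_one] at h1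
    simp only [hη]
    rw [h1]
  · intro z hz
    obtain ⟨j, hj⟩ := mem_iUnion.1 hz
    rw [hηe ε j z hj]
    exact Finset.sum_nonpos fun k _ => hF0 ε hε hε' _
  · intro z hz e
    obtain ⟨j, hj⟩ := mem_iUnion.1 hz
    have hj4 : z ∈ ball (c j) 4 := ball_subset_ball (by norm_num) hj
    have he : η ε =ᶠ[𝓝 z] fun z => ∑ k, F ε ((s j k).g z) := by
      filter_upwards [isOpen_ball.mem_nhds hj] with x hx
      exact hηe ε j x hx
    have hsm : ∀ k, ContDiffOn ℝ ∞ (fun z => F ε ((s j k).g z)) (ball (c j) 4) := fun k =>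
      (hFs ε hε).comp_contDiffOn (holo_contDiffOn_real isOpen_ball (hhol j k))
    rw [Pool.Agent.Helper86.SP.lev_congr he, lev_sum Finset.univ isOpen_ball
      (fun k _ => hsm k) hj4]
    have hterm : ∀ k, -(K₃ * lev Φ z e) ≤ lev (fun z => F ε ((s j k).g z)) z e := by
      intro k
      have h1 := ((wch.1 univ (ball (c j) 4) isOpen_univ isOpen_ball (s j k).g (hhol j k)
        (mapsTo_univ _ _)).2 (F ε) (hFs ε hε).contDiffOn z hj4).1 e
      have h2 := Pool.Agent.Helper86.SP.lev_id wch hopR isOpen_ball hF.smooth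
        (t := s j k) (Ψ := Φ) (hF.holo _ _ (hG.big j k).1 |>.2.2 |> fun h => ⟨h.1, h.2.1, h.2.2.1⟩)
        (hmaps j k) (fun x hx => ⟨((hF.holo _ _ (hG.big j k).1).2.2.2.2.2 x hx).2,
          (hF.pot _ _ (hG.big j k).1 x hx).1, (hF.pot _ _ (hG.big j k).1 x hx).2⟩) hj4 e
      have h3 := hcore ε hε hε' ((s j k).g z) (hmaps j k hj4) (fderiv ℂ (s j k).g z e)
      rw [h2]
      refine h3.trans (le_of_eq ?_)
      exact h1.symm
    have hs : ∑ _k : Fin (n j), -(K₃ * lev Φ z e) ≤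
        ∑ k, lev (fun z => F ε ((s j k).g z)) z e := Finset.sum_le_sum fun k _ => hterm k
    refine le_trans ?_ hs
    rw [Finset.sum_const, Finset.card_univ, Fintype.card_fin, nsmul_eq_mul]
    have h4 := hΦ0 z (hbR j 4 (by linarith) hj4) e
    have h5 : (n j : ℝ) * (K₃ * lev Φ z e) ≤ K * lev Φ z e := by
      rw [← mul_assoc]
      refine mul_le_mul_of_nonneg_right ?_ h4
      exact (mul_le_mul_of_nonneg_right (hnj j) hK₃).trans hK2
    linarith
  · intro j z hz hk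
    rw [hηe ε j z hz]
    have hterm : ∀ k, -L₂ ≤ F ε ((s j k).g z) := by
      intro k
      by_cases hy : (s j k).g z ∈ closedBall z₀ r₀
      · have h1 := le_Lg (ε := ε) hr₂ (hk k)
        have h2 := Lg_le hε hε' hχ.small hy
        have h3 : -|Real.log (r₂ ^ 2)| ≤ Lg z₀ ε ((s j k).g z) :=
          (neg_abs_le _).trans h1
        have h4 := hχ.range ((s j k).g z)
        have h5 : -L₂ ≤ a * Lg z₀ ε ((s j k).g z) := by
          rw [hL₂]
          have := mul_le_mul_of_nonneg_left h3 ha0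
          linarith
        have h6 : a * Lg z₀ ε ((s j k).g z) ≤ 0 := mul_nonpos_of_nonneg_of_nonpos ha0 h2
        simp only [hFdef]
        nlinarith
      · simp only [hFdef]
        rw [hχ.supp _ hy, zero_mul]
        linarith
    have hs : ∑ _k : Fin (n j), -L₂ ≤ ∑ k, F ε ((s j k).g z) :=
      Finset.sum_le_sum fun k _ => hterm k
    rw [Finset.sum_const, Finset.card_univ, Fintype.card_fin, nsmul_eq_mul] at hs
    have h5 : (n j : ℝ) * L₂ ≤ n' * L₂ := mul_le_mul_of_nonneg_right (hnj j) hL₂0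
    linarith
  · intro z hz
    rw [hηe ε i z (hsub3 hz)]
    have hz1 : ‖z - z₀‖ < r₁ / C := by
      have := lt_of_lt_of_le (mem_ball.1 hz) (min_le_left _ _)
      rwa [dist_eq_norm] at this
    have hsum : ∑ k, F ε ((s i k).g z) ≤ ∑ k ∈ T, F ε ((s i k).g z) := by
      rw [← Finset.sum_filter_add_sum_filter_not Finset.univ (fun k => (s i k).g z₀ = z₀)]
      have : ∑ k ∈ Finset.univ.filter (fun k => ¬ (s i k).g z₀ = z₀), F ε ((s i k).g z) ≤ 0 :=
        Finset.sum_nonpos fun k _ => hF0 ε hε hε' _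
      linarith
    refine hsum.trans ?_
    have hterm : ∀ k ∈ T, F ε ((s i k).g z) ≤ a * Real.log (K * (‖z - z₀‖ ^ 2 + ε ^ 2)) := by
      intro k hk
      have hk' : (s i k).g z₀ = z₀ := (Finset.mem_filter.1 hk).2
      have h1 := hF.lip i (s i k) (hG.big i k) z (ball_subset_ball (by norm_num) (hsub3 hz)) z₀ hz4
      rw [hk'] at h1
      have h2 : ‖(s i k).g z - z₀‖ < r₁ := by
        refine h1.trans_lt ?_
        calc C * ‖z - z₀‖ < C * (r₁ / C) := by gcongr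
          _ = r₁ := by field_simp
      simp only [hFdef]
      rw [hχ.one _ (by rwa [mem_ball, dist_eq_norm]), one_mul]
      refine mul_le_mul_of_nonneg_left ?_ ha0
      refine Real.log_le_log (Lg_pos hε _) ?_
      have h3 := bl_le ((s i k).g z - z₀)
      have h4 : (b : ℝ) * ‖(s i k).g z - z₀‖ ^ 2 ≤ b * (C * ‖z - z₀‖) ^ 2 := by gcongr
      have h5 : b * (C * ‖z - z₀‖) ^ 2 ≤ K * ‖z - z₀‖ ^ 2 := by
        have : b * (C * ‖z - z₀‖) ^ 2 = (b * C ^ 2) * ‖z - z₀‖ ^ 2 := by ring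
        rw [this]
        gcongr
      have h6 : ε ^ 2 ≤ K * ε ^ 2 := by
        have : 0 ≤ ε ^ 2 := by positivity
        nlinarith
      linarith
    calc ∑ k ∈ T, F ε ((s i k).g z) ≤ ∑ _k ∈ T, a * Real.log (K * (‖z - z₀‖ ^ 2 + ε ^ 2)) :=
          Finset.sum_le_sum hterm
      _ = b * Real.log (K * (‖z - z₀‖ ^ 2 + ε ^ 2)) := by
          rw [Finset.sum_const, nsmul_eq_mul, ← mul_assoc, hTa]

end Pool.Agent.Helper35.SP
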