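import Pool.Agent.Helper35.SP.BOX
import Pool.Agent.Helper36.Abund.Area

/-! # The global norm controls local norms -/

open Complex Metric Set Filter Topology MeasureTheory
open scoped ContDiff ComplexConjugate ComplexOrder Manifold Matrix

namespace Pool.Agent.Helper35.SP

open Pool.Agent.Helper95.Lin Pool.Agent.Helper16.Abund Pool.Agent.Helper92.Orb
open Pool.Agent.Helper10.SP Pool.Agent.Helper83.SP

universe u

variable {n : ℕ}

/-- Integrability against a test function, real version. -/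
theorem int_testR {T : Set (Cn n)} {κ : Cn n → ℝ} (hT : IsOpen T) (hκ : TestF T κ)
    {F : Cn n → ℝ} (hF : ContinuousOn F T) : IntegrableOn (fun x => κ x * F x) T := by
  obtain ⟨h1, h2, h3⟩ := hκ
  have h4 : IntegrableOn (fun x => κ x * F x) (tsupport κ) := by
    refine ContinuousOn.integrableOn_compact h2 ?_
    exact h1.continuous.continuousOn.mul (hF.mono h3)
  refine h4.of_forall_sdiff_eq_zero hT.measurableSet ?_
  intro x hx
  have : κ x = 0 := image_eq_zero_of_notMem_tsupport hx.2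
  simp [this]

/-- Lower bound for a continuous family of positive definite matrices. -/
theorem eig {C : Set (Cn n)} (hC : IsCompact C) (K : Cn n → Matrix (Fin n) (Fin n) ℂ)
    (hK : ∀ j k, ContinuousOn (fun x => K x j k) C) (hpos : ∀ x ∈ C, (K x).PosDef) :
    ∃ M : ℝ, 0 ≤ M ∧ ∀ x ∈ C, ∀ a : Fin n → ℂ, ∑ j, ‖a j‖ ^ 2 ≤
      M * (∑ j, ∑ k, K x j k * a j * conj (a k)).re := by
  have hS : IsCompact (C ×ˢ sphere (0 : Cn n) 1) := hC.prod (isCompact_sphere 0 1)
  have hf : ContinuousOn (fun p : Cn n × Cn n =>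
      (∑ j, ∑ k, K p.1 j k * p.2 j * conj (p.2 k)).re) (C ×ˢ sphere (0 : Cn n) 1) := by
    refine Complex.continuous_re.comp_continuousOn ?_
    refine continuousOn_finsetSum _ fun j _ => continuousOn_finsetSum _ fun k _ => ?_
    refine ContinuousOn.mul (ContinuousOn.mul ?_ ?_) ?_
    · exact (hK j k).comp continuousOn_fst fun p hp => hp.1
    · exact ((continuous_apply j).comp continuous_snd).continuousOn
    · exact (Complex.continuous_conj.comp ((continuous_apply k).comp continuous_snd)).continuousOn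
  have hfp : ∀ x ∈ C, ∀ a : Fin n → ℂ, a ≠ 0 →
      0 < (∑ j, ∑ k, K x j k * a j * conj (a k)).re := by
    intro x hx a ha
    have h1 := (hpos x hx).dotProduct_mulVec_pos (x := star a) (by
      intro h0
      apply ha
      rw [← star_star a, h0, star_zero])
    have h2 : star (star a) ⬝ᵥ (K x *ᵥ star a) = ∑ j, ∑ k, K x j k * a j * conj (a k) := by
      rw [star_star]
      simp only [dotProduct, Matrix.mulVec, Finset.mul_sum]
      refine Finset.sum_congr rfl fun j _ => Finset.sum_congr rfl fun k _ => ?_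
      simp only [Pi.star_apply]
      have : star (a k) = conj (a k) := rfl
      rw [this]
      ring
    rw [h2] at h1
    exact (Complex.pos_iff.1 h1).1
  obtain ⟨M, hM⟩ := hS.exists_bound_of_continuousOn (hf.inv₀ fun p hp => by
    have hp2 : p.2 ≠ 0 := by
      intro h0
      have := hp.2
      rw [h0] at this
      simp at this
    exact (hfp p.1 hp.1 p.2 hp2).ne')
  refine ⟨n * max M 0, by positivity, ?_⟩
  intro x hx a
  rcases eq_or_ne a 0 with rfl | ha
  · simp
  have hna : 0 < ‖a‖ := norm_pos_iff.2 ha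
  have hp := hfp x hx a ha
  -- the normalized vector
  have hs : ((‖a‖⁻¹ : ℝ) : ℂ) • a ∈ sphere (0 : Cn n) 1 := by
    rw [mem_sphere_zero_iff_norm, norm_smul, Complex.norm_real, norm_inv, norm_norm,
      inv_mul_cancel₀ hna.ne']
  have h1 := hM (x, ((‖a‖⁻¹ : ℝ) : ℂ) • a) ⟨hx, hs⟩
  have h2 : (∑ j, ∑ k, K x j k * (((‖a‖⁻¹ : ℝ) : ℂ) • a) j *
      conj ((((‖a‖⁻¹ : ℝ) : ℂ) • a) k)).re =
      ‖a‖⁻¹ ^ 2 * (∑ j, ∑ k, K x j k * a j * conj (a k)).re := by
    have : ∑ j, ∑ k, K x j k * (((‖a‖⁻¹ : ℝ) : ℂ) • a) j *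
      conj ((((‖a‖⁻¹ : ℝ) : ℂ) • a) k) = ((‖a‖⁻¹ ^ 2 : ℝ) : ℂ) *
        ∑ j, ∑ k, K x j k * a j * conj (a k) := by
      rw [Finset.mul_sum]
      refine Finset.sum_congr rfl fun j _ => ?_
      rw [Finset.mul_sum]
      refine Finset.sum_congr rfl fun k _ => ?_
      simp only [Pi.smul_apply, smul_eq_mul, map_mul, Complex.conj_ofReal]
      push_cast
      ring
    rw [this, Complex.re_ofReal_mul]
  simp only [Pi.inv_apply, h2] at h1
  set q := (∑ j, ∑ k, K x j k * a j * conj (a k)).re with hq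
  rw [norm_inv, Real.norm_of_nonneg (by positivity), mul_inv, inv_pow, inv_inv] at h1
  have h3 : ‖a‖ ^ 2 ≤ max M 0 * q := by
    calc ‖a‖ ^ 2 = (‖a‖ ^ 2 * q⁻¹) * q := by field_simp
      _ ≤ M * q := by gcongr
      _ ≤ max M 0 * q := by gcongr; exact le_max_left _ _
  calc ∑ j, ‖a j‖ ^ 2 ≤ ∑ _j : Fin n, ‖a‖ ^ 2 := by
        refine Finset.sum_le_sum fun j _ => ?_
        gcongr
        exact norm_le_pi_norm a j
    _ = n * ‖a‖ ^ 2 := by simp
    _ ≤ n * (max M 0 * q) := by gcongr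
    _ = n * max M 0 * q := by ring

section gen

variable {T : Set (Cn n)} {G : Type u} [Group G] {R : G → Cn n → Cn n → Prop}
  {H : Cn n → Matrix (Fin n) (Fin n) ℂ}

/-- The local estimate. -/
theorem gen_local (hARRB : S_ARRB.{u}) (hDETI : S_DETI.{u}) (hK : KEt T R H) {κ : Cn n → ℝ}
    (hκ : IsPUE T R κ) {x₀ : Cn n} (hx₀ : x₀ ∈ T) :
    ∃ δ > 0, closedBall x₀ δ ⊆ T ∧ ∃ B : ℝ, 0 ≤ B ∧ ∀ E : Cn n → ℝ, ContinuousOn E T →
      (∀ x ∈ T, 0 ≤ E x) → (∀ U τ, Arr R U τ → ∀ x ∈ U, E (τ x) = E x) →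
      ∫ x in closedBall x₀ δ, E x ≤ B * ∫ x in T, κ x * ((H x).det.re * E x) := by
  have hT := hK.et.isOpen
  obtain ⟨d1, d2, d3, d4, d5, d6⟩ := hDETI T R H hK
  -- an arrow to a point where `κ` is positive
  obtain ⟨γ, y₀, hR, hκy⟩ : ∃ γ y₀, R γ x₀ y₀ ∧ κ y₀ ≠ 0 := by
    by_contra hcon
    push Not at hcon
    have h1 := hκ.sum x₀ hx₀
    unfold AS at h1
    have h2 : ∀ p : G × Cn n, (∑ᶠ (_ : R p.1 x₀ p.2), κ p.2) = 0 := by
      intro p
      by_cases hp : R p.1 x₀ p.2
      · simp [hp, hcon p.1 p.2 hp]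
      · simp [hp]
    simp only [h2, finsum_zero] at h1
    exact zero_ne_one h1
  have hκp : 0 < κ y₀ := lt_of_le_of_ne (hκ.nonneg y₀) hκy.symm
  obtain ⟨U, τ, σ, hx₀U, hUT, hLA, hτx, hinj, -, -⟩ := (hARRB T R hK.et).1 γ x₀ y₀ hR
  have hArr : Arr R U τ := ⟨hLA.1, hLA.2.1, γ, hLA.2.2⟩
  have hU := hLA.1
  have hτc : ContinuousOn τ U := hLA.2.1.continuousOn
  have hρ0 := (d1 x₀ hx₀).2.1
  have e1 : ∀ᶠ x in 𝓝 x₀, κ y₀ / 2 < κ (τ x) := by
    have h1 : ContinuousAt (fun x => κ (τ x)) x₀ :=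
      hκ.test.1.continuous.continuousAt.comp (hτc.continuousAt (hU.mem_nhds hx₀U))
    refine h1.eventually_const_lt ?_
    change κ y₀ / 2 < κ (τ x₀)
    rw [hτx]
    linarith
  have e2 : ∀ᶠ x in 𝓝 x₀, (H x₀).det.re / 2 < (H x).det.re := by
    have h1 : ContinuousAt (fun x => (H x).det.re) x₀ :=
      d2.continuousOn.continuousAt (hT.mem_nhds hx₀)
    exact h1.eventually_const_lt (by linarith)
  have e3 : ∀ᶠ x in 𝓝 x₀, x ∈ U := hU.mem_nhds hx₀U
  obtain ⟨δ', hδ', hball⟩ := Metric.eventually_nhds_iff_ball.1 (e1.and (e2.and e3))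
  have hsub : closedBall x₀ (δ' / 2) ⊆ ball x₀ δ' := closedBall_subset_ball (by linarith)
  have hNU : closedBall x₀ (δ' / 2) ⊆ U := fun x hx => (hball x (hsub hx)).2.2
  refine ⟨δ' / 2, by positivity, hNU.trans hUT,
    ((H x₀).det.re / 2)⁻¹ * (κ y₀ / 2)⁻¹, by positivity, ?_⟩
  intro E hE hE0 hEinv
  set N := closedBall x₀ (δ' / 2) with hN
  have hNc : IsCompact N := isCompact_closedBall _ _
  have hNT : N ⊆ T := hNU.trans hUT
  have hτT : ∀ x ∈ U, τ x ∈ T := fun x hx => (arr_mem hK hArr hx).2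
  have hmaps : τ '' N ⊆ T := by
    rintro _ ⟨x, hx, rfl⟩
    exact hτT x (hNU hx)
  have hρc : ContinuousOn (fun x => (H x).det.re) T := d2.continuousOn
  -- change of variables
  have hcv : ∫ y in τ '' N, κ y * ((H y).det.re * E y) =
      ∫ x in N, ‖(fderiv ℂ τ x).det‖ ^ 2 * (κ (τ x) * ((H (τ x)).det.re * E (τ x))) := by
    have h1 := integral_image_eq_integral_abs_det_fderiv_smul volume hNc.isClosed.measurableSet
      (f := τ) (f' := fun x => (fderiv ℂ τ x).restrictScalars ℝ)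
      (fun x hx => (((hLA.2.1 x (hNU hx)).differentiableAt
        (hU.mem_nhds (hNU hx))).hasFDerivAt.restrictScalars ℝ).hasFDerivWithinAt)
      (hinj.mono hNU) (fun y => κ y * ((H y).det.re * E y))
    rw [h1]
    refine setIntegral_congr_fun hNc.isClosed.measurableSet fun x hx => ?_
    simp only [smul_eq_mul, Pool.Agent.Helper36.Abund.det_restrictScalars_eq]
    rw [abs_of_nonneg (by positivity)]
  have hint : IntegrableOn (fun x => κ x * ((H x).det.re * E x)) T :=
    int_testR hT hκ.test (hρc.mul hE)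
  have hnn : ∀ x ∈ T, 0 ≤ κ x * ((H x).det.re * E x) := fun x hx =>
    mul_nonneg (hκ.nonneg x) (mul_nonneg (d1 x hx).2.1.le (hE0 x hx))
  have hle1 : ∫ y in τ '' N, κ y * ((H y).det.re * E y) ≤
      ∫ x in T, κ x * ((H x).det.re * E x) := by
    refine setIntegral_mono_set hint ?_ (LE.le.eventuallyLE hmaps)
    exact (ae_restrict_iff' hT.measurableSet).2 (Eventually.of_forall hnn)
  have hτN : ContinuousOn τ N := hτc.mono hNU
  have hJc : ContinuousOn (fun x => (fderiv ℂ τ x).det) N :=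
    (det_holo hU hLA.2.1).continuousOn.mono hNU
  have hmapsN : MapsTo τ N T := fun x hx => hτT x (hNU hx)
  have hle2 : ∫ x in N, E x ≤ ((H x₀).det.re / 2)⁻¹ * (κ y₀ / 2)⁻¹ *
      ∫ x in N, ‖(fderiv ℂ τ x).det‖ ^ 2 * (κ (τ x) * ((H (τ x)).det.re * E (τ x))) := by
    rw [← integral_const_mul]
    refine setIntegral_mono_on ?_ ?_ hNc.isClosed.measurableSet ?_
    · exact (hE.mono hNT).integrableOn_compact hNc
    · refine ContinuousOn.integrableOn_compact hNc ?_
      refine continuousOn_const.mul ((hJc.norm.pow 2).mul ?_)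
      refine (hκ.test.1.continuous.comp_continuousOn hτN).mul ?_
      exact (hρc.comp hτN hmapsN).mul (hE.comp hτN hmapsN)
    · intro x hx
      have hxU := hNU hx
      have h1 := (d5 U τ hArr x hxU).1
      have h2 := hEinv U τ hArr x hxU
      have h3 := hball x (hsub hx)
      have hEx := hE0 x (hUT hxU)
      have h4 : ‖(fderiv ℂ τ x).det‖ ^ 2 * (κ (τ x) * ((H (τ x)).det.re * E (τ x))) =
          κ (τ x) * ((H x).det.re * E x) := by
        rw [h1, h2]
        ring
      rw [h4]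
      have hb : 0 < (H x₀).det.re / 2 := by positivity
      calc E x = ((H x₀).det.re / 2)⁻¹ * (κ y₀ / 2)⁻¹ *
            (κ y₀ / 2 * ((H x₀).det.re / 2 * E x)) := by field_simp
        _ ≤ ((H x₀).det.re / 2)⁻¹ * (κ y₀ / 2)⁻¹ * (κ (τ x) * ((H x).det.re * E x)) := by
            refine mul_le_mul_of_nonneg_left ?_ (by positivity)
            refine mul_le_mul h3.1.le ?_ (by positivity) (hκ.nonneg _)
            exact mul_le_mul_of_nonneg_right h3.2.1.le hEx
  refine hle2.trans ?_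
  rw [← hcv]
  exact mul_le_mul_of_nonneg_left hle1 (by positivity)

/-- The general estimate for invariant nonnegative functions. -/
theorem gen (hARRB : S_ARRB.{u}) (hDETI : S_DETI.{u}) (hK : KEt T R H) {κ : Cn n → ℝ}
    (hκ : IsPUE T R κ) {C : Set (Cn n)} (hCT : C ⊆ T) (hC : IsCompact C) :
    ∃ B : ℝ, 0 ≤ B ∧ ∀ E : Cn n → ℝ, ContinuousOn E T →
      (∀ x ∈ T, 0 ≤ E x) → (∀ U τ, Arr R U τ → ∀ x ∈ U, E (τ x) = E x) →
      ∫ x in C, E x ≤ B * ∫ x in T, κ x * ((H x).det.re * E x) := by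
  have hT := hK.et.isOpen
  have hind : ∃ S, C ⊆ S ∧ IsCompact S ∧ S ⊆ T ∧ ∃ B : ℝ, 0 ≤ B ∧ ∀ E : Cn n → ℝ,
      ContinuousOn E T → (∀ x ∈ T, 0 ≤ E x) →
      (∀ U τ, Arr R U τ → ∀ x ∈ U, E (τ x) = E x) →
      ∫ x in S, E x ≤ B * ∫ x in T, κ x * ((H x).det.re * E x) := by
    refine hC.induction_on (p := fun C => ∃ S, C ⊆ S ∧ IsCompact S ∧ S ⊆ T ∧ ∃ B : ℝ, 0 ≤ B ∧
      ∀ E : Cn n → ℝ, ContinuousOn E T → (∀ x ∈ T, 0 ≤ E x) →
      (∀ U τ, Arr R U τ → ∀ x ∈ U, E (τ x) = E x) →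
      ∫ x in S, E x ≤ B * ∫ x in T, κ x * ((H x).det.re * E x)) ?_ ?_ ?_ ?_
    · exact ⟨∅, subset_refl _, isCompact_empty, empty_subset _, 0, le_refl _, fun E _ _ _ => by simp⟩
    · rintro s t hst ⟨S, h1, h2⟩
      exact ⟨S, hst.trans h1, h2⟩
    · rintro s t ⟨S, h1, h2, h3, B, hB, h4⟩ ⟨S', h1', h2', h3', B', hB', h4'⟩
      refine ⟨S ∪ S', union_subset_union h1 h1', h2.union h2', union_subset h3 h3', B + B',
        add_nonneg hB hB', ?_⟩
      intro E hE hE0 hEinv
      have i1 : IntegrableOn E S := (hE.mono h3).integrableOn_compact h2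
      have i2 : IntegrableOn E S' := (hE.mono h3').integrableOn_compact h2'
      have h5 : ∫ x in S ∪ S', E x = (∫ x in S, E x) + ∫ x in S' \ S, E x := by
        rw [← union_sdiff_self]
        exact setIntegral_union disjoint_sdiff_right
          (h2'.isClosed.measurableSet.diff h2.isClosed.measurableSet) i1 (i2.mono_set sdiff_subset)
      have h6 : ∫ x in S' \ S, E x ≤ ∫ x in S', E x := by
        refine setIntegral_mono_set i2 ?_ (LE.le.eventuallyLE sdiff_subset)
        exact (ae_restrict_iff' h2'.isClosed.measurableSet).2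
          (Eventually.of_forall fun x hx => hE0 x (h3' hx))
      rw [h5, add_mul]
      exact add_le_add (h4 E hE hE0 hEinv) (h6.trans (h4' E hE hE0 hEinv))
    · intro x hx
      obtain ⟨δ, hδ, hsub, B, hB, h⟩ := gen_local hARRB hDETI hK hκ (hCT hx)
      exact ⟨closedBall x δ, mem_nhdsWithin_of_mem_nhds (closedBall_mem_nhds x hδ),
        closedBall x δ, subset_refl _, isCompact_closedBall _ _, hsub, B, hB, h⟩
  obtain ⟨S, hCS, hS, hST, B, hB, h⟩ := hind
  refine ⟨B, hB, fun E hE hE0 hEinv => le_trans ?_ (h E hE hE0 hEinv)⟩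
  refine setIntegral_mono_set ((hE.mono hST).integrableOn_compact hS) ?_
    (LE.le.eventuallyLE hCS)
  exact (ae_restrict_iff' hS.isClosed.measurableSet).2
    (Eventually.of_forall fun x hx => hE0 x (hST hx))

/-- The density `ω dbp`. -/
theorem dbp_nat (hWIRT : S_WIRT) (hWCH : S_WCH) (hDETI : S_DETI.{u}) (hK : KEt T R H) {m : ℕ}
    {s : Cn n → ℂ} (hs : Sec T R m s) {U : Set (Cn n)} {τ : Cn n → Cn n} (hτ : Arr R U τ)
    {x : Cn n} (hx : x ∈ U) :
    dbp H s s x = ((‖(fderiv ℂ τ x).det‖ ^ (2 * m) : ℝ) : ℂ) * dbp H s s (τ x) := by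
  rw [dbp_eq, dbp_eq]
  have h1 : ∀ k, cdb k s x = _ := fun k => cdb_nat hWIRT hWCH hK hs hτ hx k
  have h2 := vfld_nat hWIRT hWCH hDETI hK hs hτ hx
  have h3 : vfld H s x = ∑ k, vfld H s x k • (Pi.single k (1 : ℂ) : Cn n) := by
    ext i
    simp [Finset.sum_apply, Pi.single_apply]
  have h4 : ∀ p, ∑ k, vfld H s x k * fderiv ℂ τ x (Pi.single k 1) p =
      (fderiv ℂ τ x).det ^ m * vfld H s (τ x) p := by
    intro p
    have h5 := congrFun h2 p
    rw [h3, map_sum, Finset.sum_apply] at h5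
    simpa using h5
  have h6 : (((‖(fderiv ℂ τ x).det‖ ^ (2 * m) : ℝ)) : ℂ) =
      (fderiv ℂ τ x).det ^ m * conj (fderiv ℂ τ x).det ^ m := by
    rw [← mul_pow, Complex.mul_conj, Complex.normSq_eq_norm_sq]
    push_cast
    rw [pow_mul]
  rw [h6]
  simp only [h1, map_mul, map_sum, map_pow, Complex.conj_conj, Finset.mul_sum]
  rw [Finset.sum_comm]
  refine Finset.sum_congr rfl fun p _ => ?_
  calc ∑ k, vfld H s x k * (conj (fderiv ℂ τ x).det ^ m *
        (fderiv ℂ τ x (Pi.single k 1) p * conj (cdb p s (τ x)))) =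
      (∑ k, vfld H s x k * fderiv ℂ τ x (Pi.single k 1) p) *
        (conj (fderiv ℂ τ x).det ^ m * conj (cdb p s (τ x))) := by
        rw [Finset.sum_mul]
        exact Finset.sum_congr rfl fun k _ => by ring
    _ = _ := by
        rw [h4]
        ring

theorem om_natR (hDETI : S_DETI.{u}) (hK : KEt T R H) {m : ℕ} {W : Cn n → ℝ} (hW : Wt T R m W)
    {U : Set (Cn n)} {τ : Cn n → Cn n} (hτ : Arr R U τ) {x : Cn n} (hx : x ∈ U) :
    W x / (H x).det.re * ‖(fderiv ℂ τ x).det‖ ^ (2 * m) = W (τ x) / (H (τ x)).det.re := by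
  obtain ⟨d1, d2, d3, d4, d5, d6⟩ := hDETI T R H hK
  have hJ := arr_det hDETI hK hτ hx
  have h1 := (d5 U τ hτ x hx).1
  have h2 := hW.inv U τ hτ x hx
  have hmem := arr_mem hK hτ hx
  have hp1 := (d1 x hmem.1).2.1
  have hp2 := (d1 _ hmem.2).2.1
  have hN : 0 < ‖(fderiv ℂ τ x).det‖ := norm_pos_iff.2 hJ
  rw [div_mul_eq_mul_div, ← h2, h1]
  field_simp

/-- `Σ |a_j|² ≤ M · dbp` pointwise positivity. -/
theorem dbp_re_nonneg (hDETI : S_DETI.{u}) (hK : KEt T R H) (s : Cn n → ℂ) {x : Cn n}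
    (hx : x ∈ T) : 0 ≤ (dbp H s s x).re := by
  obtain ⟨d1, d2, d3, -⟩ := hDETI T R H hK
  obtain ⟨M, hM, h⟩ := eig (isCompact_singleton (x := x)) (fun y => (H y)⁻¹)
    (fun j k => (d3 j k).continuousOn.mono (singleton_subset_iff.2 hx))
    (fun y hy => by
      rw [mem_singleton_iff.1 hy]
      exact (d1 x hx).2.2.1)
  have h1 := h x (mem_singleton x) (fun j => cdb j s x)
  change ∑ j, ‖cdb j s x‖ ^ 2 ≤ M * (dbp H s s x).re at h1
  have h2 : 0 ≤ ∑ j, ‖cdb j s x‖ ^ 2 := by positivity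
  by_contra hneg
  push Not at hneg
  rcases eq_or_lt_of_le hM with h3 | h3
  · -- `M = 0`: all derivatives vanish
    rw [← h3, zero_mul] at h1
    have h4 : ∀ j, cdb j s x = 0 := by
      intro j
      have h5 := (Finset.sum_eq_zero_iff_of_nonneg (fun j _ => by positivity)).1
        (le_antisymm h1 h2) j (Finset.mem_univ j)
      simpa using h5
    have h6 : dbp H s s x = 0 := by
      unfold dbp
      simp [h4]
    rw [h6] at hneg
    simp at hneg
  · have : M * (dbp H s s x).re < 0 := mul_neg_of_pos_of_neg h3 hneg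
    linarith

end gen

/-- L2C. -/
theorem l2c (hWIRT : S_WIRT) (hWCH : S_WCH) (hARRB : S_ARRB.{u}) (hDETI : S_DETI.{u}) :
    S_L2C.{u} := by
  intro n T G _ R H hK κ hκ m W hW C hCT hC
  have hT := hK.et.isOpen
  obtain ⟨d1, d2, d3, d4, d5, d6⟩ := hDETI T R H hK
  obtain ⟨B, hB, hgen⟩ := gen hARRB hDETI hK hκ hCT hC
  have hρc : ContinuousOn (fun x => (H x).det.re) T := d2.continuousOn
  have hωc : ContinuousOn (fun x => W x / (H x).det.re) T :=
    hW.smooth.continuousOn.div hρc fun x hx => (d1 x hx).2.1.ne'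
  have hωp : ∀ x ∈ T, 0 < W x / (H x).det.re := fun x hx => div_pos (hW.pos x hx) (d1 x hx).2.1
  obtain ⟨M₁, hM₁⟩ := hC.exists_bound_of_continuousOn
    ((hωc.inv₀ fun x hx => (hωp x hx).ne').mono hCT)
  obtain ⟨M₂, hM₂, heig⟩ := eig hC (fun y => (H y)⁻¹)
    (fun j k => (d3 j k).continuousOn.mono hCT) (fun y hy => (d1 y (hCT hy)).2.2.1)
  obtain ⟨M, hMdef⟩ : ∃ M, M = max M₁ 0 := ⟨_, rfl⟩
  have hM : 0 ≤ M := by rw [hMdef]; exact le_max_right _ _
  have hMω : ∀ x ∈ C, 1 ≤ M * (W x / (H x).det.re) := by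
    intro x hx
    have h1 := hM₁ x hx
    have h2 := hωp x (hCT hx)
    simp only [Pi.inv_apply] at h1
    rw [norm_inv, Real.norm_of_nonneg h2.le] at h1
    calc 1 = (W x / (H x).det.re)⁻¹ * (W x / (H x).det.re) := (inv_mul_cancel₀ h2.ne').symm
      _ ≤ M * (W x / (H x).det.re) := by
          refine mul_le_mul_of_nonneg_right (h1.trans ?_) h2.le
          rw [hMdef]
          exact le_max_left _ _
  refine ⟨M * B + M₂ * M * B, ?_⟩
  intro s hs
  have hsc : ContinuousOn s T := hs.1.continuousOn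
  -- the first density
  have hE1c : ContinuousOn (fun x => W x / (H x).det.re * ‖s x‖ ^ 2) T :=
    hωc.mul (hsc.norm.pow 2)
  have hE1 := hgen (fun x => W x / (H x).det.re * ‖s x‖ ^ 2) hE1c
    (fun x hx => mul_nonneg (hωp x hx).le (by positivity))
    (fun U τ hτ x hx => by
      have h1 := om_natR hDETI hK hW hτ hx
      have h2 := hs.2 U τ hτ x hx
      rw [← h1, h2, norm_mul, norm_pow]
      ring)
  have hns : ∫ x in T, κ x * ((H x).det.re * (W x / (H x).det.re * ‖s x‖ ^ 2)) =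
      nsE T κ W s := by
    unfold nsE
    refine setIntegral_congr_fun hT.measurableSet fun x hx => ?_
    have h1 := (d1 x hx).2.1
    field_simp
  rw [hns] at hE1
  have hns0 : 0 ≤ nsE T κ W s := by
    unfold nsE
    refine setIntegral_nonneg hT.measurableSet fun x hx => ?_
    exact mul_nonneg (mul_nonneg (hκ.nonneg x) (hW.pos x hx).le) (by positivity)
  -- the second density
  have hcb : ∀ j, ContinuousOn (cdb j s) T := fun j =>
    ((hWIRT T hT s s hs.1 hs.1).1 j).2.continuousOn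
  have hdc : ContinuousOn (dbp H s s) T := by
    unfold dbp
    exact continuousOn_finsetSum _ fun j _ => continuousOn_finsetSum _ fun k _ =>
      ((d3 j k).continuousOn.mul (hcb j)).mul (Complex.continuous_conj.comp_continuousOn (hcb k))
  have hE2c : ContinuousOn (fun x => W x / (H x).det.re * (dbp H s s x).re) T :=
    hωc.mul (Complex.continuous_re.comp_continuousOn hdc)
  have hE2 := hgen (fun x => W x / (H x).det.re * (dbp H s s x).re) hE2c
    (fun x hx => mul_nonneg (hωp x hx).le (dbp_re_nonneg hDETI hK s hx))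
    (fun U τ hτ x hx => by
      have h1 := om_natR hDETI hK hW hτ hx
      have h2 := dbp_nat hWIRT hWCH hDETI hK hs hτ hx
      rw [← h1, h2, Complex.re_ofReal_mul]
      ring)
  have hds : ∫ x in T, κ x * ((H x).det.re * (W x / (H x).det.re * (dbp H s s x).re)) =
      (dipE T κ W H s s).re := by
    have hi : IntegrableOn (fun x => ((κ x * W x : ℝ) : ℂ) * dbp H s s x) T := by
      have h1 := int_test (κ := κ) (F := fun x => (W x : ℂ) * dbp H s s x) hT hκ.test
        ((sm_real hW.smooth).continuousOn.mul hdc)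
      refine h1.congr_fun (fun x _ => ?_) hT.measurableSet
      push_cast
      ring
    have h2 := integral_re (μ := volume.restrict T) (𝕜 := ℂ) hi
    unfold dipE
    rw [show (∫ x in T, ((κ x * W x : ℝ) : ℂ) * dbp H s s x).re =
      RCLike.re (∫ x in T, ((κ x * W x : ℝ) : ℂ) * dbp H s s x) from rfl, ← h2]
    refine setIntegral_congr_fun hT.measurableSet fun x hx => ?_
    have h1 := (d1 x hx).2.1
    change _ = (((κ x * W x : ℝ) : ℂ) * dbp H s s x).re
    rw [Complex.re_ofReal_mul]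
    field_simp
  rw [hds] at hE2
  have hds0 : 0 ≤ (dipE T κ W H s s).re := by
    rw [← hds]
    refine setIntegral_nonneg hT.measurableSet fun x hx => ?_
    exact mul_nonneg (hκ.nonneg x) (mul_nonneg (d1 x hx).2.1.le
      (mul_nonneg (hωp x hx).le (dbp_re_nonneg hDETI hK s hx)))
  have hMB : 0 ≤ M * B := mul_nonneg hM hB
  have hMMB : 0 ≤ M₂ * M * B := mul_nonneg (mul_nonneg hM₂ hM) hB
  constructor
  · calc ∫ x in C, ‖s x‖ ^ 2 ≤ ∫ x in C, M * (W x / (H x).det.re * ‖s x‖ ^ 2) := by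
          refine setIntegral_mono_on ?_ ?_ hC.isClosed.measurableSet fun x hx => ?_
          · exact ((hsc.norm.pow 2).mono hCT).integrableOn_compact hC
          · exact ((continuousOn_const.mul hE1c).mono hCT).integrableOn_compact hC
          · have h1 := hMω x hx
            calc ‖s x‖ ^ 2 = 1 * ‖s x‖ ^ 2 := (one_mul _).symm
              _ ≤ M * (W x / (H x).det.re) * ‖s x‖ ^ 2 :=
                  mul_le_mul_of_nonneg_right h1 (by positivity)
              _ = M * (W x / (H x).det.re * ‖s x‖ ^ 2) := by ring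
      _ = M * ∫ x in C, W x / (H x).det.re * ‖s x‖ ^ 2 := integral_const_mul _ _
      _ ≤ M * (B * nsE T κ W s) := mul_le_mul_of_nonneg_left hE1 hM
      _ ≤ (M * B + M₂ * M * B) * nsE T κ W s := by
          have := mul_nonneg hMMB hns0
          nlinarith
  · calc ∫ x in C, ∑ j, ‖cdb j s x‖ ^ 2 ≤
          ∫ x in C, M₂ * M * (W x / (H x).det.re * (dbp H s s x).re) := by
          refine setIntegral_mono_on ?_ ?_ hC.isClosed.measurableSet fun x hx => ?_
          · refine ContinuousOn.integrableOn_compact hC ?_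
            exact continuousOn_finsetSum _ fun j _ => ((hcb j).norm.pow 2).mono hCT
          · exact ((continuousOn_const.mul hE2c).mono hCT).integrableOn_compact hC
          · have h1 := hMω x hx
            have h2 := dbp_re_nonneg hDETI hK s (hCT hx)
            calc ∑ j, ‖cdb j s x‖ ^ 2 ≤ M₂ * (dbp H s s x).re := heig x hx _
              _ = M₂ * (1 * (dbp H s s x).re) := by ring
              _ ≤ M₂ * (M * (W x / (H x).det.re) * (dbp H s s x).re) :=
                  mul_le_mul_of_nonneg_left (mul_le_mul_of_nonneg_right h1 h2) hM₂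
              _ = M₂ * M * (W x / (H x).det.re * (dbp H s s x).re) := by ring
      _ = M₂ * M * ∫ x in C, W x / (H x).det.re * (dbp H s s x).re := integral_const_mul _ _
      _ ≤ M₂ * M * (B * (dipE T κ W H s s).re) :=
          mul_le_mul_of_nonneg_left hE2 (mul_nonneg hM₂ hM)
      _ ≤ (M * B + M₂ * M * B) * (dipE T κ W H s s).re := by
          have := mul_nonneg hMB hds0
          nlinarith

end Pool.Agent.Helper35.SP
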