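import Pool.Agent.Helper35.SP.Basic

/-! # Normalization of the fibre coordinate -/

open Complex Metric Set Filter Topology MeasureTheory
open scoped ContDiff ComplexConjugate ComplexOrder Manifold Matrix

namespace Pool.Agent.Helper35.SP

open Pool.Agent.Helper95.Lin Pool.Agent.Helper16.Abund Pool.Agent.Helper92.Orb
open Pool.Agent.Helper10.SP

variable {b : ℕ}

/-- A real function whose fibre derivative is that of `2 Re G`. -/
theorem decomp {r : ℝ} {Φ : Cn (b + 1) → ℝ}
    (hΦ : ContDiffOn ℝ ∞ Φ (prodS (ball (0 : Cn b) r) (ball 0 r))) {G : Cn (b + 1) → ℂ}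
    (hG : DifferentiableOn ℂ G (prodS (ball 0 r) (ball 0 r)))
    (hG0 : ∀ x, lc x = 0 → G x = 0)
    (hGe : ∀ x ∈ prodS (ball (0 : Cn b) r) (ball 0 r), fderiv ℂ G x (ew b) =
      cd (Fin.natAdd b 0) (fun y => (Φ y : ℂ)) x / 2) :
    ∀ x ∈ prodS (ball (0 : Cn b) r) (ball 0 r), Φ x = 2 * (G x).re + Φ (inc b (base x)) := by
  have hD : IsOpen (prodS (ball (0 : Cn b) r) (ball 0 r)) := isOpen_prodS isOpen_ball isOpen_ball
  intro x hx
  have hder : ∀ s ∈ Icc (0 : ℝ) 1,
      HasDerivAt (fun s : ℝ => Φ (St b s x) - 2 * (G (St b s x)).re) 0 s := by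
    intro s hs
    have hmem := St_mem hx hs
    have h1 : HasFDerivAt Φ (fderiv ℝ Φ (St b s x)) (St b s x) :=
      ((hΦ.contDiffAt (hD.mem_nhds hmem)).differentiableAt (by simp)).hasFDerivAt
    have h2 : HasDerivAt (fun s : ℝ => Φ (St b s x)) (fderiv ℝ Φ (St b s x) (lc x • ew b)) s :=
      h1.comp_hasDerivAt s (St_hasDerivAt s x)
    have k1 : HasFDerivAt G (fderiv ℂ G (St b s x)) (St b s x) :=
      ((hG _ hmem).differentiableAt (hD.mem_nhds hmem)).hasFDerivAt
    have k2 : HasDerivAt (fun s : ℝ => G (St b s x)) (fderiv ℂ G (St b s x) (lc x • ew b)) s := by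
      have k2' := (k1.restrictScalars ℝ).comp_hasDerivAt s (St_hasDerivAt s x)
      exact k2'
    have k3 : HasDerivAt (fun s : ℝ => (G (St b s x)).re)
        (fderiv ℂ G (St b s x) (lc x • ew b)).re s := by
      have k3' := (Complex.reCLM.hasFDerivAt (x := G (St b s x))).comp_hasDerivAt s k2
      exact k3'
    have h3 := h2.sub (k3.const_mul 2)
    refine h3.congr_deriv ?_
    have e1 : fderiv ℝ (fun y => (Φ y : ℂ)) (St b s x) =
        Complex.ofRealCLM.comp (fderiv ℝ Φ (St b s x)) :=
      ((Complex.ofRealCLM.hasFDerivAt (x := Φ (St b s x))).comp _ h1).fderiv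
    have e2 : lc x • ew b = (lc x).re • ew b +
        (lc x).im • (Pi.single (Fin.natAdd b 0) I : Cn (b + 1)) := by
      have : (Pi.single (Fin.natAdd b 0) I : Cn (b + 1)) = I • ew b := by
        rw [ew, ← Pi.single_smul]
        simp
      rw [this]
      nth_rewrite 1 [← Complex.re_add_im (lc x)]
      rw [add_smul, mul_smul]
      rfl
    have e3 : (Pi.single (Fin.natAdd b 0) 1 : Cn (b + 1)) = ew b := rfl
    have e4 : fderiv ℂ G (St b s x) (lc x • ew b) = lc x *
        (((fderiv ℝ Φ (St b s x) (ew b) : ℝ) : ℂ) - I *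
          ((fderiv ℝ Φ (St b s x) (Pi.single (Fin.natAdd b 0) I) : ℝ) : ℂ)) / 2 := by
      rw [map_smul, hGe _ hmem, cd, e1, e3]
      simp only [ContinuousLinearMap.comp_apply, Complex.ofRealCLM_apply, smul_eq_mul]
      ring
    have e5 : fderiv ℝ Φ (St b s x) (lc x • ew b) =
        (lc x).re * fderiv ℝ Φ (St b s x) (ew b) +
        (lc x).im * fderiv ℝ Φ (St b s x) (Pi.single (Fin.natAdd b 0) I) := by
      rw [e2, map_add, map_smul, map_smul]
      simp only [smul_eq_mul]
    rw [e4, e5]
    simp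
    ring
  have hc : ∀ s ∈ Icc (0 : ℝ) 1, (fun s : ℝ => Φ (St b s x) - 2 * (G (St b s x)).re) s =
      (fun s : ℝ => Φ (St b s x) - 2 * (G (St b s x)).re) 0 := by
    refine constant_of_has_deriv_right_zero ?_ ?_
    · intro s hs
      exact (hder s hs).continuousAt.continuousWithinAt
    · intro s hs
      exact (hder s ⟨hs.1, hs.2.le⟩).hasDerivWithinAt
  have h1 := hc 1 ⟨zero_le_one, le_refl 1⟩
  simp only [St_one, St_zero] at h1
  rw [hG0 (pt (base x) 0) (lc_pt _ _), ← inc_apply] at h1
  simp at h1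
  linarith

/-- The determinant of a triangular map. -/
theorem det_tri (L : Cn (b + 1) →L[ℂ] ℂ) :
    ((inc b).comp (baseL b) + L.smulRight (ew b)).det = L (ew b) := by
  have hv : ∀ v : Cn (b + 1), ((inc b).comp (baseL b) + L.smulRight (ew b)) v =
      pt (base v) (L v) := by
    intro v
    rw [pt_eq]
    simp [baseL_apply]
  rw [ContinuousLinearMap.det, ← LinearMap.det_toMatrix']
  rw [Matrix.det_of_isLowerTriangular]
  · rw [Fin.prod_univ_add]
    simp only [LinearMap.toMatrix'_apply, ContinuousLinearMap.coe_coe, hv]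
    have h1 : ∀ i : Fin b, pt (base (Pi.single (Fin.castAdd 1 i) (1 : ℂ) : Cn (b + 1)))
        (L (Pi.single (Fin.castAdd 1 i) 1)) (Fin.castAdd 1 i) = 1 := by
      intro i
      simp [pt, base]
    rw [Finset.prod_congr rfl (fun i _ => h1 i)]
    simp [pt, ew]
  · intro i j hij
    have hij' : i < j := hij
    simp only [LinearMap.toMatrix'_apply, ContinuousLinearMap.coe_coe, hv]
    revert hij'
    refine Fin.addCases (fun i' => ?_) (fun i' => ?_) i
    · intro hij'
      simp [pt, base, hij'.ne]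
    · intro hij'
      have : i' = 0 := Subsingleton.elim _ _
      subst this
      have h2 : (Fin.natAdd b (0 : Fin 1)).val < j.val := hij'
      have h3 := j.isLt
      simp at h2
      omega

/-- In a semipositive Hermitian matrix the row of a zero diagonal entry vanishes. -/
theorem row_zero {n : ℕ} {H : Matrix (Fin n) (Fin n) ℂ} (hH : H.IsHermitian)
    (hpos : ∀ e : Fin n → ℂ, 0 ≤ (hermi H e e).re) (l : Fin n) (hl : H l l = 0) (k : Fin n) :
    H l k = 0 := by
  by_contra hne
  have hlk : l ≠ k := by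
    rintro rfl
    exact hne hl
  have hN : 0 < Complex.normSq (H l k) := Complex.normSq_pos.2 hne
  obtain ⟨s, hs⟩ : ∃ s : ℝ, s = (H k k).re / (2 * Complex.normSq (H l k)) + 1 := ⟨_, rfl⟩
  obtain ⟨α, hα⟩ : ∃ α : ℂ, α = -(s : ℂ) * conj (H l k) := ⟨_, rfl⟩
  have h := hpos (Pi.single k 1 + Pi.single l α)
  have hkl : H k l = conj (H l k) := by
    have := hH.apply k l
    rw [← this]
    rfl
  have hexp : hermi H (Pi.single k 1 + Pi.single l α) (Pi.single k 1 + Pi.single l α) =
      H k k + conj α * H k l + (α * H l k + α * conj α * H l l) := by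
    have h1 : ∀ u : Fin n → ℂ, hermi H u (Pi.single k 1 + Pi.single l α) =
        ∑ i, (H i k * u i + H i l * u i * conj α) := by
      intro u
      unfold hermi
      refine Finset.sum_congr rfl fun i _ => ?_
      simp only [Pi.add_apply, map_add, mul_add, Finset.sum_add_distrib]
      congr 1
      · rw [Finset.sum_eq_single k]
        · simp
        · intro j _ hj
          simp [hj]
        · simp
      · rw [Finset.sum_eq_single l]
        · simp
        · intro j _ hj
          simp [hj]
        · simp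
    rw [h1]
    simp only [Pi.add_apply, mul_add, add_mul, Finset.sum_add_distrib]
    have h2 : ∀ (g : Fin n → ℂ) (m : Fin n) (c : ℂ),
        ∑ i, g i * (Pi.single m c : Fin n → ℂ) i = g m * c := by
      intro g m c
      rw [Finset.sum_eq_single m]
      · simp
      · intro j _ hj
        simp [hj]
      · simp
    have h3 : ∀ (g : Fin n → ℂ) (m : Fin n) (c : ℂ),
        ∑ i, g i * (Pi.single m c : Fin n → ℂ) i * conj α = g m * c * conj α := by
      intro g m c
      rw [Finset.sum_eq_single m]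
      · simp
      · intro j _ hj
        simp [hj]
      · simp
    rw [h2 (fun i => H i k), h2 (fun i => H i k), h3 (fun i => H i l), h3 (fun i => H i l)]
    ring
  rw [hexp, hl, hkl, hα] at h
  have h4 : (H k k + conj (-(s : ℂ) * conj (H l k)) * conj (H l k) +
      (-(s : ℂ) * conj (H l k) * H l k + -(s : ℂ) * conj (H l k) *
        conj (-(s : ℂ) * conj (H l k)) * 0)).re = (H k k).re - 2 * s * Complex.normSq (H l k) := by
    simp [Complex.normSq_apply]
    ring
  rw [h4, hs] at h
  have h5 : (H k k).re - 2 * ((H k k).re / (2 * Complex.normSq (H l k)) + 1) *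
      Complex.normSq (H l k) = - (2 * Complex.normSq (H l k)) := by
    field_simp
    ring
  rw [h5] at h
  linarith

/-- NORMW. -/
theorem normw (hWIRT : S_WIRT) (hWCH : S_WCH) (hLMF : S_LMF) : S_NORMW := by
  intro b r hr Φ hΦ hCO hew
  set D := prodS (ball (0 : Cn b) r) (ball 0 r) with hDdef
  have hD : IsOpen D := isOpen_prodS isOpen_ball isOpen_ball
  have hb0 : base (0 : Cn (b + 1)) = 0 := by ext i; simp [base]
  have hl0 : lc (0 : Cn (b + 1)) = 0 := by simp [lc]
  have h0D : (0 : Cn (b + 1)) ∈ D := by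
    refine ⟨?_, ?_⟩
    · rw [mem_ball_zero_iff, hb0, norm_zero]
      exact hr
    · rw [mem_ball_zero_iff, hl0, norm_zero]
      exact hr
  obtain ⟨hsm, hherm, hlev, -⟩ := hLMF D hD Φ hΦ
  set l : Fin (b + 1) := Fin.natAdd b 0 with hl
  -- the last row of the Levi matrix vanishes
  have hrow : ∀ x ∈ D, ∀ k, LM Φ x l k = 0 := by
    intro x hx k
    refine row_zero (hherm x hx) (fun e => ?_) l ?_ k
    · rw [← hlev x hx e, Complex.ofReal_re]
      exact (hCO x hx).1 e
    · have h1 := hlev x hx (ew b)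
      rw [hew x hx] at h1
      have h2 : hermi (LM Φ x) (ew b) (ew b) = LM Φ x l l := by
        unfold hermi ew
        rw [Finset.sum_eq_single l]
        · rw [Finset.sum_eq_single l]
          · simp [hl]
          · intro j _ hj
            rw [Pi.single_eq_of_ne hj]
            simp
          · simp
        · intro j _ hj
          rw [Pi.single_eq_of_ne hj]
          simp
        · simp
      rw [← h2, ← h1]
      simp
  -- the fibre derivative is holomorphic
  have hΦc : ContDiffOn ℝ ∞ (fun y => (Φ y : ℂ)) D :=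
    Complex.ofRealCLM.contDiff.comp_contDiffOn hΦ
  have hw := hWIRT D hD (fun y => (Φ y : ℂ)) (fun y => (Φ y : ℂ)) hΦc hΦc
  have hg : DifferentiableOn ℂ (cd l (fun y => (Φ y : ℂ))) D := by
    have hgs := (hw.1 l).1
    have hw2 := hWIRT D hD (cd l (fun y => (Φ y : ℂ))) (cd l (fun y => (Φ y : ℂ))) hgs hgs
    refine hw2.2.2.2.2.2.1 fun k x hx => ?_
    have h1 := (hw.2.2.2.2.1 l k x hx).2.2
    rw [← h1]
    exact hrow x hx k
  have hg2 : DifferentiableOn ℂ (fun x => cd l (fun y => (Φ y : ℂ)) x / 2) D :=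
    (hg.mul_const ((2 : ℂ)⁻¹)).congr fun x _ => div_eq_mul_inv _ _
  obtain ⟨G, hGd, hG0, hGe⟩ := prim (fun x => cd l (fun y => (Φ y : ℂ)) x / 2) hg2
  have hdec := decomp hΦ hGd hG0 hGe
  obtain ⟨V, hVd, hV0, hVe⟩ := prim (fun x => Complex.exp (G x)) (hGd.cexp)
  -- the new coordinates
  obtain ⟨F, hF⟩ : ∃ F : Cn (b + 1) → Cn (b + 1),
      F = fun x => inc b (baseL b x) + V x • ew b := ⟨_, rfl⟩
  have hFpt : ∀ x, F x = pt (base x) (V x) := by
    intro x
    simp only [hF]
    rw [pt_eq, baseL_apply]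
  have hF' : ∀ x ∈ D, HasFDerivAt F ((inc b).comp (baseL b) +
      (fderiv ℂ V x).smulRight (ew b)) x := by
    intro x hx
    rw [hF]
    have h1 : HasFDerivAt V (fderiv ℂ V x) x :=
      ((hVd x hx).differentiableAt (hD.mem_nhds hx)).hasFDerivAt
    have h2 : HasFDerivAt (fun x => inc b (baseL b x)) ((inc b).comp (baseL b)) x :=
      ((inc b).comp (baseL b)).hasFDerivAt
    exact h2.add (h1.smul_const (ew b))
  have hdet : ∀ x ∈ D, ((inc b).comp (baseL b) + (fderiv ℂ V x).smulRight (ew b)).det =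
      Complex.exp (G x) := by
    intro x hx
    rw [det_tri, hVe x hx]
  have hVd' : DifferentiableOn ℂ (fderiv ℂ V) D :=
    Pool.Agent.Helper8.Abund.differentiableOn_fderiv hD hVd
  have hstrict : HasStrictFDerivAt F ((inc b).comp (baseL b) +
      (fderiv ℂ V 0).smulRight (ew b)) 0 := by
    refine hasStrictFDerivAt_of_hasFDerivAt_of_continuousAt
      (f' := fun x => (inc b).comp (baseL b) + (fderiv ℂ V x).smulRight (ew b)) ?_ ?_
    · filter_upwards [hD.mem_nhds h0D] with x hx using hF' x hx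
    · have h1 : ContinuousAt (fderiv ℂ V) 0 :=
        (hVd'.continuousOn).continuousAt (hD.mem_nhds h0D)
      have h2 : Continuous fun L : Cn (b + 1) →L[ℂ] ℂ => (inc b).comp (baseL b) +
          L.smulRight (ew b) := by fun_prop
      exact h2.continuousAt.comp h1
  have hdet0 : ((inc b).comp (baseL b) + (fderiv ℂ V 0).smulRight (ew b)).det ≠ 0 := by
    rw [hdet 0 h0D]
    exact Complex.exp_ne_zero _
  have hstr : HasStrictFDerivAt F ((ContinuousLinearMap.toContinuousLinearEquivOfDetNeZero _
      hdet0 : Cn (b + 1) ≃L[ℂ] Cn (b + 1)) : Cn (b + 1) →L[ℂ] Cn (b + 1)) 0 := by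
    rw [ContinuousLinearMap.coe_toContinuousLinearEquivOfDetNeZero]
    exact hstrict
  set e := hstr.toOpenPartialHomeomorph F with he
  have heF : ∀ x, e x = F x := fun x => by
    rw [he, hstr.toOpenPartialHomeomorph_coe]
  have h0s : (0 : Cn (b + 1)) ∈ e.source := hstr.mem_toOpenPartialHomeomorph_source
  have hF0 : F 0 = 0 := by
    rw [hFpt, hV0 0 hl0, hb0, pt_eq]
    simp
  have h0t : (0 : Cn (b + 1)) ∈ e.target := by
    have := e.map_source h0s
    rwa [heF, hF0] at this
  have hsymm0 : e.symm 0 = 0 := by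
    have := e.left_inv h0s
    rwa [heF, hF0] at this
  have hopen : IsOpen (e.target ∩ e.symm ⁻¹' D) := e.isOpen_inter_preimage_symm hD
  obtain ⟨ρ, hρ, hρs⟩ := Metric.isOpen_iff.1 hopen 0 ⟨h0t, by
    rw [mem_preimage, hsymm0]
    exact h0D⟩
  have hmin : 0 < min ρ r := lt_min hρ hr
  -- the domain
  have hsub : ∀ x ∈ prodS (ball (0 : Cn b) (min ρ r)) (ball 0 (min ρ r)),
      x ∈ e.target ∧ e.symm x ∈ D := by
    intro x hx
    exact hρs (ball_subset_ball (min_le_left _ _) (prodS_subset_ball hmin hx))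
  have hder : ∀ (x : Cn (b + 1)) (hx : x ∈ prodS (ball (0 : Cn b) (min ρ r)) (ball 0 (min ρ r))),
      HasFDerivAt e.symm ((((inc b).comp (baseL b) +
        (fderiv ℂ V (e.symm x)).smulRight (ew b)).toContinuousLinearEquivOfDetNeZero (by
          rw [hdet _ (hsub x hx).2]
          exact Complex.exp_ne_zero _)).symm : Cn (b + 1) →L[ℂ] Cn (b + 1)) x := by
    intro x hx
    refine e.hasFDerivAt_symm (hsub x hx).1 ?_
    rw [ContinuousLinearMap.coe_toContinuousLinearEquivOfDetNeZero]
    have := hF' _ (hsub x hx).2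
    have heq : (e : Cn (b + 1) → Cn (b + 1)) = F := funext heF
    rw [heq]
    exact this
  have hdets : ∀ x ∈ prodS (ball (0 : Cn b) (min ρ r)) (ball 0 (min ρ r)),
      (fderiv ℂ e.symm x).det = Complex.exp (- G (e.symm x)) := by
    intro x hx
    have hx' := (hsub x hx).2
    have h1 := (hder x hx).fderiv
    rw [h1]
    have h2 := hdet _ hx'
    have hne : ((inc b).comp (baseL b) + (fderiv ℂ V (e.symm x)).smulRight (ew b)).det ≠ 0 := by
      rw [h2]
      exact Complex.exp_ne_zero _
    set L := ((inc b).comp (baseL b) + (fderiv ℂ V (e.symm x)).smulRight (ew b)) with hL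
    have h3 : (L.toContinuousLinearEquivOfDetNeZero hne : Cn (b + 1) →L[ℂ] Cn (b + 1)).det *
        ((L.toContinuousLinearEquivOfDetNeZero hne).symm :
          Cn (b + 1) →L[ℂ] Cn (b + 1)).det = 1 := by
      rw [ContinuousLinearMap.det, ContinuousLinearMap.det, ← LinearMap.det_comp]
      have : ((L.toContinuousLinearEquivOfDetNeZero hne : Cn (b + 1) →L[ℂ] Cn (b + 1)) :
          Cn (b + 1) →ₗ[ℂ] Cn (b + 1)) ∘ₗ (((L.toContinuousLinearEquivOfDetNeZero hne).symm :
          Cn (b + 1) →L[ℂ] Cn (b + 1)) : Cn (b + 1) →ₗ[ℂ] Cn (b + 1)) = LinearMap.id := by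
        refine LinearMap.ext fun v => ?_
        exact (L.toContinuousLinearEquivOfDetNeZero hne).apply_symm_apply v
      rw [this, LinearMap.det_id]
    rw [ContinuousLinearMap.coe_toContinuousLinearEquivOfDetNeZero, h2] at h3
    rw [Complex.exp_neg]
    exact eq_inv_of_mul_eq_one_right h3
  refine ⟨min ρ r, hmin, e.symm, fun z => Φ (inc b z), ?_, ?_, ?_, hsymm0, ?_, ?_, ?_⟩
  · intro x hx
    exact (hder x hx).differentiableAt.differentiableWithinAt
  · intro x hx y hy hxy
    have := congrArg e hxy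
    rwa [e.right_inv (hsub x hx).1, e.right_inv (hsub y hy).1] at this
  · intro x hx
    exact (hsub x hx).2
  · have hmaps : MapsTo (inc b) (ball (0 : Cn b) (min ρ r)) D := by
      intro z hz
      refine ⟨?_, ?_⟩
      · rw [inc_apply, base_pt]
        exact ball_subset_ball (min_le_right _ _) hz
      · rw [inc_apply, lc_pt]
        exact mem_ball_self hr
    have h1 : ContDiff ℝ ∞ (inc b : Cn b → Cn (b + 1)) :=
      ((inc b).restrictScalars ℝ).contDiff
    exact hΦ.comp h1.contDiffOn hmaps
  · intro z hz v hv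
    have hmaps : MapsTo (inc b) (ball (0 : Cn b) r) D := by
      intro z hz
      refine ⟨?_, ?_⟩
      · rw [inc_apply, base_pt]
        exact hz
      · rw [inc_apply, lc_pt]
        exact mem_ball_self hr
    have hz' : z ∈ ball (0 : Cn b) r := ball_subset_ball (min_le_right _ _) hz
    have h1 := ((hWCH.1 D (ball (0 : Cn b) r) hD isOpen_ball (inc b)
      (inc b).differentiable.differentiableOn hmaps).2 Φ hΦ z hz').1 v
    have h2 : fderiv ℂ (inc b) z v = inc b v := by
      rw [(inc b).fderiv]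
    rw [h2] at h1
    have h3 := hCO _ (hmaps hz')
    have h4 : lev (fun z => Φ (inc b z)) z v = lev Φ (inc b z) (inc b v) := h1
    rw [h4]
    refine lt_of_le_of_ne (h3.1 _) fun h0 => ?_
    obtain ⟨e₀, -, he₀⟩ := h3.2
    obtain ⟨c, hc⟩ := (he₀ _).1 h0.symm
    obtain ⟨c', hc'⟩ := (he₀ _).1 (hew _ (hmaps hz'))
    have hc'0 : c' ≠ 0 := by
      rintro rfl
      rw [zero_smul] at hc'
      exact ew_ne hc'
    have h5 : inc b v = (c / c') • ew b := by
      rw [hc, hc', smul_smul, div_mul_cancel₀ _ hc'0]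
    have h6 := congrArg base h5
    rw [inc_apply, base_pt] at h6
    apply hv
    rw [h6]
    have h7 : base ((c / c') • ew b) = (c / c') • base (ew b) := rfl
    rw [h7, base_ew, smul_zero]
  · intro x hx
    have hx' := (hsub x hx).2
    have hb : base (e.symm x) = base x := by
      have h1 := e.right_inv (hsub x hx).1
      rw [heF, hFpt] at h1
      have h2 := congrArg base h1
      rwa [base_pt] at h2
    refine ⟨?_, hb, ?_⟩
    · rw [hdets x hx]
      exact Complex.exp_ne_zero _
    · rw [hdets x hx, hdec _ hx', hb, Complex.norm_exp, ← Real.exp_nat_mul, Real.log_exp]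
      simp

end Pool.Agent.Helper35.SP
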