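import Pool.Agent.Helper10.SP.GoalsI
import Pool.Agent.Helper35.SP.PAX
import Pool.Agent.Helper8.SP.AMAX
import Pool.Agent.Helper86.SP.ACB
import Pool.Agent.Helper59.SP.WCH
import Pool.Agent.Helper95.Lin.Basics

/-! # Fields that act on the period map without kernel -/

open Complex Metric Set Filter Topology MeasureTheory
open scoped ContDiff ComplexConjugate ComplexOrder Manifold Matrix

namespace Pool.Agent.Helper35.SP

open Pool.Agent.Helper95.Lin Pool.Agent.Helper16.Abund Pool.Agent.Helper92.Orb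
open Pool.Agent.Helper10.SP

universe u

/-- The imaginary part of the first coordinate. -/
noncomputable def imL : Cn 1 →L[ℝ] ℝ := Complex.imCLM.comp (ContinuousLinearMap.proj 0)

theorem imL_apply (y : Cn 1) : imL y = (y 0).im := rfl

theorem lev_base {y : Cn 1} (hy : 0 < (y 0).im) (v : Cn 1) :
    lev (fun y : Cn 1 => -Real.log (y 0).im) y v = ‖v 0‖ ^ 2 / (y 0).im ^ 2 := by
  have h1 : ∀ y : Cn 1, 0 < (y 0).im → ∀ v : Cn 1,
      fderiv ℝ (fun y : Cn 1 => -Real.log (y 0).im) y v = -((imL y)⁻¹ * imL v) := by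
    intro y hy v
    have h2 : HasFDerivAt (fun y : Cn 1 => -Real.log (imL y)) (-((imL y)⁻¹ • imL)) y := by
      have := (imL.hasFDerivAt (x := y)).log (by rw [imL_apply]; exact hy.ne')
      exact this.neg
    have h3 : (fun y : Cn 1 => -Real.log (y 0).im) = fun y : Cn 1 => -Real.log (imL y) := rfl
    rw [h3, h2.fderiv]
    rfl
  have hopen : IsOpen {y : Cn 1 | 0 < (y 0).im} :=
    isOpen_lt continuous_const (Complex.continuous_im.comp (continuous_apply 0))
  have h2 : ∀ u v : Cn 1, hess (fun y : Cn 1 => -Real.log (y 0).im) y u v =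
      imL u * imL v / (y 0).im ^ 2 := by
    intro u v
    unfold hess
    have h3 : (fun y => fderiv ℝ (fun y : Cn 1 => -Real.log (y 0).im) y v) =ᶠ[𝓝 y]
        fun y => -((imL y)⁻¹ * imL v) := by
      filter_upwards [hopen.mem_nhds hy] with y' hy' using h1 y' hy' v
    rw [h3.fderiv_eq]
    have hne : imL y ≠ 0 := by rw [imL_apply]; exact hy.ne'
    have h4 : HasFDerivAt (fun y : Cn 1 => -((imL y)⁻¹ * imL v))
        (-((imL v) • (-((imL y ^ 2)⁻¹) • imL))) y := by
      have h5 : HasFDerivAt (fun y : Cn 1 => (imL y)⁻¹) (-((imL y ^ 2)⁻¹) • imL) y := by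
        have h6 := (hasDerivAt_inv hne).comp_hasFDerivAt y (imL.hasFDerivAt (x := y))
        exact h6
      exact (h5.mul_const (imL v)).neg
    rw [h4.fderiv]
    simp only [neg_apply, smul_apply, smul_eq_mul, imL_apply]
    field_simp
  unfold lev
  rw [h2, h2, imL_apply, imL_apply]
  have h7 : ((I • v) 0).im = (v 0).re := by simp
  rw [h7, Complex.sq_norm, Complex.normSq_apply]
  ring

/-- The Levi form of `-log Im τ`. -/
theorem lev_logIm {b : ℕ} {D : Set (Cn b)} (hD : IsOpen D) {τ : Cn b → ℂ}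
    (hτ : DifferentiableOn ℂ τ D) (him : ∀ z ∈ D, 0 < (τ z).im) :
    ContDiffOn ℝ ∞ (fun z => -Real.log (τ z).im) D ∧ ∀ z ∈ D, ∀ e,
      lev (fun z => -Real.log (τ z).im) z e = ‖fderiv ℂ τ z e‖ ^ 2 / (τ z).im ^ 2 := by
  have hopen : IsOpen {y : Cn 1 | 0 < (y 0).im} :=
    isOpen_lt continuous_const (Complex.continuous_im.comp (continuous_apply 0))
  have hs : ContDiffOn ℝ ∞ (fun y : Cn 1 => -Real.log (y 0).im) {y : Cn 1 | 0 < (y 0).im} := by
    have h1 : ContDiffOn ℝ ∞ (fun y : Cn 1 => imL y) {y : Cn 1 | 0 < (y 0).im} :=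
      imL.contDiff.contDiffOn
    exact (h1.log fun y hy => (ne_of_gt hy)).neg
  obtain ⟨σ, hσ⟩ : ∃ σ : Cn b → Cn 1, σ = fun z => fun _ => τ z := ⟨_, rfl⟩
  have hσd : DifferentiableOn ℂ σ D := by
    rw [hσ]
    exact differentiableOn_pi.2 fun _ => hτ
  have hm : MapsTo σ D {y : Cn 1 | 0 < (y 0).im} := by
    intro z hz
    rw [hσ]
    exact him z hz
  have hcomp : (fun z => -Real.log (τ z).im) = (fun y : Cn 1 => -Real.log (y 0).im) ∘ σ := by
    rw [hσ]
    rfl
  refine ⟨?_, ?_⟩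
  · rw [hcomp]
    exact hs.comp (holo_contDiffOn_real hD hσd) hm
  · intro z hz e
    rw [hcomp, ((Pool.Agent.Helper59.SP.wch.1 _ D hopen hD σ hσd hm).2 _ hs z hz).1 e,
      lev_base (hm hz)]
    have h1 : fderiv ℂ σ z e 0 = fderiv ℂ τ z e := by
      have h2 : HasFDerivAt τ (fderiv ℂ τ z) z :=
        ((hτ z hz).differentiableAt (hD.mem_nhds hz)).hasFDerivAt
      have h3 : HasFDerivAt σ (ContinuousLinearMap.pi fun _ => fderiv ℂ τ z) z := by
        rw [hσ]
        exact hasFDerivAt_pi.2 fun _ => h2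
      rw [h3.fderiv]
      rfl
    have h4 : σ z 0 = τ z := by rw [hσ]
    rw [h1, h4]

theorem hess_neg' {n : ℕ} (f : Cn n → ℝ) (x u v : Cn n) :
    hess (fun y => -f y) x u v = -hess f x u v := by
  unfold hess
  have h1 : (fun y => fderiv ℝ (fun y => -f y) y v) = fun y => -(fderiv ℝ f y v) := by
    funext y
    rw [fderiv_fun_neg]
    rfl
  rw [h1, fderiv_fun_neg]
  rfl

theorem lev_neg' {n : ℕ} (f : Cn n → ℝ) (x e : Cn n) :
    lev (fun y => -f y) x e = -lev f x e := by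
  unfold lev
  rw [hess_neg', hess_neg']
  ring

/-- A quadratic polynomial with infinitely many zeros. -/
theorem quad_zero {S : Set ℂ} (hS : S.Infinite) {a b c : ℂ}
    (h : ∀ t ∈ S, a + b * t + c * t ^ 2 = 0) : a = 0 ∧ b = 0 ∧ c = 0 := by
  obtain ⟨p, hp⟩ : ∃ p : Polynomial ℂ, p = Polynomial.C a + Polynomial.C b * Polynomial.X +
      Polynomial.C c * Polynomial.X ^ 2 := ⟨_, rfl⟩
  have h0 : p = 0 := by
    refine Polynomial.eq_zero_of_infinite_isRoot p (hS.mono ?_)
    intro t ht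
    change p.IsRoot t
    rw [Polynomial.IsRoot, hp]
    simpa using h t ht
  have c0 := congrArg (fun p => Polynomial.coeff p 0) h0
  have c1 := congrArg (fun p => Polynomial.coeff p 1) h0
  have c2 := congrArg (fun p => Polynomial.coeff p 2) h0
  rw [hp] at c0 c1 c2
  refine ⟨?_, ?_, ?_⟩
  · simpa [Polynomial.coeff_X, Polynomial.coeff_C, Polynomial.coeff_X_pow] using c0
  · simpa [Polynomial.coeff_X, Polynomial.coeff_C, Polynomial.coeff_X_pow] using c1
  · simpa [Polynomial.coeff_X, Polynomial.coeff_C, Polynomial.coeff_X_pow] using c2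

/-- The relation between the polynomials of two commuting fields. -/
theorem wron {b : ℕ} {D : Set (Cn b)} (hD : IsOpen D) {τ : Cn b → ℂ} {V W : Cn b → Cn b}
    (hτ : DifferentiableOn ℂ τ D) (hV : DifferentiableOn ℂ V D) (hW : DifferentiableOn ℂ W D)
    (hcomm : ∀ z ∈ D, fderiv ℂ W z (V z) = fderiv ℂ V z (W z)) {p q r p' q' r' : ℂ}
    (h1 : ∀ z ∈ D, fderiv ℂ τ z (V z) = p + q * τ z + r * τ z ^ 2)
    (h2 : ∀ z ∈ D, fderiv ℂ τ z (W z) = p' + q' * τ z + r' * τ z ^ 2) :
    ∀ z ∈ D, (p * q' - p' * q) + 2 * (p * r' - p' * r) * τ z + (q * r' - q' * r) * τ z ^ 2 = 0 := by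
  intro z hz
  have hτz : HasFDerivAt τ (fderiv ℂ τ z) z :=
    ((hτ z hz).differentiableAt (hD.mem_nhds hz)).hasFDerivAt
  have hVz : HasFDerivAt V (fderiv ℂ V z) z :=
    ((hV z hz).differentiableAt (hD.mem_nhds hz)).hasFDerivAt
  have hWz : HasFDerivAt W (fderiv ℂ W z) z :=
    ((hW z hz).differentiableAt (hD.mem_nhds hz)).hasFDerivAt
  have hA : HasFDerivAt (fderiv ℂ τ) (fderiv ℂ (fderiv ℂ τ) z) z :=
    ((holo_fderiv hD hτ).differentiableAt (hD.mem_nhds hz)).hasFDerivAt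
  have hsymm : fderiv ℂ (fderiv ℂ τ) z (V z) (W z) = fderiv ℂ (fderiv ℂ τ) z (W z) (V z) := by
    have h3 : ContDiffAt ℂ 2 τ z := by
      have h4 := (holo_contDiffOn_nat hD 2 hτ).contDiffAt (hD.mem_nhds hz)
      exact_mod_cast h4
    exact (h3.isSymmSndFDerivAt (by simp)) (V z) (W z)
  have key : ∀ (X : Cn b → Cn b) (X' : Cn b →L[ℂ] Cn b) (Y : Cn b) (a b' c : ℂ),
      HasFDerivAt X X' z → (∀ z ∈ D, fderiv ℂ τ z (X z) = a + b' * τ z + c * τ z ^ 2) →
      fderiv ℂ (fderiv ℂ τ) z Y (X z) + fderiv ℂ τ z (X' Y) =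
        (b' + 2 * c * τ z) * fderiv ℂ τ z Y := by
    intro X X' Y a b' c hX hrel
    have e1 := (hA.clm_apply hX)
    have e2 : HasFDerivAt (fun z => a + b' * τ z + c * τ z ^ 2)
        (b' • fderiv ℂ τ z + c • ((2 * τ z) • fderiv ℂ τ z)) z := by
      have e3 := ((hτz.const_mul b').const_add a).add ((hτz.pow 2).const_mul c)
      refine e3.congr_fderiv ?_
      simp
    have e4 : (fun z => fderiv ℂ τ z (X z)) =ᶠ[𝓝 z] fun z => a + b' * τ z + c * τ z ^ 2 := by
      filter_upwards [hD.mem_nhds hz] with y hy using hrel y hy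
    have e5 := e1.unique (e2.congr_of_eventuallyEq e4)
    have e6 := congrArg (fun L : Cn b →L[ℂ] ℂ => L Y) e5
    simp at e6
    rw [add_comm, e6]
    ring
  have k1 := key W _ (V z) p' q' r' hWz h2
  have k2 := key V _ (W z) p q r hVz h1
  rw [hcomm z hz, hsymm] at k1
  rw [k1, h1 z hz, h2 z hz] at k2
  linear_combination k2

/-- RK1. -/
theorem rk1 (hDETC : S_DETC.{u}) (hTAUB : S_TAUB) (hVTAU : S_VTAU) : S_RK1.{u} := by
  intro b N G _ c R Rel P Φ C H hF lam hPer m V hCF hz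
  have hA := hF.fol
  obtain ⟨t1, t2, t3⟩ := hTAUB c P lam hPer
  have hBd3 : IsOpen (Bd c 3) := isOpen_iUnion fun i => isOpen_ball
  have hBd2 : IsOpen (Bd c 2) := isOpen_iUnion fun i => isOpen_ball
  have h23 : Bd c 2 ⊆ Bd c 3 := iUnion_mono fun i => ball_subset_ball (by norm_num)
  have hR16 : 16 ≤ R := by
    have := hA.Rge
    have := hA.Cge
    linarith
  have h2R : Bd c 2 ⊆ Bd c R := iUnion_mono fun i => ball_subset_ball (by linarith)
  have hballs : ∀ i, ball (c i) 3 ⊆ Bd c 3 := fun i => subset_iUnion (fun i => ball (c i) 3) i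
  obtain ⟨i₀⟩ : Nonempty (Fin N) := ⟨⟨0, hA.posN⟩⟩
  -- `m = 1`
  have hm1 : m = 1 := by
    by_contra hne
    have hm : 1 < m := by
      have := hCF.pos
      omega
    obtain ⟨k, l, hkl⟩ : ∃ k l : Fin m, k ≠ l := ⟨⟨0, by omega⟩, ⟨1, hm⟩, by simp [Fin.ext_iff]⟩
    have hsum : ∀ (j : Fin m) (z : Cn b), ∑ k, (((Pi.single j 1 : Fin m → ℝ) k : ℝ) : ℂ) • V k z =
        V j z := by
      intro j z
      rw [Finset.sum_eq_single j]
      · simp
      · intro k _ hk
        simp [hk]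
      · simp
    have hpoly : ∀ j : Fin m, ∃ p q r : ℝ, ∀ z ∈ ball (c i₀) 3,
        fderiv ℂ (tau lam) z (V j z) = p + q * tau lam z + r * tau lam z ^ 2 := by
      intro j
      obtain ⟨p, q, r, h⟩ := hVTAU c R P Φ C hA lam hPer i₀ _
        (hCF.gen i₀ (Pi.single j 1 : Fin m → ℝ))
      refine ⟨p, q, r, fun z hz' => ?_⟩
      have := h z hz'
      rwa [hsum j z] at this
    obtain ⟨p, q, r, hk⟩ := hpoly k
    obtain ⟨p', q', r', hl⟩ := hpoly l
    have hτd : DifferentiableOn ℂ (tau lam) (ball (c i₀) 3) := t2.mono (hballs i₀)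
    -- the values of `τ` are infinitely many
    have hinf : ((tau lam) '' ball (c i₀) 3).Infinite := by
      have hpre : IsPreconnected ((tau lam) '' ball (c i₀) 3) :=
        (convex_ball (c i₀) 3).isPreconnected.image _ hτd.continuousOn
      refine hpre.infinite_of_nontrivial ?_
      by_contra hnt
      rw [Set.not_nontrivial_iff] at hnt
      have hconst : ∀ z ∈ ball (c i₀) 3, fderiv ℂ (tau lam) z = 0 := by
        intro z hz'
        have h1 : (tau lam) =ᶠ[𝓝 z] fun _ => tau lam z := by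
          filter_upwards [isOpen_ball.mem_nhds hz'] with y hy
          exact hnt (mem_image_of_mem _ hy) (mem_image_of_mem _ hz')
        rw [h1.fderiv_eq, fderiv_fun_const]
        rfl
      have h2 := hz i₀ (Pi.single k 1) fun z hz' => by
        rw [hconst z hz']
        rfl
      have h3 := congrFun h2 k
      simp at h3
    have hw := wron isOpen_ball hτd ((hCF.holo k).mono (hballs i₀))
      ((hCF.holo l).mono (hballs i₀)) (fun z hz' => hCF.comm z (hballs i₀ hz') k l) hk hl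
    obtain ⟨w0, w1, w2⟩ := quad_zero hinf (a := (p * q' - p' * q : ℂ))
      (b := (2 * (p * r' - p' * r) : ℂ)) (c := (q * r' - q' * r : ℂ)) (by
        rintro _ ⟨z, hz', rfl⟩
        have := hw z hz'
        linear_combination this)
    have e0 : p * q' - p' * q = 0 := by exact_mod_cast w0
    have e1 : p * r' - p' * r = 0 := by
      have h1 : (2 : ℂ) * (p * r' - p' * r) = 0 := w1
      have h2 : ((p * r' - p' * r : ℝ) : ℂ) = 0 := by
        push_cast
        linear_combination h1 / 2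
      exact_mod_cast h2
    have e2 : q * r' - q' * r = 0 := by exact_mod_cast w2
    -- real combinations in the kernel
    have hker : ∀ α β : ℝ, α * p + β * p' = 0 → α * q + β * q' = 0 → α * r + β * r' = 0 →
        α = 0 ∧ β = 0 := by
      intro α β f0 f1 f2
      have h1 := hz i₀ (α • Pi.single k 1 + β • Pi.single l 1) fun z hz' => by
        have h2 : ∑ j, (((α • Pi.single k 1 + β • Pi.single l 1 : Fin m → ℝ) j : ℝ) : ℂ) • V j z =
            (α : ℂ) • V k z + (β : ℂ) • V l z := by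
          rw [← hsum k z, ← hsum l z, Finset.smul_sum, Finset.smul_sum, ← Finset.sum_add_distrib]
          refine Finset.sum_congr rfl fun j _ => ?_
          rw [smul_smul, smul_smul, ← add_smul]
          simp
        rw [h2, map_add, map_smul, map_smul, hk z hz', hl z hz']
        simp only [smul_eq_mul]
        have g0 : (α * p + β * p' : ℂ) = 0 := by exact_mod_cast f0
        have g1 : (α * q + β * q' : ℂ) = 0 := by exact_mod_cast f1
        have g2 : (α * r + β * r' : ℂ) = 0 := by exact_mod_cast f2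
        linear_combination g0 + g1 * tau lam z + g2 * tau lam z ^ 2
      have hα := congrFun h1 k
      have hβ := congrFun h1 l
      simp [hkl, hkl.symm] at hα hβ
      exact ⟨hα, hβ⟩
    obtain ⟨a1, a2⟩ := hker p' (-p) (by ring) (by linarith) (by linarith)
    obtain ⟨b1, b2⟩ := hker q' (-q) (by linarith) (by ring) (by linarith)
    obtain ⟨c1, c2⟩ := hker r' (-r) (by linarith) (by linarith) (by ring)
    obtain ⟨d1, -⟩ := hker 1 0 (by linarith) (by linarith) (by linarith)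
    exact one_ne_zero d1
  subst hm1
  obtain ⟨u, hu1, hu2, hu3⟩ := hDETC c R Rel P Φ C H hF 1 V hCF
  obtain ⟨h, hh⟩ : ∃ h : Cn b → ℂ, h = fun z => fderiv ℂ (tau lam) z (V 0 z) := ⟨_, rfl⟩
  have hhd : DifferentiableOn ℂ h (Bd c 3) := by
    rw [hh]
    exact (holo_fderiv hBd3 t2).clm_apply (hCF.holo 0)
  obtain ⟨E, hE⟩ : ∃ E : Cn b → ℝ, E = fun z => ‖h z‖ / (tau lam z).im * Real.exp (-u z) :=
    ⟨_, rfl⟩
  have him : ∀ z ∈ Bd c 3, 0 < (tau lam z).im := fun z hz' => (t1 z hz').2.1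
  -- invariance
  have hinv : ∀ U t, PB c P U t → ∀ z ∈ U, E (t.g z) = E z := by
    intro U t hPB z hzU
    obtain ⟨hP, hU2, hmaps⟩ := hPB
    obtain ⟨hUo, -, hgd, -, -, hga⟩ := hA.holo U t hP
    have hz2 := hU2 hzU
    have hgz2 := hmaps hzU
    obtain ⟨A, U', hAdet, hU'o, hzU', -, hArel⟩ := hCF.trans U t hP z hzU hz2 hgz2
    obtain ⟨-, hulog⟩ := hu3 U t ⟨hP, hU2, hmaps⟩ z hzU A (by
      filter_upwards [hU'o.mem_nhds hzU'] with z' hz' using hArel z' hz')
    obtain ⟨Q, U'', hQdet, hU''o, hzU'', -, hQrel⟩ := hPer.trans U t hP z hzU hz2 hgz2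
    obtain ⟨-, hq, -, hImz, hder, -⟩ := t3 t Q z (h23 hz2) (h23 hgz2)
      ((hgd z hzU).differentiableAt (hUo.mem_nhds hzU)) (by
        filter_upwards [hU''o.mem_nhds hzU''] with z' hz' using hQrel z' hz') (hga z hzU).2
    have hAd : A.det = A 0 0 := Matrix.det_fin_one A
    rw [hAd] at hAdet hulog
    have hV0 := hArel z hzU' 0
    rw [Fin.sum_univ_one] at hV0
    have hhz : h z = Q.det / ((Q 0 0 : ℂ) + Q 1 0 * tau lam (t.g z)) ^ 2 *
        ((A 0 0 : ℂ) * h (t.g z)) := by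
      rw [hh]
      simp only
      rw [hder, hV0, map_smul, smul_eq_mul]
    set q := (Q 0 0 : ℂ) + Q 1 0 * tau lam (t.g z) with hqdef
    have hqn : 0 < ‖q‖ := norm_pos_iff.2 hq
    have hnz : ‖h z‖ = Q.det / ‖q‖ ^ 2 * (|A 0 0| * ‖h (t.g z)‖) := by
      rw [hhz, norm_mul, norm_mul, norm_div, norm_pow, Complex.norm_real, Complex.norm_real,
        Real.norm_eq_abs, Real.norm_eq_abs, abs_of_pos hQdet]
    have hIm0 := him _ (h23 hgz2)
    have hexp : Real.exp (-u (t.g z)) = Real.exp (-u z) * |A 0 0| := by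
      have h1 : -u (t.g z) = -u z + Real.log |A 0 0| := by linarith
      rw [h1, Real.exp_add, Real.exp_log (abs_pos.2 hAdet)]
    rw [hE]
    simp only
    rw [hexp, hnz, hImz]
    field_simp
  -- the maximum
  have hEc : ContinuousOn E (Bd c 2) := by
    rw [hE]
    refine ContinuousOn.mul (ContinuousOn.div ?_ ?_ ?_) ?_
    · exact (hhd.continuousOn.mono h23).norm
    · exact Complex.continuous_im.comp_continuousOn (t2.continuousOn.mono h23)
    · exact fun z hz' => (him z (h23 hz')).ne'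
    · exact Real.continuous_exp.comp_continuousOn hu1.continuousOn.neg
  have hE0 : ∀ z ∈ Bd c 2, 0 ≤ E z := by
    intro z hz'
    rw [hE]
    have := him z (h23 hz')
    positivity
  have hKc : IsCompact (⋃ i, closedBall (c i) 1) :=
    isCompact_iUnion fun i => isCompact_closedBall _ _
  have hK2 : (⋃ i, closedBall (c i) 1) ⊆ Bd c 2 :=
    iUnion_mono fun i => closedBall_subset_ball (by norm_num)
  obtain ⟨z₁, hz₁K, hz₁⟩ := hKc.exists_isMaxOn
    ⟨c i₀, mem_iUnion.2 ⟨i₀, mem_closedBall_self zero_le_one⟩⟩ (hEc.mono hK2)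
  have hz₁2 := hK2 hz₁K
  have hmax : ∀ z ∈ Bd c 2, E z ≤ E z₁ := by
    intro z hz2
    obtain ⟨U, t, hP, hzU, hg1, -⟩ := hA.coc z (h2R hz2) 0
    obtain ⟨hUo, -, hgd, -, -, hga⟩ := hA.holo U t hP
    have h12 : Bd c 1 ⊆ Bd c 2 := iUnion_mono fun i => ball_subset_ball (by norm_num)
    have hUo' : IsOpen ((U ∩ t.g ⁻¹' Bd c 2) ∩ Bd c 2) :=
      (hgd.continuousOn.isOpen_inter_preimage hUo hBd2).inter hBd2
    have hPB : PB c P ((U ∩ t.g ⁻¹' Bd c 2) ∩ Bd c 2) t :=
      ⟨hA.mono U _ t hP hUo' fun y hy => hy.1.1, inter_subset_right, fun y hy => hy.1.2⟩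
    rw [← hinv _ t hPB z ⟨⟨hzU, h12 hg1⟩, hz2⟩]
    refine hz₁ ?_
    exact iUnion_mono (fun i => ball_subset_closedBall) hg1
  have hpos : 0 < E z₁ := by
    by_contra hneg
    push Not at hneg
    have h1 : ∀ z ∈ ball (c i₀) 2, h z = 0 := by
      intro z hz'
      have hz2 : z ∈ Bd c 2 := mem_iUnion.2 ⟨i₀, hz'⟩
      have h2 : E z = 0 := le_antisymm ((hmax z hz2).trans hneg) (hE0 z hz2)
      rw [hE] at h2
      have h3 := him z (h23 hz2)
      have h4 := Real.exp_pos (-u z)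
      have h5 : ‖h z‖ = 0 := by
        rcases mul_eq_zero.1 h2 with h6 | h6
        · rcases div_eq_zero_iff.1 h6 with h7 | h7
          · exact h7
          · exact absurd h7 h3.ne'
        · exact absurd h6 h4.ne'
      exact norm_eq_zero.1 h5
    have h2 : EqOn h (fun _ => 0) (ball (c i₀) 3) :=
      idt (hhd.mono (hballs i₀)) (differentiableOn_const _) (mem_ball_self (by norm_num)) (by
        filter_upwards [ball_mem_nhds (c i₀) (by norm_num : (0 : ℝ) < 2)] with z hz' using h1 z hz')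
    have h3 := hz i₀ (fun _ => 1) fun z hz' => by
      have h4 := h2 hz'
      rw [hh] at h4
      rw [Fin.sum_univ_one]
      simpa using h4
    have h4 := congrFun h3 0
    simp at h4
  -- the Levi form at the maximum
  have hhz₁ : h z₁ ≠ 0 := by
    intro h0
    rw [hE] at hpos
    simp [h0] at hpos
  obtain ⟨D', hD'⟩ : ∃ D', D' = Bd c 2 ∩ h ⁻¹' {0}ᶜ := ⟨_, rfl⟩
  have hD'o : IsOpen D' := by
    rw [hD']
    exact (hhd.continuousOn.mono h23).isOpen_inter_preimage hBd2 isOpen_compl_singleton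
  have hz₁D : z₁ ∈ D' := by
    rw [hD']
    exact ⟨hz₁2, hhz₁⟩
  have hD'2 : D' ⊆ Bd c 2 := by
    rw [hD']
    exact inter_subset_left
  have hD'n : ∀ z ∈ D', h z ≠ 0 := by
    rw [hD']
    exact fun z hz' => hz'.2
  obtain ⟨g1, g1'⟩ := Pool.Agent.Helper59.SP.wch.2 D' hD'o h
    ((hhd.mono h23).mono hD'2) hD'n
  obtain ⟨g2, g2'⟩ := lev_logIm hD'o ((t2.mono h23).mono hD'2)
    (fun z hz' => him z (h23 (hD'2 hz')))
  have g3 : ContDiffOn ℝ ∞ (fun z => -u z) D' := (hu1.mono hD'2).neg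
  have s1 := g2.add g2
  have s2 := g3.add g3
  have s3 := s1.add s2
  have s4 := g1.add s3
  have hlog : ∀ z ∈ D', Real.log (‖h z‖ ^ 2) + ((-Real.log (tau lam z).im +
      -Real.log (tau lam z).im) + (-u z + -u z)) = 2 * Real.log (E z) := by
    intro z hz'
    have h1 := him z (h23 (hD'2 hz'))
    have h2 := norm_pos_iff.2 (hD'n z hz')
    rw [hE]
    simp only
    rw [Real.log_mul (by positivity) (by positivity), Real.log_div (by positivity) (by positivity),
      Real.log_exp, Real.log_pow]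
    push_cast
    ring
  have hEpos : ∀ z ∈ D', 0 < E z := by
    intro z hz'
    have h1 := him z (h23 (hD'2 hz'))
    have h2 := norm_pos_iff.2 (hD'n z hz')
    rw [hE]
    positivity
  have hloc : IsLocalMax (fun z => Real.log (‖h z‖ ^ 2) + ((-Real.log (tau lam z).im +
      -Real.log (tau lam z).im) + (-u z + -u z))) z₁ := by
    filter_upwards [hD'o.mem_nhds hz₁D] with z hz'
    rw [hlog z hz', hlog z₁ hz₁D]
    have := Real.log_le_log (hEpos z hz') (hmax z (hD'2 hz'))
    linarith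
  have hle := Pool.Agent.Helper8.SP.lev_nonpos (f := fun z => Real.log (‖h z‖ ^ 2) +
      ((-Real.log (tau lam z).im + -Real.log (tau lam z).im) + (-u z + -u z)))
    ((s4.contDiffAt (hD'o.mem_nhds hz₁D)).of_le
      (WithTop.coe_le_coe.2 (le_top : (2 : ℕ∞) ≤ ⊤))) hloc (V 0 z₁)
  rw [Pool.Agent.Helper86.SP.lev_add hD'o g1 s3 hz₁D,
    Pool.Agent.Helper86.SP.lev_add hD'o s1 s2 hz₁D,
    Pool.Agent.Helper86.SP.lev_add hD'o g2 g2 hz₁D,
    Pool.Agent.Helper86.SP.lev_add hD'o g3 g3 hz₁D, (g1' z₁ hz₁D).1, g2' z₁ hz₁D,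
    lev_neg', hu2 z₁ hz₁2] at hle
  have h1 : fderiv ℂ (tau lam) z₁ (V 0 z₁) = h z₁ := by rw [hh]
  rw [h1] at hle
  have h2 := him z₁ (h23 hz₁2)
  have h3 := norm_pos_iff.2 hhz₁
  have h4 : 0 < ‖h z₁‖ ^ 2 / (tau lam z₁).im ^ 2 := by positivity
  linarith

end Pool.Agent.Helper35.SP
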