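import Pool.Agent.Helper45.SP.GoalsG
import Pool.Agent.Helper35.SP.PAX

/-! # The linearization of the commutator -/

open Complex Metric Set Filter Topology
open scoped ContDiff ComplexConjugate

namespace Pool.Agent.Helper35.SP

open Pool.Agent.Helper95.Lin Pool.Agent.Helper10.SP Pool.Agent.Helper45.SP

variable {b : ℕ} {z₀ : Cn b} {r : ℝ} {A : Set (Tri b)}

theorem nL_bdd (hr : 0 < r) {V : Cn b → Cn b} (hV : DifferentiableOn ℂ V (ball z₀ r)) :
    BddAbove ((fun z => ‖V z‖) '' ball z₀ (r / 2)) := by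
  have hsub : closedBall z₀ (r / 2) ⊆ ball z₀ r := closedBall_subset_ball (by linarith)
  obtain ⟨C, hC⟩ := (isCompact_closedBall z₀ (r / 2)).exists_bound_of_continuousOn
    (hV.continuousOn.mono hsub)
  refine ⟨C, ?_⟩
  rintro _ ⟨z, hz, rfl⟩
  exact hC z (ball_subset_closedBall hz)

theorem le_nL (hr : 0 < r) {V : Cn b → Cn b} (hV : DifferentiableOn ℂ V (ball z₀ r)) {z : Cn b}
    (hz : z ∈ ball z₀ (r / 2)) : ‖V z‖ ≤ nL z₀ r V :=
  le_csSup (nL_bdd hr hV) ⟨z, hz, rfl⟩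

theorem nL_le (hr : 0 < r) {V : Cn b → Cn b} {M : ℝ} (h : ∀ z ∈ ball z₀ (r / 2), ‖V z‖ ≤ M) :
    nL z₀ r V ≤ M := by
  refine csSup_le ⟨_, z₀, mem_ball_self (by positivity), rfl⟩ ?_
  rintro _ ⟨z, hz, rfl⟩
  exact h z hz

theorem nL_nonneg (hr : 0 < r) {V : Cn b → Cn b} (hV : DifferentiableOn ℂ V (ball z₀ r)) :
    0 ≤ nL z₀ r V :=
  (norm_nonneg _).trans (le_nL hr hV (mem_ball_self (by positivity)))

/-- Second order Taylor estimate for maps near the identity. -/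
theorem taylor {f : Cn b → Cn b} {η : ℝ} (hr : 0 < r)
    (hf : DifferentiableOn ℂ f (ball z₀ (r / 2))) (hn : Near z₀ (r / 2) f η) {x y : Cn b}
    (hx : x ∈ ball z₀ (r / 3)) (hxy : ‖y - x‖ < r / 36) :
    ‖f y - f x - fderiv ℂ f x (y - x)‖ ≤ η / (r / 36) / (r / 36) * ‖y - x‖ * ‖y - x‖ := by
  have hr36 : 0 < r / 36 := by positivity
  have hball : ∀ w ∈ ball x (6 * (r / 36)), w ∈ ball z₀ (r / 2) := by
    intro w hw
    rw [mem_ball] at *
    calc dist w z₀ ≤ dist w x + dist x z₀ := dist_triangle _ _ _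
      _ < 6 * (r / 36) + r / 3 := add_lt_add hw hx
      _ = r / 2 := by ring
  have hf0 : DifferentiableOn ℂ (fun z => f z - z) (ball x (6 * (r / 36))) :=
    (hf.mono hball).sub differentiableOn_id
  have hbound : ∀ u ∈ ball x (6 * (r / 36)), ‖f u - u‖ ≤ η := fun u hu => hn u (hball u hu)
  have hfd : ∀ w ∈ ball x (r / 36), fderiv ℂ (fun z => f z - z) w =
      fderiv ℂ f w - ContinuousLinearMap.id ℂ (Cn b) := by
    intro w hw
    have hw' : w ∈ ball z₀ (r / 2) := hball w (ball_subset_ball (by linarith) hw)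
    have h1 : DifferentiableAt ℂ f w := (hf w hw').differentiableAt (isOpen_ball.mem_nhds hw')
    have := (h1.hasFDerivAt.sub (hasFDerivAt_id w)).fderiv
    exact this
  have hs : closedBall x ‖y - x‖ ⊆ ball x (r / 36) := closedBall_subset_ball hxy
  have hxx : x ∈ closedBall x ‖y - x‖ := mem_closedBall_self (norm_nonneg _)
  have hyx : y ∈ closedBall x ‖y - x‖ := by
    rw [mem_closedBall, dist_eq_norm]
  have hη : 0 ≤ η / (r / 36) / (r / 36) := by
    have : 0 ≤ η := (norm_nonneg _).trans (hbound x (mem_ball_self (by positivity)))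
    positivity
  refine Convex.norm_image_sub_le_of_norm_hasFDerivWithin_le' (𝕜 := ℂ)
    (s := closedBall x ‖y - x‖) (f' := fderiv ℂ f) (φ := fderiv ℂ f x)
    (C := η / (r / 36) / (r / 36) * ‖y - x‖) ?_ ?_ (convex_closedBall _ _) hxx hyx
  · intro w hw
    have hw' : w ∈ ball z₀ (r / 2) := hball w (ball_subset_ball (by linarith) (hs hw))
    exact ((hf w hw').differentiableAt (isOpen_ball.mem_nhds hw')).hasFDerivAt.hasFDerivWithinAt
  · intro w hw
    have h1 := Pool.Agent.Helper8.Abund.norm_fderiv_sub_le hr36 hf0 hbound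
      (mem_ball_self hr36) (hs hw)
    rw [hfd w (hs hw), hfd x (mem_ball_self hr36), sub_sub_sub_cancel_right] at h1
    refine h1.trans ?_
    have h2 : ‖w - x‖ ≤ ‖y - x‖ := by
      rw [mem_closedBall, dist_eq_norm] at hw
      exact hw
    gcongr

/-- Lipschitz estimate. -/
theorem lipV {V : Cn b → Cn b} {ρ ρ' M : ℝ} (hρ : ρ < ρ') (hV : DifferentiableOn ℂ V (ball z₀ ρ'))
    (hM : ∀ z ∈ ball z₀ ρ', ‖V z‖ ≤ M) {x y : Cn b} (hx : x ∈ ball z₀ ρ) (hy : y ∈ ball z₀ ρ) :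
    ‖V y - V x‖ ≤ M / ((ρ' - ρ) / 2) * ‖y - x‖ := by
  have hpos : 0 < (ρ' - ρ) / 2 := by linarith
  refine Convex.norm_image_sub_le_of_norm_fderiv_le (𝕜 := ℂ) (s := ball z₀ ρ) ?_ ?_
    (convex_ball _ _) hx hy
  · intro w hw
    have hw' : w ∈ ball z₀ ρ' := ball_subset_ball hρ.le hw
    exact (hV w hw').differentiableAt (isOpen_ball.mem_nhds hw')
  · intro w hw
    have hsub : ball w (2 * ((ρ' - ρ) / 2)) ⊆ ball z₀ ρ' := by
      intro u hu
      rw [mem_ball] at *
      calc dist u z₀ ≤ dist u w + dist w z₀ := dist_triangle _ _ _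
        _ < 2 * ((ρ' - ρ) / 2) + ρ := add_lt_add hu hw
        _ = ρ' := by ring
    exact Pool.Agent.Helper8.Abund.norm_fderiv_le_of_bound hpos (hV.mono hsub)
      (fun u hu => hM u (hsub hu))

/-- STEP. -/
theorem STEP (hSURJ : S_SURJ) (hLNCMP : S_LNCMP) (hLADD : S_LADD') : S_STEP := by
  intro b z₀ r A hA
  have hr := hA.pos
  obtain ⟨η₁, hη₁, hS1⟩ := hSURJ z₀ (7 * r / 24) (r / 3) (by linarith) 1 one_pos
  obtain ⟨η₂, hη₂, hS2⟩ := hSURJ z₀ (3 * r / 8) (2 * r / 5) (by linarith) 1 one_pos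
  obtain ⟨η₃, hη₃, hS3⟩ := hSURJ z₀ (2 * r / 5) (r / 2) (by linarith) 1 one_pos
  obtain ⟨η₄, hη₄, hS4⟩ := hSURJ z₀ (r / 4) (7 * r / 24) (by linarith) 1 one_pos
  obtain ⟨CN, hCN, hN⟩ := hLNCMP hA z₀ (r / 4) (by positivity)
    (ball_subset_ball (by linarith)) (r / 2) (by linarith)
  obtain ⟨η, hηdef⟩ : ∃ η, η = min (min η₁ η₂) (min η₃ (r / 12)) := ⟨_, rfl⟩
  have hη : 0 < η := by
    rw [hηdef]
    exact lt_min (lt_min hη₁ hη₂) (lt_min hη₃ (by positivity))
  have l1 : η ≤ η₁ := by rw [hηdef]; exact (min_le_left _ _).trans (min_le_left _ _)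
  have l2 : η ≤ η₂ := by rw [hηdef]; exact (min_le_left _ _).trans (min_le_right _ _)
  have l3 : η ≤ η₃ := by rw [hηdef]; exact (min_le_right _ _).trans (min_le_left _ _)
  have l4 : η ≤ r / 12 := by rw [hηdef]; exact (min_le_right _ _).trans (min_le_right _ _)
  obtain ⟨K, hK⟩ : ∃ K, K = 4 * (η / (r / 36) / (r / 36)) + 120 / r := ⟨_, rfl⟩
  have hKpos : 0 < K := by rw [hK]; positivity
  refine ⟨η, hη, ?_⟩
  intro κ hκ
  obtain ⟨κ', hκ'⟩ : ∃ κ', κ' = min (1 / 2) (min (1 / (2 * (CN + 1)))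
      (κ / (2 * (CN + 1) * (14 * CN + 3)))) := ⟨_, rfl⟩
  have hκ'pos : 0 < κ' := by
    rw [hκ']
    refine lt_min (by norm_num) (lt_min (by positivity) (by positivity))
  have k1 : κ' ≤ 1 / 2 := by rw [hκ']; exact min_le_left _ _
  have k2 : CN * κ' ≤ 1 / 2 := by
    have h : κ' ≤ 1 / (2 * (CN + 1)) := by
      rw [hκ']
      exact (min_le_right _ _).trans (min_le_left _ _)
    calc CN * κ' ≤ (CN + 1) * (1 / (2 * (CN + 1))) := by
          apply mul_le_mul (by linarith) h hκ'pos.le (by linarith)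
      _ = 1 / 2 := by field_simp
  have k3 : CN * (κ' * (14 * CN + 3)) ≤ κ / 2 := by
    have h : κ' ≤ κ / (2 * (CN + 1) * (14 * CN + 3)) := by
      rw [hκ']
      exact (min_le_right _ _).trans (min_le_right _ _)
    calc CN * (κ' * (14 * CN + 3)) ≤ (CN + 1) * (κ / (2 * (CN + 1) * (14 * CN + 3)) *
          (14 * CN + 3)) := by
          apply mul_le_mul (by linarith) _ (by positivity) (by linarith)
          exact mul_le_mul_of_nonneg_right h (by linarith)
      _ = κ / 2 := by field_simp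
  obtain ⟨σ₀, hσ₀⟩ : ∃ σ₀, σ₀ = min (min η₄ (r / 200)) (min (1 / (2 * K))
      (κ / (4 * (CN + 1) * K))) := ⟨_, rfl⟩
  have hσ₀pos : 0 < σ₀ := by
    rw [hσ₀]
    exact lt_min (lt_min hη₄ (by positivity)) (lt_min (by positivity) (by positivity))
  have m1 : σ₀ ≤ η₄ := by rw [hσ₀]; exact (min_le_left _ _).trans (min_le_left _ _)
  have m2 : σ₀ ≤ r / 200 := by rw [hσ₀]; exact (min_le_left _ _).trans (min_le_right _ _)
  have m3 : K * (2 * σ₀) ≤ 1 := by
    have h : σ₀ ≤ 1 / (2 * K) := by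
      rw [hσ₀]
      exact (min_le_right _ _).trans (min_le_left _ _)
    calc K * (2 * σ₀) ≤ K * (2 * (1 / (2 * K))) := by gcongr
      _ = 1 := by field_simp
  have m4 : CN * (K * (2 * σ₀)) ≤ κ / 2 := by
    have h : σ₀ ≤ κ / (4 * (CN + 1) * K) := by
      rw [hσ₀]
      exact (min_le_right _ _).trans (min_le_right _ _)
    calc CN * (K * (2 * σ₀)) ≤ (CN + 1) * (K * (2 * (κ / (4 * (CN + 1) * K)))) := by
          gcongr
          linarith
      _ = κ / 2 := by
          field_simp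
          norm_num
  refine ⟨κ', hκ'pos, σ₀, hσ₀pos, ?_⟩
  intro t htA ht s hsA hs c hcA hcomm hc V W U hV hW hU hAd hsV hcU
  obtain ⟨σ, hσ⟩ : ∃ σ, σ = nL z₀ r V := ⟨_, rfl⟩
  obtain ⟨μ, hμ⟩ : ∃ μ, μ = nL z₀ r U := ⟨_, rfl⟩
  rw [← hσ] at hsV ⊢
  rw [← hμ] at hcU
  have hσ0 : 0 ≤ σ := by rw [hσ]; exact nL_nonneg hr hV.1
  have hμ0 : 0 ≤ μ := by rw [hμ]; exact nL_nonneg hr hU.1
  have hVσ : ∀ z ∈ ball z₀ (r / 2), ‖V z‖ ≤ σ := fun z hz => by
    rw [hσ]
    exact le_nL hr hV.1 hz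
  have hσ2 : σ ≤ 2 * σ₀ := by
    have h1 : nL z₀ r V ≤ σ₀ + κ' * σ := by
      refine nL_le hr fun z hz => ?_
      calc ‖V z‖ = ‖(s.g z - z) - (s.g z - z - V z)‖ := by
            congr 1
            abel
        _ ≤ ‖s.g z - z‖ + ‖s.g z - z - V z‖ := norm_sub_le _ _
        _ ≤ σ₀ + κ' * σ := add_le_add (hs z hz) (hsV z hz)
    rw [← hσ] at h1
    have h2 : κ' * σ ≤ 1 / 2 * σ := mul_le_mul_of_nonneg_right k1 hσ0
    linarith
  -- the displacement of `s`
  have hsd : ∀ z ∈ ball z₀ (r / 2), ‖s.g z - z‖ ≤ 2 * σ := by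
    intro z hz
    calc ‖s.g z - z‖ = ‖(s.g z - z - V z) + V z‖ := by
          congr 1
          abel
      _ ≤ κ' * σ + σ := (norm_add_le _ _).trans (add_le_add (hsV z hz) (hVσ z hz))
      _ ≤ 2 * σ := by
          have h2 : κ' * σ ≤ 1 / 2 * σ := mul_le_mul_of_nonneg_right k1 hσ0
          linarith
  have htd : DifferentiableOn ℂ t.g (ball z₀ (r / 2)) :=
    (hA.g_holo t htA).mono (ball_subset_ball (by linarith))
  have hsdf : DifferentiableOn ℂ s.g (ball z₀ (r / 2)) :=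
    (hA.g_holo s hsA).mono (ball_subset_ball (by linarith))
  have hnear : ∀ {f : Cn b → Cn b} {ρ δ δ' : ℝ}, ρ ≤ r / 2 → δ ≤ δ' → Near z₀ (r / 2) f δ →
      Near z₀ ρ f δ' := fun hρ hδ hf z hz => (hf z (ball_subset_ball hρ hz)).trans hδ
  have hS1t := hS1 t.g (htd.mono (ball_subset_ball (by linarith)))
    (hnear (by linarith) l1 ht)
  have hS2t := hS2 t.g (htd.mono (ball_subset_ball (by linarith)))
    (hnear (by linarith) l2 ht)
  have hS3t := hS3 t.g htd (hnear (by linarith) l3 ht)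
  have hS4s := hS4 s.g (hsdf.mono (ball_subset_ball (by linarith)))
    (hnear (by linarith) m1 hs)
  have hDt : ∀ z ∈ ball z₀ (2 * r / 5), ‖fderiv ℂ t.g z‖ ≤ 2 := by
    intro z hz
    have h1 := hS3t.2 z hz
    calc ‖fderiv ℂ t.g z‖ = ‖(fderiv ℂ t.g z - ContinuousLinearMap.id ℂ (Cn b)) +
          ContinuousLinearMap.id ℂ (Cn b)‖ := by
          congr 1
          abel
      _ ≤ 1 + 1 := (norm_add_le _ _).trans (add_le_add h1 ContinuousLinearMap.norm_id_le)
      _ = 2 := by norm_num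
  -- bound of `W`
  have hWσ : ∀ w ∈ ball z₀ (3 * r / 8), ‖W w‖ ≤ 2 * σ := by
    intro w hw
    obtain ⟨z, hz, hzw, -⟩ := hS2t.1 w hw
    have hz2 : z ∈ ball z₀ (r / 2) := ball_subset_ball (by linarith) hz
    rw [← hzw, hAd z hz2]
    calc ‖fderiv ℂ t.g z (V z)‖ ≤ ‖fderiv ℂ t.g z‖ * ‖V z‖ := ContinuousLinearMap.le_opNorm _ _
      _ ≤ 2 * σ := mul_le_mul (hDt z hz) (hVσ z hz2) (norm_nonneg _) (by norm_num)
  -- the identity for the commutator
  have hmt : ∀ z ∈ ball z₀ (r / 3), t.g z ∈ ball z₀ (5 * r / 12) := by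
    intro z hz
    have h1 := ht z (ball_subset_ball (by linarith) hz)
    rw [mem_ball] at *
    calc dist (t.g z) z₀ ≤ dist (t.g z) z + dist z z₀ := dist_triangle _ _ _
      _ < r / 12 + r / 3 := by
          rw [dist_eq_norm]
          exact add_lt_add_of_le_of_lt (h1.trans l4) hz
      _ = 5 * r / 12 := by ring
  have hms : ∀ z ∈ ball z₀ (5 * r / 12), s.g z ∈ ball z₀ (r / 2) := by
    intro z hz
    have h1 := hs z (ball_subset_ball (by linarith) hz)
    rw [mem_ball] at *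
    calc dist (s.g z) z₀ ≤ dist (s.g z) z + dist z z₀ := dist_triangle _ _ _
      _ < r / 12 + 5 * r / 12 := by
          rw [dist_eq_norm]
          exact add_lt_add_of_le_of_lt (h1.trans (m2.trans (by linarith))) hz
      _ = r / 2 := by ring
  have hcst : ∀ z ∈ ball z₀ (r / 3), c.g (s.g (t.g z)) = t.g (s.g z) := by
    obtain ⟨d, hd, hdeq⟩ := hcomm
    have hd1 : DifferentiableOn ℂ (fun z => c.g (s.g (t.g z))) (ball z₀ (r / 3)) := by
      refine (hA.g_holo c hcA).comp (t := ball z₀ r) ?_ ?_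
      · refine (hA.g_holo s hsA).comp (t := ball z₀ r) ?_ ?_
        · exact (hA.g_holo t htA).mono (ball_subset_ball (by linarith))
        · intro z hz
          exact ball_subset_ball (by linarith) (hmt z hz)
      · intro z hz
        exact ball_subset_ball (by linarith) (hms _ (hmt z hz))
    have hd2 : DifferentiableOn ℂ (fun z => t.g (s.g z)) (ball z₀ (r / 3)) := by
      refine (hA.g_holo t htA).comp (t := ball z₀ r) ?_ ?_
      · exact (hA.g_holo s hsA).mono (ball_subset_ball (by linarith))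
      · intro z hz
        exact ball_subset_ball (by linarith) (hms z (ball_subset_ball (by linarith) hz))
    refine idt hd1 hd2 (mem_ball_self (by positivity)) ?_
    filter_upwards [ball_mem_nhds z₀ hd] with z hz
    exact (hdeq z hz).1
  -- the main estimate
  have hmain : ∀ y ∈ ball z₀ (r / 4), ‖c.g y - y - (W y - V y)‖ ≤ (3 * κ' + K * σ) * σ := by
    intro y hy
    obtain ⟨x₁, hx₁, hx₁y, -⟩ := hS4s.1 y hy
    obtain ⟨x, hx, hxx₁, -⟩ := hS1t.1 x₁ hx₁
    have hx2 : x ∈ ball z₀ (r / 2) := ball_subset_ball (by linarith) hx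
    have hx₁2 : x₁ ∈ ball z₀ (r / 2) := ball_subset_ball (by linarith) hx₁
    have hcy : c.g y = t.g (s.g x) := by
      rw [← hx₁y, ← hxx₁]
      exact hcst x hx
    have hsx : ‖s.g x - x‖ ≤ 2 * σ := hsd x hx2
    have hT := taylor hr htd ht (x := x) (y := s.g x) hx (by
      refine lt_of_le_of_lt hsx ?_
      linarith)
    have e1 : c.g y - y - (W y - V y) =
        (t.g (s.g x) - t.g x - fderiv ℂ t.g x (s.g x - x)) +
        fderiv ℂ t.g x (s.g x - x - V x) - (s.g x₁ - x₁ - V x₁) +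
        ((W x₁ - W y) - (V x₁ - V y)) := by
      have hW1 : W x₁ = fderiv ℂ t.g x (V x) := by
        rw [← hxx₁]
        exact hAd x hx2
      rw [hcy, hx₁y, hW1, hxx₁, map_sub (fderiv ℂ t.g x) (s.g x - x)]
      abel
    have hyx₁ : ‖x₁ - y‖ ≤ 2 * σ := by
      rw [← hx₁y, norm_sub_rev]
      exact hsd x₁ hx₁2
    have hy7 : y ∈ ball z₀ (7 * r / 24) := ball_subset_ball (by linarith) hy
    have b1 : ‖t.g (s.g x) - t.g x - fderiv ℂ t.g x (s.g x - x)‖ ≤
        4 * (η / (r / 36) / (r / 36)) * σ * σ := by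
      refine hT.trans ?_
      have h0 : 0 ≤ η / (r / 36) / (r / 36) := by positivity
      calc η / (r / 36) / (r / 36) * ‖s.g x - x‖ * ‖s.g x - x‖
          ≤ η / (r / 36) / (r / 36) * (2 * σ) * (2 * σ) := by gcongr
        _ = 4 * (η / (r / 36) / (r / 36)) * σ * σ := by ring
    have b2 : ‖fderiv ℂ t.g x (s.g x - x - V x)‖ ≤ 2 * (κ' * σ) := by
      refine (ContinuousLinearMap.le_opNorm _ _).trans ?_
      exact mul_le_mul (hDt x (ball_subset_ball (by linarith) hx)) (hsV x hx2) (norm_nonneg _)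
        (by norm_num)
    have b3 : ‖s.g x₁ - x₁ - V x₁‖ ≤ κ' * σ := hsV x₁ hx₁2
    have b4 : ‖V x₁ - V y‖ ≤ σ / ((r / 2 - 7 * r / 24) / 2) * (2 * σ) := by
      have h1 := lipV (z₀ := z₀) (ρ := 7 * r / 24) (ρ' := r / 2) (V := V) (M := σ) (by linarith)
        (hV.1.mono (ball_subset_ball (by linarith))) hVσ hy7 hx₁
      refine h1.trans ?_
      have h2 : 0 ≤ σ / ((r / 2 - 7 * r / 24) / 2) :=
        div_nonneg hσ0 (by linarith)
      gcongr
    have b5 : ‖W x₁ - W y‖ ≤ 2 * σ / ((3 * r / 8 - 7 * r / 24) / 2) * (2 * σ) := by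
      have h1 := lipV (z₀ := z₀) (ρ := 7 * r / 24) (ρ' := 3 * r / 8) (V := W) (M := 2 * σ)
        (by linarith) (hW.1.mono (ball_subset_ball (by linarith))) hWσ hy7 hx₁
      refine h1.trans ?_
      have h2 : 0 ≤ 2 * σ / ((3 * r / 8 - 7 * r / 24) / 2) :=
        div_nonneg (by linarith) (by linarith)
      gcongr
    rw [e1]
    have c1 : σ / ((r / 2 - 7 * r / 24) / 2) * (2 * σ) +
        2 * σ / ((3 * r / 8 - 7 * r / 24) / 2) * (2 * σ) = 115.2 / r * σ * σ := by
      have : r ≠ 0 := hr.ne'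
      field_simp
      ring
    have c2 : 115.2 / r * σ * σ ≤ 120 / r * σ * σ := by gcongr; norm_num
    refine (norm_add_le _ _).trans ?_
    refine (add_le_add ((norm_sub_le _ _).trans (add_le_add ((norm_add_le _ _).trans
      (add_le_add b1 b2)) b3)) ((norm_sub_le _ _).trans (add_le_add b5 b4))).trans ?_
    rw [hK]
    linarith
  -- bound of `nL U`
  have hVy : ∀ y ∈ ball z₀ (r / 4), ‖W y - V y‖ ≤ 3 * σ := by
    intro y hy
    refine (norm_sub_le _ _).trans ?_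
    have h1 := hWσ y (ball_subset_ball (by linarith) hy)
    have h2 := hVσ y (ball_subset_ball (by linarith) hy)
    linarith
  have hKσ : K * σ ≤ 1 := (mul_le_mul_of_nonneg_left hσ2 hKpos.le).trans m3
  have hUy : ∀ y ∈ ball z₀ (r / 4), ‖U y‖ ≤ κ' * μ + 7 * σ := by
    intro y hy
    have h1 := hmain y hy
    have h2 := hcU y (ball_subset_ball (by linarith) hy)
    have h3 := hVy y hy
    have h4 : (3 * κ' + K * σ) * σ ≤ 4 * σ := by
      apply mul_le_mul_of_nonneg_right _ hσ0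
      linarith
    calc ‖U y‖ = ‖(c.g y - y - (W y - V y)) + (W y - V y) - (c.g y - y - U y)‖ := by
          congr 1
          abel
      _ ≤ 4 * σ + 3 * σ + κ' * μ := (norm_sub_le _ _).trans (add_le_add
          ((norm_add_le _ _).trans (add_le_add (h1.trans h4) h3)) h2)
      _ = κ' * μ + 7 * σ := by ring
  have hμσ : μ ≤ 14 * CN * σ := by
    have h1 : nL z₀ r U ≤ CN * (κ' * μ + 7 * σ) :=
      nL_le hr (hN U hU (κ' * μ + 7 * σ) hUy)
    rw [← hμ] at h1
    have h2 : CN * κ' * μ ≤ 1 / 2 * μ := mul_le_mul_of_nonneg_right k2 hμ0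
    linarith
  -- conclusion
  have hgen : InLL z₀ r A (U - (W - V)) := by
    obtain ⟨-, hadd, hsmul⟩ := hLADD hA
    have h1 := hadd _ _ hU (hsmul _ (hadd _ _ hW (hsmul _ hV (-1))) (-1))
    have h2 : U + (-1 : ℝ) • (W + (-1 : ℝ) • V) = U - (W - V) := by
      simp only [neg_smul, one_smul]
      abel
    rwa [h2] at h1
  have hfin : ∀ y ∈ ball z₀ (r / 4), ‖(U - (W - V)) y‖ ≤
      (κ' * (14 * CN + 3) + K * σ) * σ := by
    intro y hy
    have h1 := hmain y hy
    have h2 := hcU y (ball_subset_ball (by linarith) hy)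
    have h3 : κ' * μ ≤ κ' * (14 * CN * σ) := mul_le_mul_of_nonneg_left hμσ hκ'pos.le
    calc ‖(U - (W - V)) y‖ = ‖(c.g y - y - (W y - V y)) - (c.g y - y - U y)‖ := by
          congr 1
          simp only [Pi.sub_apply]
          abel
      _ ≤ (3 * κ' + K * σ) * σ + κ' * μ := (norm_sub_le _ _).trans (add_le_add h1 h2)
      _ ≤ (3 * κ' + K * σ) * σ + κ' * (14 * CN * σ) := by linarith
      _ = (κ' * (14 * CN + 3) + K * σ) * σ := by ring
  refine nL_le hr fun z hz => ?_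
  refine (hN _ hgen _ hfin z hz).trans ?_
  have h1 : CN * (K * σ) ≤ κ / 2 :=
    (mul_le_mul_of_nonneg_left (mul_le_mul_of_nonneg_left hσ2 hKpos.le) hCN).trans m4
  calc CN * ((κ' * (14 * CN + 3) + K * σ) * σ) =
      (CN * (κ' * (14 * CN + 3)) + CN * (K * σ)) * σ := by ring
    _ ≤ κ * σ := by
        apply mul_le_mul_of_nonneg_right _ hσ0
        linarith

end Pool.Agent.Helper35.SP
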